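import Pool.Agent.K1H89.TS.T4

/-!
Explicit bounds for `∏ (x^p - f_i(a) y^q) + c(a) y^(qr) = R(x,y)`.
-/

open Polynomial Finset NumberField IntermediateField

namespace Pool.Agent.K1H89.TS

open Pool.Agent.H322R2 Pool.Agent.Y910.S Pool.Agent.Y910.A Pool.Agent.W257

/-- length of an integer polynomial in one variable -/
def l1 (q : ℤ[X]) : ℕ := ∑ i ∈ q.support, (q.coeff i).natAbs

lemma l1_cast (q : ℤ[X]) : ((l1 q : ℕ) : ℝ) = pn zn q := by
  rw [pn_apply, l1]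
  push_cast
  apply Finset.sum_congr rfl
  intro i _
  rw [zn_apply, Nat.cast_natAbs, Int.cast_abs]

/-- lower bound for the value of a polynomial at a large integer -/
lemma le_abs_evf {a : ℤ} (ha : 1 ≤ |(a : ℝ)|) {q : ℤ[X]} (hq : 1 ≤ q.natDegree) :
    |(a : ℝ)| ^ q.natDegree - pn zn q * |(a : ℝ)| ^ (q.natDegree - 1) ≤ |((evf a q : ℤ) : ℝ)| := by
  obtain ⟨d, hd⟩ : ∃ d, d = q.natDegree := ⟨_, rfl⟩
  rw [← hd] at hq ⊢
  rw [evf_sum a q (show q.natDegree < d + 1 by omega),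
    pn_eq_range zn q (show q.natDegree < d + 1 by omega), Finset.sum_range_succ,
    Finset.sum_range_succ]
  have hlc : (1 : ℝ) ≤ |((q.coeff d : ℤ) : ℝ)| := by
    have h1 : q.coeff d ≠ 0 := by
      rw [hd]
      apply leadingCoeff_ne_zero.2
      rintro rfl
      rw [natDegree_zero] at hd
      omega
    exact_mod_cast Int.one_le_abs h1
  have h1 : |((∑ i ∈ range d, (q.coeff i : ℤ) * a ^ i : ℤ) : ℝ)|
      ≤ (∑ i ∈ range d, zn (q.coeff i)) * |(a : ℝ)| ^ (d - 1) := by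
    push_cast
    refine (Finset.abs_sum_le_sum_abs _ _).trans ?_
    rw [Finset.sum_mul]
    apply Finset.sum_le_sum
    intro i hi
    rw [Finset.mem_range] at hi
    rw [abs_mul, abs_pow, zn_apply]
    apply mul_le_mul_of_nonneg_left _ (abs_nonneg _)
    exact pow_le_pow_right₀ ha (by omega)
  have h2 : |(a : ℝ)| ^ d ≤ |(((q.coeff d : ℤ) * a ^ d : ℤ) : ℝ)| := by
    push_cast
    rw [abs_mul, abs_pow]
    exact le_mul_of_one_le_left (by positivity) hlc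
  have h3 : 0 ≤ zn (q.coeff d) * |(a : ℝ)| ^ (d - 1) :=
    mul_nonneg (apply_nonneg _ _) (by positivity)
  have h4 := abs_sub_abs_le_abs_add (((q.coeff d : ℤ) * a ^ d : ℤ) : ℝ)
    ((∑ i ∈ range d, (q.coeff i : ℤ) * a ^ i : ℤ) : ℝ)
  push_cast at h1 h2 h4 ⊢
  have h5 : (∑ i ∈ range d, (q.coeff i : ℝ) * (a : ℝ) ^ i) + (q.coeff d : ℝ) * (a : ℝ) ^ d
      = (q.coeff d : ℝ) * (a : ℝ) ^ d + ∑ i ∈ range d, (q.coeff i : ℝ) * (a : ℝ) ^ i := by ring
  rw [h5, add_mul]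
  linarith

theorem thomas (r k p q : ℕ) (hr : 3 ≤ r) (hp : 1 ≤ p) (hq : 1 ≤ q) (hpq : Nat.Coprime p q) :
    ∃ κ : ℕ, ∀ (f : Fin r → ℤ[X]) (c : ℤ[X]) (a : ℤ) (R : MvPolynomial (Fin 2) ℤ),
      (∀ i, (f i).natDegree ≤ k) → c ≠ 0 →
      (∀ i j, i ≠ j → c.natDegree < (f i - f j).natDegree) →
      (2 * (∏ i, (1 + l1 (f i)) + l1 c)) ^ κ ≤ a.natAbs →
      (∀ n ∈ R.support, q * n 0 + p * n 1 < p * q * r) →
      ∀ x y : ℤ, ∏ i, (x ^ p - (f i).eval a * y ^ q) + c.eval a * y ^ (q * r)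
          = MvPolynomial.eval ![x, y] R →
        max x.natAbs y.natAbs ≤ (a.natAbs * (1 + H322R2.len R)) ^ κ := by
  obtain ⟨κ, hκ1, hκ⟩ := ts_eq_aux r (r * k) p q hr hp hq hpq
  refine ⟨κ + 3, ?_⟩
  intro f c a R hf hc hd ha hR x y hxy
  obtain ⟨Λ, hΛ⟩ : ∃ Λ, Λ = ∏ i, (1 + l1 (f i)) + l1 c := ⟨_, rfl⟩
  obtain ⟨Pr, hPr⟩ : ∃ Pr, Pr = ∏ i, (1 + l1 (f i)) := ⟨_, rfl⟩
  rw [← hΛ] at ha
  rw [← hPr] at hΛ
  have hle : ∀ i, 1 + l1 (f i) ≤ Pr := by
    intro i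
    rw [hPr]
    exact Finset.single_le_prod' (f := fun i => 1 + l1 (f i)) (fun i _ => by omega)
      (Finset.mem_univ i)
  have hPr1 : 1 ≤ Pr := le_trans (by omega) (hle ⟨0, by omega⟩)
  have hΛ1 : 1 ≤ Λ := by omega
  have ha3 : (2 * Λ) ^ 3 ≤ a.natAbs := (Nat.pow_le_pow_right (by omega) (by omega)).trans ha
  have hbig : 4 * Λ < a.natAbs := by
    refine lt_of_lt_of_le ?_ ha3
    have h1 : (2 * Λ) ^ 3 = 8 * (Λ * Λ * Λ) := by ring
    have h2 : Λ ≤ Λ * Λ * Λ := by nlinarith [Nat.mul_le_mul hΛ1 hΛ1]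
    omega
  have haR : 4 * (Λ : ℝ) < |(a : ℝ)| := by
    rw [← natAbs_cast]
    exact_mod_cast hbig
  have hΛR : (1 : ℝ) ≤ Λ := by exact_mod_cast hΛ1
  have ha1 : 1 ≤ |(a : ℝ)| := by linarith
  have hcΛ : pn zn c ≤ Λ := by
    rw [← l1_cast]
    exact_mod_cast (by omega : l1 c ≤ Λ)
  have hfΛ : ∀ i, pn zn (f i) ≤ Λ := by
    intro i
    rw [← l1_cast]
    have := hle i
    exact_mod_cast (by omega : l1 (f i) ≤ Λ)
  -- the fibre
  have hca : c.eval a ≠ 0 := by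
    intro h0
    have h1 : evf (a : ℝ) c = 0 := by
      have h2 := map_evf (Int.castRingHom ℝ) a c
      rw [evf_eq_evalRingHom, coe_evalRingHom, h0, map_zero] at h2
      exact h2.symm
    have := abs_root_le hc hΛR hcΛ h1
    linarith
  have hsep : ∀ i j, i ≠ j → 2 * |c.eval a| < |(f i).eval a - (f j).eval a| := by
    intro i j hij
    have hdij := hd i j hij
    have h1 := le_abs_evf ha1 (q := f i - f j) (by omega)
    obtain ⟨d, hdd⟩ : ∃ d, d = (f i - f j).natDegree := ⟨_, rfl⟩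
    rw [← hdd] at h1 hdij
    have h2 := abs_evf_le ha1 (show c.natDegree ≤ d - 1 by omega)
    have h3 : pn zn (f i - f j) ≤ 2 * Λ := by
      rw [sub_eq_add_neg]
      refine (map_add_le_add _ _ _).trans ?_
      rw [map_neg_eq_map]
      have := hfΛ i; have := hfΛ j
      linarith
    have h4 : |(a : ℝ)| ^ d = |(a : ℝ)| * |(a : ℝ)| ^ (d - 1) := by
      rw [← pow_succ']; congr 1; omega
    have h5 : 0 < |(a : ℝ)| ^ (d - 1) := by positivity
    have h6 : 2 * |((evf a c : ℤ) : ℝ)| < |((evf a (f i - f j) : ℤ) : ℝ)| := by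
      refine lt_of_lt_of_le ?_ h1
      rw [h4]
      have h7 : pn zn c * |(a : ℝ)| ^ (d - 1) ≤ Λ * |(a : ℝ)| ^ (d - 1) :=
        mul_le_mul_of_nonneg_right hcΛ h5.le
      have h8 : pn zn (f i - f j) * |(a : ℝ)| ^ (d - 1) ≤ 2 * Λ * |(a : ℝ)| ^ (d - 1) :=
        mul_le_mul_of_nonneg_right h3 h5.le
      have h9 : 4 * Λ * |(a : ℝ)| ^ (d - 1) < |(a : ℝ)| * |(a : ℝ)| ^ (d - 1) :=
        mul_lt_mul_of_pos_right haR h5
      linarith
    rw [map_sub] at h6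
    rw [evf_eq_evalRingHom, coe_evalRingHom] at h6
    exact_mod_cast h6
  obtain ⟨hgm, hgd, hgirr⟩ := split_irr (by omega) (fun i => (f i).eval a) hca hsep
  have hmap : (thm f c).map (evalRingHom a)
      = ∏ i, (X - C ((f i).eval a)) + C (c.eval a) := by
    rw [thm, Polynomial.map_add, Polynomial.map_prod, Polynomial.map_C, coe_evalRingHom]
    congr 1
    apply Finset.prod_congr rfl
    intro i _
    rw [Polynomial.map_sub, map_X, Polynomial.map_C, coe_evalRingHom]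
  obtain ⟨hPm, hPd⟩ := thm_monic (show 1 ≤ r by omega) f c
  have hpn : pn (pn zn) (thm f c) ≤ Λ := by
    refine (pn_thm_le f c).trans (le_of_eq ?_)
    rw [hΛ, hPr]
    push_cast
    rw [l1_cast]
    congr 1
    apply Finset.prod_congr rfl
    intro i _
    rw [l1_cast]
  have hck : c.natDegree ≤ k := by
    have h1 := hd ⟨0, by omega⟩ ⟨1, by omega⟩ (by simp)
    have h2 := natDegree_sub_le (f ⟨0, by omega⟩) (f ⟨1, by omega⟩)
    have h3 := hf ⟨0, by omega⟩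
    have h4 := hf ⟨1, by omega⟩
    have h5 := max_le h3 h4
    omega
  obtain ⟨φ, hφinj, hφ⟩ := thm_split (by omega) hd (LaurentSeries ℚ)
  have hsum : ∑ l ∈ range (r + 1), ((thm f c).coeff l).eval a * x ^ (p * l) * y ^ (q * (r - l))
      = MvPolynomial.eval ![x, y] R := by
    rw [← hxy, pow_mul y q r, ← sum_split (fun i => (f i).eval a) (c.eval a) (x ^ p) (y ^ q)]
    apply Finset.sum_congr rfl
    intro l _
    rw [← hmap, coeff_map, coe_evalRingHom, ← pow_mul, ← pow_mul]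
  have hres := hκ (LaurentSeries ℚ) (thm f c) φ Λ a hPm hPd (cdeg_thm hf hck (by omega)) hφ hφinj
    hΛ1 hpn ((Nat.pow_le_pow_right (by omega) (by omega)).trans ha) (by rw [hmap]; exact hgirr) R hR
    x y hsum
  refine hres.trans (Nat.pow_le_pow_right ?_ (by omega))
  exact Nat.mul_pos (by omega) (by omega)

end Pool.Agent.K1H89.TS
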