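import Pool.Agent.K1H89.TS.T6
import Pool.Agent.K1H89.TS.T5

/-!
Weighted equations attached to totally split polynomials, arbitrary leading coefficient.
-/

open Polynomial Finset IntermediateField

namespace Pool.Agent.K1H89.TS

open Pool.Agent.H322R2 Pool.Agent.Y910.S Pool.Agent.W257

/-- the monic polynomial is a rescaling -/
lemma mon_comp {m : ℕ} (hm : 1 ≤ m) {f : ℤ[X][X]} (hf : f.natDegree ≤ m) {K : Type*} [CommRing K]
    (g : ℤ[X] →+* K) : ((mon m f).map g).comp (C (g (f.coeff m)) * X)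
      = C (g (f.coeff m) ^ (m - 1)) * f.map g := by
  have h := mon_eval hm hf ((C : K →+* K[X]).comp g) X
  rw [eval_map, eval_map, ← eval₂_map, ← eval₂_map, eval₂_C_X, RingHom.comp_apply, ← C_pow] at h
  exact h

/-- rescaling the variable over a field -/
lemma irr_comp {K : Type*} [Field K] {γ : K} (hγ : γ ≠ 0) (f : K[X]) :
    Irreducible (f.comp (C γ * X)) ↔ Irreducible f := by
  letI : Invertible γ := invertibleOfNonzero hγ
  have h := MulEquiv.irreducible_iff (algEquivCMulXAddC γ 0) (x := f)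
  rw [algEquivCMulXAddC_apply, C_0, add_zero, ← comp_eq_aeval] at h
  exact h

/-- irreducibility of the monic polynomial over a field -/
lemma irr_mon {m : ℕ} (hm : 1 ≤ m) {f : ℤ[X][X]} (hf : f.natDegree ≤ m) {K : Type*} [Field K]
    (g : ℤ[X] →+* K) (hg : g (f.coeff m) ≠ 0) (t : ℕ) :
    Irreducible ((mon m (C (f.coeff m ^ t) * f)).map g) ↔ Irreducible (f.map g) := by
  obtain ⟨f1, hf1⟩ : ∃ f1, f1 = C (f.coeff m ^ t) * f := ⟨_, rfl⟩
  have hc : f1.coeff m = f.coeff m ^ t * f.coeff m := by rw [hf1, coeff_C_mul]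
  have hf1d : f1.natDegree ≤ m := by
    rw [hf1]
    exact (natDegree_C_mul_le _ _).trans hf
  have hgc : g (f1.coeff m) ≠ 0 := by
    rw [hc, map_mul, map_pow]
    exact mul_ne_zero (pow_ne_zero _ hg) hg
  rw [← hf1, ← irr_comp hgc, mon_comp hm hf1d, hf1, Polynomial.map_mul, Polynomial.map_C,
    irreducible_isUnit_mul, irreducible_isUnit_mul]
  · rw [isUnit_C, map_pow, isUnit_iff_ne_zero]
    exact pow_ne_zero _ hg
  · rw [isUnit_C, isUnit_iff_ne_zero, ← hf1]
    exact pow_ne_zero _ hgc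

/-- irreducibility of the monic polynomial -/
lemma irr_mon_int {m : ℕ} (hm : 1 ≤ m) {f : ℤ[X][X]} (hf : f.natDegree = m) (hirr : Irreducible f)
    (t : ℕ) : Irreducible (mon m (C (f.coeff m ^ t) * f)) := by
  letI : NormalizedGCDMonoid ℤ[X] := Classical.choice
    (inferInstance : Nonempty (NormalizedGCDMonoid ℤ[X]))
  have h1 : f.IsPrimitive := hirr.isPrimitive (by omega)
  have h2 : Irreducible (f.map (algebraMap ℤ[X] (FractionRing ℤ[X]))) :=
    h1.irreducible_iff_irreducible_map_fraction_map.1 hirr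
  have hc : f.coeff m ≠ 0 := by
    rw [← hf]
    exact leadingCoeff_ne_zero.2 hirr.ne_zero
  have h3 : algebraMap ℤ[X] (FractionRing ℤ[X]) (f.coeff m) ≠ 0 := by
    intro h
    rw [IsFractionRing.to_map_eq_zero_iff] at h
    exact hc h
  rw [(mon_monic m _).irreducible_iff_irreducible_map_fraction_map (K := FractionRing ℤ[X])]
  exact (irr_mon hm hf.le _ h3 t).2 h2

/-- the right hand side after rescaling -/
noncomputable def rsc (N : ℕ) (γ : ℤ) (R : MvPolynomial (Fin 2) ℤ) : MvPolynomial (Fin 2) ℤ :=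
  ∑ n ∈ R.support, MvPolynomial.monomial n (R.coeff n * γ ^ (N - n 0))

lemma coeff_rsc (N : ℕ) (γ : ℤ) (R : MvPolynomial (Fin 2) ℤ) (n : Fin 2 →₀ ℕ) :
    (rsc N γ R).coeff n = R.coeff n * γ ^ (N - n 0) := by
  rw [rsc, MvPolynomial.coeff_sum]
  by_cases hn : n ∈ R.support
  · rw [Finset.sum_eq_single_of_mem n hn]
    · rw [MvPolynomial.coeff_monomial, if_pos rfl]
    · intro i _ hi
      rw [MvPolynomial.coeff_monomial, if_neg hi]
  · rw [MvPolynomial.notMem_support_iff.1 hn, zero_mul]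
    apply Finset.sum_eq_zero
    intro i hi
    rw [MvPolynomial.coeff_monomial, if_neg]
    rintro rfl
    exact hn hi

lemma rsc_support (N : ℕ) (γ : ℤ) (R : MvPolynomial (Fin 2) ℤ) :
    (rsc N γ R).support ⊆ R.support := by
  intro n hn
  rw [MvPolynomial.mem_support_iff] at hn ⊢
  intro h
  rw [coeff_rsc, h, zero_mul] at hn
  exact hn rfl

lemma len_rsc_le {N : ℕ} {γ : ℤ} (hγ : γ ≠ 0) (R : MvPolynomial (Fin 2) ℤ) :
    H322R2.len (rsc N γ R) ≤ H322R2.len R * γ.natAbs ^ N := by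
  unfold H322R2.len
  refine (Finset.sum_le_sum_of_subset (rsc_support N γ R)).trans ?_
  rw [Finset.sum_mul]
  apply Finset.sum_le_sum
  intro n _
  rw [coeff_rsc, Int.natAbs_mul, Int.natAbs_pow]
  exact Nat.mul_le_mul_left _ (Nat.pow_le_pow_right (by omega) (Nat.sub_le _ _))

lemma eval_rsc {N : ℕ} {γ : ℤ} {R : MvPolynomial (Fin 2) ℤ} (hR : ∀ n ∈ R.support, n 0 ≤ N)
    (x y : ℤ) : MvPolynomial.eval ![γ * x, y] (rsc N γ R) = γ ^ N * MvPolynomial.eval ![x, y] R := by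
  rw [rsc, map_sum, MvPolynomial.eval_eq', Finset.mul_sum]
  apply Finset.sum_congr rfl
  intro n hn
  rw [MvPolynomial.eval_monomial, Finsupp.prod_fintype _ _ (fun i => pow_zero _), Fin.prod_univ_two,
    Fin.prod_univ_two]
  simp only [Matrix.cons_val_zero, Matrix.cons_val_one]
  have h1 : γ ^ N = γ ^ (N - n 0) * γ ^ n 0 := by
    rw [← pow_add]
    congr 1
    have := hR n hn
    omega
  rw [h1, mul_pow]
  ring

/-- the equation after rescaling -/
lemma sum_mon {m p q : ℕ} (hm : 1 ≤ m) (hp : 1 ≤ p) (f : ℤ[X][X]) (g : ℤ[X] →+* ℤ) (x y : ℤ) :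
    ∑ l ∈ range (m + 1), g ((mon m (C (f.coeff m ^ (p - 1)) * f)).coeff l)
        * (g (f.coeff m) * x) ^ (p * l) * y ^ (q * (m - l))
      = g (f.coeff m) ^ (p * m - 1) *
        ∑ l ∈ range (m + 1), g (f.coeff l) * x ^ (p * l) * y ^ (q * (m - l)) := by
  obtain ⟨γ, hγ⟩ : ∃ γ, γ = g (f.coeff m) := ⟨_, rfl⟩
  have hpm : 1 ≤ p * m := Nat.mul_pos hp hm
  rw [Finset.sum_range_succ, Finset.sum_range_succ, mul_add, Finset.mul_sum, mon_coeff_self,
    map_one, ← hγ]
  congr 1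
  · apply Finset.sum_congr rfl
    intro l hl
    rw [Finset.mem_range] at hl
    rw [mon_coeff_lt _ hl, coeff_C_mul, coeff_C_mul, map_mul, map_mul, map_pow, map_pow, map_mul,
      map_pow, ← hγ, mul_pow]
    have h1 : γ ^ (p * m - 1) = γ ^ (p - 1) * (γ ^ (p - 1) * γ) ^ (m - 1 - l) * γ ^ (p * l) := by
      rw [← pow_succ, ← pow_mul, ← pow_add, ← pow_add]
      congr 1
      have h2 : p - 1 + 1 = p := by omega
      have h3 : p * (m - 1 - l) + p * l + p = p * m := by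
        have : m - 1 - l + l + 1 = m := by omega
        calc p * (m - 1 - l) + p * l + p = p * (m - 1 - l + l + 1) := by ring
          _ = p * m := by rw [this]
      rw [h2]
      omega
    rw [h1]
    ring
  · rw [mul_pow, one_mul]
    have h1 : γ ^ (p * m) = γ ^ (p * m - 1) * γ := by
      rw [← pow_succ]
      congr 1
      omega
    rw [h1]
    ring

/-- weighted equations attached to irreducible totally split polynomials -/
theorem ts_eq_gen (m k p q : ℕ) (hm : 3 ≤ m) (hp : 1 ≤ p) (hq : 1 ≤ q) (hpq : Nat.Coprime p q) :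
    ∃ κ : ℕ, ∀ (L : Type) [Field L]
    [Algebra (PowerSeries ℚ) L] [IsFractionRing (PowerSeries ℚ) L] (f : ℤ[X][X]) (φ : Fin m → L)
    (h : ℕ) (a : ℤ), f.natDegree = m → (∀ j, (f.coeff j).natDegree ≤ k) →
    (∀ i, (f.map (evf ((algebraMap (PowerSeries ℚ) L PowerSeries.X)⁻¹))).eval (φ i) = 0) →
    Function.Injective φ → 1 ≤ h → pn (pn zn) f ≤ h → (2 * h) ^ κ ≤ a.natAbs →
    Irreducible f → Irreducible ((f.map (evalRingHom a)).map (Int.castRingHom ℚ)) ∧
    ∀ R : MvPolynomial (Fin 2) ℤ, (∀ n ∈ R.support, q * n 0 + p * n 1 < p * q * m) →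
    ∀ x y : ℤ, ∑ l ∈ range (m + 1), (f.coeff l).eval a * x ^ (p * l) * y ^ (q * (m - l))
        = MvPolynomial.eval ![x, y] R →
      max x.natAbs y.natAbs ≤ (a.natAbs * (1 + H322R2.len R)) ^ κ := by
  obtain ⟨κ1, hκ1⟩ := ts_eq m (m * (p * k)) p q hm hp hq hpq
  refine ⟨κ1 * (p * (m + 1) + 1) + 2 + κ1 * ((k + 1) * (p * m) + 1), ?_⟩
  obtain ⟨κ, hκ⟩ : ∃ κ, κ = κ1 * (p * (m + 1) + 1) + 2 + κ1 * ((k + 1) * (p * m) + 1) := ⟨_, rfl⟩
  rw [← hκ]
  intro L _ _ _ f φ h a hfd hk h0 hinj hh hfh ha hirr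
  have hm1 : 1 ≤ m := by omega
  have hc0 : f.coeff m ≠ 0 := by
    rw [← hfd]
    exact leadingCoeff_ne_zero.2 hirr.ne_zero
  have hhR : (1 : ℝ) ≤ h := by exact_mod_cast hh
  have h2h : (2 : ℝ) ≤ 2 * h := by linarith
  have hpc : pn zn (f.coeff m) ≤ h := by
    refine le_trans ?_ hfh
    rw [pn_eq_range (pn zn) f (show f.natDegree < m + 1 by omega)]
    exact Finset.single_le_sum (f := fun l => pn zn (f.coeff l)) (fun _ _ => apply_nonneg _ _)
      (Finset.mem_range.2 (by omega))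
  have haR : (2 * (h : ℝ)) ^ κ ≤ |(a : ℝ)| := by
    rw [← Pool.Agent.Y910.A.natAbs_cast]
    exact_mod_cast ha
  have hah : (2 * (h : ℝ)) ^ 2 ≤ |(a : ℝ)| := (pow_le_pow_right₀ (by linarith) (by omega)).trans haR
  have hah1 : (h : ℝ) < |(a : ℝ)| := by nlinarith
  have ha1 : (1 : ℝ) ≤ |(a : ℝ)| := by linarith
  -- the leading coefficient at `a`
  obtain ⟨γ, hγ⟩ : ∃ γ, γ = evf a (f.coeff m) := ⟨_, rfl⟩
  have hγ0 : γ ≠ 0 := by
    intro h1
    have h2 : evf (a : ℝ) (f.coeff m) = 0 := by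
      have h3 : evf (a : ℝ) (f.coeff m) = ((evf a (f.coeff m) : ℤ) : ℝ) := by
        have := map_evf (Int.castRingHom ℝ) a (f.coeff m)
        rw [eq_intCast, eq_intCast] at this
        exact this.symm
      rw [h3, ← hγ, h1, Int.cast_zero]
    have h3 := abs_root_le hc0 hhR hpc h2
    linarith
  have hγA : |(γ : ℝ)| ≤ |(a : ℝ)| ^ (k + 1) := by
    rw [hγ]
    refine (abs_evf_le ha1 (hk m)).trans ?_
    rw [pow_succ, mul_comm]
    exact mul_le_mul_of_nonneg_left (hpc.trans hah1.le) (by positivity)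
  -- the monic polynomial
  obtain ⟨f1, hf1⟩ : ∃ f1, f1 = C (f.coeff m ^ (p - 1)) * f := ⟨_, rfl⟩
  have hf1c : f1.coeff m = f.coeff m ^ (p - 1) * f.coeff m := by rw [hf1, coeff_C_mul]
  have hf1d : f1.natDegree = m := by
    rw [hf1, natDegree_C_mul (pow_ne_zero _ hc0), hfd]
  have hf1k : ∀ j, (f1.coeff j).natDegree ≤ p * k := by
    intro j
    rw [hf1, coeff_C_mul]
    refine natDegree_mul_le.trans ?_
    have e1 : (f.coeff m ^ (p - 1)).natDegree ≤ (p - 1) * k :=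
      natDegree_pow_le.trans (Nat.mul_le_mul_left _ (hk m))
    have e2 := hk j
    have e3 : (p - 1) * k + k = p * k := by
      have : p - 1 + 1 = p := by omega
      calc (p - 1) * k + k = (p - 1 + 1) * k := by ring
        _ = p * k := by rw [this]
    omega
  have hf1p : pn (pn zn) f1 ≤ (2 * (h : ℝ)) ^ p := by
    rw [hf1]
    refine (map_mul_le_mul (pn (pn zn)) _ _).trans ?_
    rw [pn_C]
    have e1 : pn zn (f.coeff m ^ (p - 1)) ≤ (2 * (h : ℝ)) ^ (p - 1) := by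
      refine (seminorm_pow_le (pn zn) pnz_one _ _).trans ?_
      exact pow_le_pow_left₀ (apply_nonneg _ _) (by linarith) _
    have e2 : (2 * (h : ℝ)) ^ p = (2 * (h : ℝ)) ^ (p - 1) * (2 * h) := by
      rw [← pow_succ]
      congr 1
      omega
    rw [e2]
    exact mul_le_mul e1 (by linarith) (apply_nonneg _ _) (by positivity)
  have h10 : ∀ i, (f1.map (evf ((algebraMap (PowerSeries ℚ) L PowerSeries.X)⁻¹))).eval (φ i)
      = 0 := by
    intro i
    rw [hf1, Polynomial.map_mul, eval_mul, h0 i, mul_zero]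
  have hf1c0 : f1.coeff m ≠ 0 := by
    rw [hf1c]
    exact mul_ne_zero (pow_ne_zero _ hc0) hc0
  obtain ⟨hsp, hinj'⟩ := mon_split hm1 hf1d.le
    (evf ((algebraMap (PowerSeries ℚ) L PowerSeries.X)⁻¹)) (evf_T_ne_zero hf1c0) hinj h10
  have hp2 : (2 : ℝ) ≤ (2 * (h : ℝ)) ^ p := h2h.trans (le_self_pow₀ (by linarith) (by omega))
  have hFp : pn (pn zn) (mon m f1) ≤ (((2 * h) ^ (p * (m + 1)) : ℕ) : ℝ) := by
    refine (mon_pn_le hm1 hf1d.le hp2 hf1p).trans ?_
    rw [← pow_mul]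
    push_cast
    exact le_refl _
  have hFirr : Irreducible (mon m f1) := by
    rw [hf1]
    exact irr_mon_int hm1 hfd hirr (p - 1)
  have hthr : (2 * (2 * h) ^ (p * (m + 1))) ^ κ1 ≤ a.natAbs := by
    refine le_trans ?_ ha
    calc (2 * (2 * h) ^ (p * (m + 1))) ^ κ1 ≤ ((2 * h) ^ (p * (m + 1) + 1)) ^ κ1 := by
          apply Nat.pow_le_pow_left
          rw [pow_succ, mul_comm]
          exact Nat.mul_le_mul_left _ (by omega)
      _ = (2 * h) ^ (κ1 * (p * (m + 1) + 1)) := by rw [← pow_mul, mul_comm κ1]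
      _ ≤ _ := Nat.pow_le_pow_right (by omega) (by omega)
  obtain ⟨hir, hbd⟩ := hκ1 L (mon m f1) _ ((2 * h) ^ (p * (m + 1))) a (mon_monic m f1)
    (mon_natDegree m f1) (mon_coeff_natDegree hf1k) hsp hinj'
    (Nat.one_le_pow _ _ (by omega)) hFp hthr hFirr
  constructor
  · -- irreducibility
    have e1 : Irreducible (((mon m f1).map (evalRingHom a)).map (Int.castRingHom ℚ)) :=
      (((mon_monic m f1).map _).irreducible_iff_irreducible_map_fraction_map (K := ℚ)).1 hir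
    rw [Polynomial.map_map] at e1 ⊢
    rw [hf1] at e1
    refine (irr_mon hm1 hfd.le _ ?_ (p - 1)).1 e1
    rw [RingHom.comp_apply, ← evf_eq_evalRingHom, ← hγ, eq_intCast]
    exact_mod_cast hγ0
  · intro R hR x y hxy
    have hR0 : ∀ n ∈ R.support, n 0 ≤ p * m - 1 := by
      intro n hn
      have e1 := hR n hn
      have e2 : q * n 0 < q * (p * m) := by
        calc q * n 0 ≤ q * n 0 + p * n 1 := Nat.le_add_right _ _
          _ < p * q * m := e1
          _ = q * (p * m) := by ring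
      have e3 := Nat.lt_of_mul_lt_mul_left e2
      omega
    have hsum : ∑ l ∈ range (m + 1), ((mon m f1).coeff l).eval a * (γ * x) ^ (p * l)
        * y ^ (q * (m - l)) = MvPolynomial.eval ![γ * x, y] (rsc (p * m - 1) γ R) := by
      have e1 := sum_mon (q := q) hm1 hp f (evf a) x y
      rw [← hγ, ← hf1] at e1
      rw [eval_rsc hR0, ← hxy]
      rw [evf_eq_evalRingHom] at e1
      exact e1
    have hres := hbd (rsc (p * m - 1) γ R) (fun n hn => hR n (rsc_support _ _ _ hn)) (γ * x) y hsum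
    obtain ⟨A, hA⟩ : ∃ A, A = a.natAbs := ⟨_, rfl⟩
    obtain ⟨Λ, hΛ⟩ : ∃ Λ, Λ = H322R2.len R := ⟨_, rfl⟩
    have hlen := len_rsc_le (N := p * m - 1) hγ0 R
    rw [← hΛ] at hlen ⊢
    rw [← hA] at hres ⊢
    have hA1 : 1 ≤ A := by
      have : ((A : ℕ) : ℝ) = |(a : ℝ)| := by rw [hA]; exact Pool.Agent.Y910.A.natAbs_cast a
      have h2 : (1 : ℝ) ≤ (A : ℝ) := by rw [this]; exact ha1
      exact_mod_cast h2
    have hγn : γ.natAbs ≤ A ^ (k + 1) := by
      have e1 : ((γ.natAbs : ℕ) : ℝ) ≤ ((A ^ (k + 1) : ℕ) : ℝ) := by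
        rw [Pool.Agent.Y910.A.natAbs_cast, Nat.cast_pow,
          show (A : ℝ) = |(a : ℝ)| by rw [hA]; exact Pool.Agent.Y910.A.natAbs_cast a]
        exact hγA
      exact_mod_cast e1
    have hγ1 : 1 ≤ γ.natAbs := by omega
    have hx : max x.natAbs y.natAbs ≤ max (γ * x).natAbs y.natAbs := by
      apply max_le_max _ (le_refl _)
      rw [Int.natAbs_mul]
      exact Nat.le_mul_of_pos_left _ hγ1
    refine (hx.trans hres).trans ?_
    have e2 : A * (1 + H322R2.len (rsc (p * m - 1) γ R))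
        ≤ (A * (1 + Λ)) ^ ((k + 1) * (p * m) + 1) := by
      have e3 : 1 + H322R2.len (rsc (p * m - 1) γ R) ≤ (1 + Λ) * A ^ ((k + 1) * (p * m)) := by
        have e4 : γ.natAbs ^ (p * m - 1) ≤ A ^ ((k + 1) * (p * m)) := by
          calc γ.natAbs ^ (p * m - 1) ≤ γ.natAbs ^ (p * m) :=
                Nat.pow_le_pow_right hγ1 (Nat.sub_le _ _)
            _ ≤ (A ^ (k + 1)) ^ (p * m) := Nat.pow_le_pow_left hγn _
            _ = _ := by rw [← pow_mul]
        have e5 : 1 ≤ A ^ ((k + 1) * (p * m)) := Nat.one_le_pow _ _ hA1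
        calc 1 + H322R2.len (rsc (p * m - 1) γ R) ≤ 1 + Λ * γ.natAbs ^ (p * m - 1) := by omega
          _ ≤ A ^ ((k + 1) * (p * m)) + Λ * A ^ ((k + 1) * (p * m)) :=
              Nat.add_le_add e5 (Nat.mul_le_mul_left _ e4)
          _ = _ := by ring
      calc A * (1 + H322R2.len (rsc (p * m - 1) γ R))
          ≤ A * ((1 + Λ) * A ^ ((k + 1) * (p * m))) := Nat.mul_le_mul_left _ e3
        _ = (A * (1 + Λ)) * A ^ ((k + 1) * (p * m)) := by ring
        _ ≤ (A * (1 + Λ)) * (A * (1 + Λ)) ^ ((k + 1) * (p * m)) :=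
            Nat.mul_le_mul_left _ (Nat.pow_le_pow_left (Nat.le_mul_of_pos_right _ (by omega)) _)
        _ = _ := by rw [pow_succ, mul_comm]
    have hAΛ : 0 < A * (1 + Λ) := Nat.mul_pos hA1 (by omega)
    calc (A * (1 + H322R2.len (rsc (p * m - 1) γ R))) ^ κ1
        ≤ ((A * (1 + Λ)) ^ ((k + 1) * (p * m) + 1)) ^ κ1 := Nat.pow_le_pow_left e2 _
      _ = (A * (1 + Λ)) ^ (κ1 * ((k + 1) * (p * m) + 1)) := by rw [← pow_mul, mul_comm κ1]
      _ ≤ _ := Nat.pow_le_pow_right hAΛ (by omega)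

end Pool.Agent.K1H89.TS
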