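import Pool.Agent.K1H89.TS.B2
import Pool.Agent.Y910.A.A16

/-!
Anchors of weight `(1, k)` give bounds for all plane curves.
-/

open Polynomial Finset NumberField IntermediateField

namespace Pool.Agent.K1H89.TS

open Pool.Agent.H322R2 Pool.Agent.Y910.S Pool.Agent.Y910.G Pool.Agent.Y910.A Pool.Agent.W257

/-- An anchor over `K₁` gives bounds for all residue fields `L₂` with `[L₂ ∩ K₁ : ℚ] ≥ 3`. -/
theorem ancW_eff (R e w M : ℕ) : ∃ K : ℕ, 1 ≤ K ∧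
    ∀ {B A : ℝ} {K₁ : IntermediateField ℚ ℝ}, AncW R e w B A K₁ → B ^ K ≤ A →
    ∀ (L₂ : IntermediateField ℚ ℝ) (r p q : ℕ), r ≤ M → p ≤ M → q ≤ M →
      3 ≤ Module.finrank ℚ ↥(L₂ ⊓ K₁) → EffW r p q K (A ^ K) L₂ := by
  have hlev : ∀ t : ℕ × ℕ × ℕ × ℕ, ∃ K : ℕ, 1 ≤ t.1 → 3 ≤ t.2.1 →
      (1 ≤ K ∧ ∀ {K₁ : IntermediateField ℚ ℝ} [NumberField K₁] {S₁ : Set ℝ} {h₁ : ℝ}
      (_ : 1 ≤ h₁) (_ : Gen K₁ S₁ h₁) {B1 W : ℝ} {F1 : ℤ[X][X]} {a1 b1 : ℤ}
      (_ : AQ (hs K₁) (rE K₁ (algebraMap K₁ ℝ)) 1 w e B1 W F1 a1 b1) (_ : F1.Monic)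
      (_ : F1.natDegree = t.1 * 1) (_ : Prime F1)
      (_ : ∀ j, (F1.coeff j).natDegree ≤ e)
      (_ : B1 ^ K ≤ |(a1 : ℝ)|) (L₂ : IntermediateField ℚ ℝ)
      (_ : 3 * Module.finrank ℚ ↥(K₁ ⊔ L₂) ≤ t.1 * t.2.1),
      EffW t.2.1 t.2.2.1 t.2.2.2 K (|(a1 : ℝ)| * (t.1 * t.2.1 * h₁ * W ^ (t.1 * 1))) L₂) := by
    rintro ⟨r1, r2, p2, q2⟩
    by_cases h : 1 ≤ r1 ∧ 3 ≤ r2
    · obtain ⟨K, h1, h2⟩ := anchor_effW r1 1 w r2 p2 q2 e h.1 h.2
      exact ⟨K, fun _ _ => ⟨h1, h2⟩⟩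
    · exact ⟨0, fun h1 h2 => absurd ⟨h1, h2⟩ h⟩
  choose κ hκ using hlev
  obtain ⟨s, hs'⟩ : ∃ s, s = (range (R + 1) ×ˢ range (M + 1) ×ˢ range (M + 1) ×ˢ range (M + 1)).sup κ :=
    ⟨_, rfl⟩
  have hκs : ∀ r1 r2 p2 q2, r1 ≤ R → r2 ≤ M → p2 ≤ M → q2 ≤ M → κ (r1, r2, p2, q2) ≤ s := by
    intro r1 r2 p2 q2 h1 h2 h3 h4
    rw [hs']
    apply Finset.le_sup
    simp only [Finset.mem_product, Finset.mem_range]
    omega
  refine ⟨s + (1 + R + M + e + e * R), by omega, ?_⟩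
  rintro B A K₁ ⟨hnf1, S, h, W, F, a, b, hS, hh1, hhA, hWA, haA, ⟨P⟩, hFm, hFp, hF1, hFR, hfinF, hFx⟩
    hBA L₂ r p q hr hp hq h3 hnf hfin G2 E2 B2 B2' α2 a2 b2 hα2 hαB2 hBB2 hG2m hG2d hG2p P2
  obtain ⟨r1, hr1⟩ : ∃ r1, r1 = F.natDegree := ⟨_, rfl⟩
  rw [← hr1] at hF1 hFR hfinF
  have : FiniteDimensional ℚ ↥(K₁ ⊔ L₂) := IntermediateField.finiteDimensional_sup K₁ L₂
  have hB2 := P.hB
  have hA4 : 4 ≤ A := by rw [← haA]; exact P.a_ge
  have hA1 : 1 ≤ A := by linarith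
  have hW := P.hW
  -- degrees
  have hdeg := Pool.Agent.W571.ESG.main_fld (L₂ ⊓ K₁) K₁ L₂ inf_le_right inf_le_left inferInstance
    inferInstance
  rw [hfin] at hdeg
  have h3n : 3 * Module.finrank ℚ ↥(K₁ ⊔ L₂) ≤ r1 * r := by
    calc 3 * Module.finrank ℚ ↥(K₁ ⊔ L₂)
        ≤ Module.finrank ℚ ↥(L₂ ⊓ K₁) * Module.finrank ℚ ↥(K₁ ⊔ L₂) := Nat.mul_le_mul_right _ h3
      _ = Module.finrank ℚ ↥(K₁ ⊔ L₂) * Module.finrank ℚ ↥(L₂ ⊓ K₁) := mul_comm _ _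
      _ ≤ Module.finrank ℚ K₁ * r := hdeg
      _ ≤ r1 * r := Nat.mul_le_mul_right _ hfinF
  have hr3 : 3 ≤ r := by
    have h4 : Module.finrank ℚ ↥(L₂ ⊓ K₁) ≤ Module.finrank ℚ L₂ :=
      IntermediateField.finrank_le_of_le_right inf_le_left
    omega
  obtain ⟨hk1, hk⟩ := hκ (r1, r, p, q) hF1 hr3
  simp only at hk1 hk
  have hks := hκs r1 r p q hFR hr hp hq
  obtain ⟨k, hkd⟩ : ∃ k, k = κ (r1, r, p, q) := ⟨_, rfl⟩
  rw [← hkd] at hk1 hk hks
  have hbig : B ^ k ≤ |(a : ℝ)| := by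
    rw [haA]
    exact (pow_le_pow_right₀ (by linarith) (by omega)).trans hBA
  have hres := hk hh1 hS P hFm (by rw [mul_one]; exact hr1.symm) hFp hFx hbig
    L₂ h3n
  rw [haA, mul_one] at hres
  have hpow : ∀ n : ℕ, (n : ℝ) ≤ A ^ n := by
    intro n
    calc (n : ℝ) ≤ 2 ^ n := by exact_mod_cast Nat.lt_two_pow_self.le
      _ ≤ _ := pow_le_pow_left₀ (by norm_num) (by linarith) n
  have hc : A * (r1 * r * h * W ^ r1) ≤ A ^ (1 + R + M + e + e * R) := by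
    have e2 : (r1 : ℝ) ≤ A ^ R := (hpow r1).trans (pow_le_pow_right₀ hA1 hFR)
    have e3 : (r : ℝ) ≤ A ^ M := (hpow r).trans (pow_le_pow_right₀ hA1 hr)
    have e5 : W ^ r1 ≤ A ^ (e * R) := by
      calc W ^ r1 ≤ (A ^ e) ^ r1 := pow_le_pow_left₀ (by linarith) hWA _
        _ = A ^ (e * r1) := by rw [← pow_mul]
        _ ≤ _ := pow_le_pow_right₀ hA1 (Nat.mul_le_mul_left _ hFR)
    calc A * (r1 * r * h * W ^ r1) ≤ A * (A ^ R * A ^ M * A ^ e * A ^ (e * R)) := by gcongr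
      _ = _ := by ring
  have hr1R : (1 : ℝ) ≤ r1 := by exact_mod_cast hF1
  have hrR : (1 : ℝ) ≤ r := by exact_mod_cast (by omega : 1 ≤ r)
  have hc1 : 1 ≤ A * (r1 * r * h * W ^ r1) :=
    one_le_mul_of_one_le_of_one_le hA1 (one_le_mul_of_one_le_of_one_le
      (one_le_mul_of_one_le_of_one_le (one_le_mul_of_one_le_of_one_le hr1R hrR) hh1)
      (one_le_pow₀ hW))
  exact (hres.mono hc1 (hc.trans (pow_le_pow_right₀ hA1 (by omega))) (by omega)) hnf hfin G2 E2 B2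
    B2' α2 a2 b2 hα2 hαB2 hBB2 hG2m hG2d hG2p P2

/-- the bound for all curves -/
theorem ancW_bound (R e w M : ℕ) : ∃ K : ℕ, 1 ≤ K ∧
    ∀ {B A : ℝ} {K₁ : IntermediateField ℚ ℝ}, AncW R e w B A K₁ → B ^ K ≤ A →
    ∀ {l m : ℝ} {K₂ : IntermediateField ℚ ℝ}, 2 ≤ l → Near M l m K₂ →
      3 ≤ Module.finrank ℚ ↥(K₂ ⊓ K₁) → m ≤ (A * l) ^ K := by
  obtain ⟨K, hK1, hK⟩ := ancW_eff R e w (M + 1)
  refine ⟨K + K * eNB M K, by omega, ?_⟩
  intro B A K₁ hanc hBA l m K₂ hl hnear h3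
  have hB : 2 ≤ B := by
    obtain ⟨hnf1, S, h, W, F, a, b, hS, hh1, hhA, hWA, haA, ⟨P⟩, hrest⟩ := hanc
    exact P.hB
  have hA1 : 1 ≤ A := (one_le_pow₀ (by linarith)).trans hBA
  have hres := near_bound (C' := K) (c := A ^ K) hl (one_le_pow₀ hA1) hnear (fun N r hN hr _ =>
    hK hanc ((pow_le_pow_right₀ (by linarith) (by omega)).trans hBA) K₂ r N (N + 1) (by omega)
      (by omega) (by omega) h3)
  refine hres.trans ?_
  have hl1 : 1 ≤ l := by linarith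
  calc (A ^ K * l) ^ eNB M K ≤ ((A * l) ^ K) ^ eNB M K := by
        apply pow_le_pow_left₀ (by positivity)
        rw [mul_pow]
        apply mul_le_mul_of_nonneg_left _ (by positivity)
        exact le_self_pow₀ hl1 (by omega)
    _ = (A * l) ^ (K * eNB M K) := by rw [← pow_mul]
    _ ≤ _ := pow_le_pow_right₀ (one_le_mul_of_one_le_of_one_le hA1 hl1) (by omega)

lemma AncW.two_le {R e w : ℕ} {B A : ℝ} {K : IntermediateField ℚ ℝ} (h : AncW R e w B A K) : 2 ≤ B := by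
  obtain ⟨hnf1, S, h, W, F, a, b, hS, hh1, hhA, hWA, haA, ⟨P⟩, hrest⟩ := h
  exact P.hB

/-- anchors give bounds for all plane curves whose residue field meets the anchor field in degree
at least three -/
theorem ancW_curve (R e w C : ℕ) (hC2 : 2 ≤ C) : ∃ K : ℕ, C + 1 ≤ K ∧
    ∀ {B : ℝ} {A : ℕ} {K₁ : IntermediateField ℚ ℝ}, AncW R e w B (A : ℝ) K₁ → B ^ K ≤ A →
    ∀ (F : MvPolynomial (Fin 2) ℤ) (Q : ℚ[X] → Prop) (m : ℕ), F ≠ 0 → SD C F Q m →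
      m ≤ (A * len F) ^ K ∨ ∃ g : ℚ[X], Q g ∧ ∃ η : ℝ, aeval η g = 0 ∧
        Module.finrank ℚ ↥(ℚ⟮η⟯ ⊓ K₁) ≤ 2 := by
  obtain ⟨K0, hK01, hK0⟩ := ancW_bound R e w C
  refine ⟨C + 1 + 2 * K0, by omega, ?_⟩
  intro B A K₁ hanc hBA F Q m hF hSD
  have hB := hanc.two_le
  have hlen : 1 ≤ len F := Pool.Agent.Y910.G.len_pos hF
  -- `A` is large
  have hCA : C + 1 ≤ A := by
    have h1 : ((C + 1 : ℕ) : ℝ) ≤ A := by
      refine le_trans ?_ hBA
      calc ((C + 1 : ℕ) : ℝ) ≤ 2 ^ (C + 1) := by exact_mod_cast Nat.lt_two_pow_self.le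
        _ ≤ B ^ (C + 1) := pow_le_pow_left₀ (by norm_num) hB _
        _ ≤ _ := pow_le_pow_right₀ (by linarith) (by omega)
    exact_mod_cast h1
  have hAl : 1 ≤ A * len F := Nat.mul_pos (by omega) hlen
  rcases hSD with h | ⟨g, hg, η, hη, hn⟩
  · left
    refine h.trans ?_
    exact (Nat.pow_le_pow_left (Nat.mul_le_mul_right _ (by omega : C ≤ A)) _).trans
      (Nat.pow_le_pow_right hAl (by omega))
  by_cases h3 : 3 ≤ Module.finrank ℚ ↥(ℚ⟮η⟯ ⊓ K₁)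
  swap
  · exact Or.inr ⟨g, hg, η, hη, by omega⟩
  left
  have hCl : 2 ≤ C * len F := by
    calc 2 ≤ C * 1 := by omega
      _ ≤ _ := Nat.mul_le_mul_left _ hlen
  have hres := hK0 hanc ((pow_le_pow_right₀ (by linarith) (by omega)).trans hBA)
    (by exact_mod_cast hCl) hn h3
  have hres' : m ≤ (A * (C * len F)) ^ K0 := by exact_mod_cast hres
  refine hres'.trans ?_
  calc (A * (C * len F)) ^ K0 ≤ ((A * len F) ^ 2) ^ K0 := by
        apply Nat.pow_le_pow_left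
        calc A * (C * len F) ≤ A * (A * len F) :=
              Nat.mul_le_mul_left _ (Nat.mul_le_mul_right _ (by omega))
          _ ≤ (A * len F) ^ 2 := by
              have e : (A * len F) ^ 2 = A * (A * len F) * len F := by ring
              rw [e]
              exact Nat.le_mul_of_pos_right _ hlen
    _ = (A * len F) ^ (2 * K0) := by rw [← pow_mul]
    _ ≤ _ := Nat.pow_le_pow_right hAl (by omega)

/-- Anchors give bounds for weighted curves. -/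
theorem ancW_weighted (R e w r p q : ℕ) (hr : 3 ≤ r) (hp : 1 ≤ p) (hq : 1 ≤ q)
    (hpq : Nat.Coprime p q) : ∃ K : ℕ, 1 ≤ K ∧
    ∀ {B A : ℝ} {K₁ : IntermediateField ℚ ℝ}, AncW R e w B A K₁ → B ^ K ≤ A →
    ∀ G : ℤ[X][X], WN r p q G → Irreducible ((wl r p q G).map (Int.castRingHom ℚ)) →
      (∀ η : ℝ, evf η (wl r p q G) = 0 → 3 ≤ Module.finrank ℚ ↥(ℚ⟮η⟯ ⊓ K₁)) →
      ∀ H : ℝ, 1 ≤ H → pn (pn zn) G ≤ H → ∀ a b : ℤ, ev a b G = 0 →
      |(a : ℝ)| ≤ (A * (2 + H)) ^ K := by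
  obtain ⟨K0, hK01, hK0⟩ := ancW_eff R e w (r + p + q)
  obtain ⟨C1, C2, hC1, hBQ⟩ := exists_BQ r p q (by omega) hp hq hpq
  refine ⟨C2 * p + K0 + K0 * K0 + C1 * K0, by omega, ?_⟩
  obtain ⟨Kf, hKf⟩ : ∃ Kf, Kf = C2 * p + K0 + K0 * K0 + C1 * K0 := ⟨_, rfl⟩
  rw [← hKf]
  intro B A K₁ hanc hBA G hG hirr hη3 H hH hGH a b hab
  have hB := hanc.two_le
  have hA1 : 1 ≤ A := (one_le_pow₀ (by linarith)).trans hBA
  obtain ⟨hgm, hgd⟩ := wl_monic hG
  have hpg : pn zn (wl r p q G) ≤ H := (pn_wl_le hp hq hG).trans hGH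
  have hg0 : (wl r p q G).coeff 0 ≠ 0 := by
    intro h0
    have h1 : X ∣ (wl r p q G).map (Int.castRingHom ℚ) := by
      rw [X_dvd_iff, coeff_map, h0, map_zero]
    obtain ⟨k, hk⟩ := h1
    have h2 : ((wl r p q G).map (Int.castRingHom ℚ)).natDegree = r := by
      rw [hgm.natDegree_map, hgd]
    rcases hirr.isUnit_or_isUnit hk with h | h
    · exact not_isUnit_X h
    · have h3 : k ≠ 0 := h.ne_zero
      have h4 : ((wl r p q G).map (Int.castRingHom ℚ)).natDegree = 1 + k.natDegree := by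
        rw [hk, natDegree_mul X_ne_zero h3, natDegree_X]
      rw [natDegree_eq_zero_of_isUnit h] at h4
      omega
  have hprime : Prime G := Y660.SG.edge_prime r p q (by omega) hp hq hpq G hG.1 hG.2.1 hG.2.2
    (wl r p q G) hgm hgd (fun l hl => wl_coeff l hl) hg0 hirr
  have hn : nrm (wl r p q G) r (derivative (wl r p q G)) ≠ 0 := by
    apply nrm_ne_zero_of_coprime _ _ hgm hgd
    rw [← derivative_map]
    exact hirr.separable
  have h2H : (1 : ℝ) ≤ 2 + H := by linarith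
  have hAH : 1 ≤ A * (2 + H) := one_le_mul_of_one_le_of_one_le hA1 h2H
  obtain ⟨Z, hZ0, hZ⟩ : ∃ Z : ℝ, 0 ≤ Z ∧ Z ^ p = |(a : ℝ)| := by
    refine ⟨|(a : ℝ)| ^ ((p : ℝ)⁻¹), by positivity, ?_⟩
    rw [← Real.rpow_natCast, ← Real.rpow_mul (abs_nonneg _),
      inv_mul_cancel₀ (by positivity), Real.rpow_one]
  by_cases hlarge : (2 + H) ^ C2 ≤ Z
  swap
  · push Not at hlarge
    rw [← hZ]
    calc Z ^ p ≤ ((2 + H) ^ C2) ^ p := pow_le_pow_left₀ hZ0 hlarge.le _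
      _ = (2 + H) ^ (C2 * p) := by rw [← pow_mul]
      _ ≤ (A * (2 + H)) ^ (C2 * p) :=
          pow_le_pow_left₀ (by linarith) (le_mul_of_one_le_left (by linarith) hA1) _
      _ ≤ _ := pow_le_pow_right₀ hAH (by omega)
  obtain ⟨η, hη0, hηH, hQ⟩ := hBQ G hG hprime hg0 hn H hH hGH a b hab Z hZ hlarge
  have hevf : ∀ s : ℤ[X], evf η s = aeval η s := by
    intro s
    rw [aeval_def, evf, coe_eval₂RingHom]
    congr 1
  have hint : IsIntegral ℤ η := ⟨wl r p q G, hgm, hη0⟩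
  have hfin : Module.finrank ℚ ℚ⟮η⟯ = r := by
    rw [IntermediateField.adjoin.finrank (hint.tower_top)]
    have h1 : minpoly ℚ η = (wl r p q G).map (Int.castRingHom ℚ) := by
      symm
      apply minpoly.eq_of_irreducible_of_monic hirr
      · have h2 := hevf (wl r p q G)
        rw [hη0] at h2
        have h3 : aeval η ((wl r p q G).map (algebraMap ℤ ℚ)) = aeval η (wl r p q G) :=
          aeval_map_algebraMap ℚ η (wl r p q G)
        rw [← h2] at h3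
        exact h3
      · exact hgm.map _
    rw [h1, hgm.natDegree_map, hgd]
  have hfd : FiniteDimensional ℚ ℚ⟮η⟯ :=
    IntermediateField.adjoin.finiteDimensional (hint.tower_top)
  have hnf : NumberField ℚ⟮η⟯ := { to_charZero := inferInstance, to_finiteDimensional := hfd }
  obtain ⟨x, hx⟩ : ∃ x : ℚ⟮η⟯, algebraMap ℚ⟮η⟯ ℝ x = η :=
    ⟨IntermediateField.AdjoinSimple.gen ℚ η, IntermediateField.AdjoinSimple.algebraMap_gen ℚ η⟩
  have hx0 : evf x (wl r p q G) = 0 := by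
    have h3 := map_evf (algebraMap ℚ⟮η⟯ ℝ) x (wl r p q G)
    rw [hx, hη0] at h3
    exact (algebraMap ℚ⟮η⟯ ℝ).injective (by rw [h3, map_zero])
  obtain ⟨α, hα1, hα2, hα3⟩ := exists_alpha ℚ⟮η⟯ (algebraMap ℚ⟮η⟯ ℝ) (wl r p q G) hgm H hH hpg x hx0
  rw [hx] at hα1
  obtain ⟨Q, _⟩ := hQ (hs ℚ⟮η⟯) (rE ℚ⟮η⟯ (algebraMap ℚ⟮η⟯ ℝ)) (hs_one _) (abs_rE_le _ _) α hα2 hα1
    (by linarith)
  have hE := hK0 hanc ((pow_le_pow_right₀ (by linarith) (by omega)).trans hBA) ℚ⟮η⟯ r p q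
    (by omega) (by omega) (by omega) (hη3 η hη0)
  have hC1' : (2 + H) ≤ (2 + H) ^ C1 := le_self_pow₀ h2H (by omega)
  have h4 := hE hnf hfin G _ _ ((2 + H) ^ C1) α a b (by rw [hα1]) (by linarith) le_rfl hG.1 hG.2.1
    hprime Q
  refine h4.trans ?_
  calc (A ^ K0 * (2 + H) ^ C1) ^ K0 ≤ ((A * (2 + H)) ^ K0 * (A * (2 + H)) ^ C1) ^ K0 := by
        apply pow_le_pow_left₀ (by positivity)
        apply mul_le_mul _ _ (by positivity) (by positivity)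
        · exact pow_le_pow_left₀ (by linarith) (le_mul_of_one_le_right (by linarith) h2H) _
        · exact pow_le_pow_left₀ (by linarith) (le_mul_of_one_le_left (by linarith) hA1) _
    _ = (A * (2 + H)) ^ (K0 * K0 + C1 * K0) := by rw [← pow_add, ← pow_mul]; congr 1; ring
    _ ≤ _ := pow_le_pow_right₀ hAH (by omega)

/-- Anchors give bounds for explicit weighted equations. -/
theorem ancW_eq (R e w r p q : ℕ) (hr : 3 ≤ r) (hp : 1 ≤ p) (hq : 1 ≤ q)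
    (hpq : Nat.Coprime p q) : ∃ K : ℕ, 1 ≤ K ∧
    ∀ {B A : ℝ} {K₁ : IntermediateField ℚ ℝ}, AncW R e w B A K₁ → B ^ K ≤ A →
    ∀ g : ℤ[X], g.Monic → g.natDegree = r → Irreducible (g.map (Int.castRingHom ℚ)) →
      (∀ η : ℝ, evf η g = 0 → 3 ≤ Module.finrank ℚ ↥(ℚ⟮η⟯ ⊓ K₁)) →
      ∀ P : MvPolynomial (Fin 2) ℤ, (∀ n ∈ P.support, q * n 0 + p * n 1 < p * q * r) →
      ∀ x y : ℤ, ∑ l ∈ range (r + 1), g.coeff l * x ^ (p * l) * y ^ (q * (r - l))
        = MvPolynomial.eval ![x, y] P →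
      |(x : ℝ)| ≤ (A * (2 + (pn zn g + len P))) ^ K ∧
        |(y : ℝ)| ≤ (A * (2 + (pn zn g + len P))) ^ K := by
  obtain ⟨K, hK1, hK⟩ := ancW_weighted R e w r p q hr hp hq hpq
  refine ⟨K + (1 + K * q), by omega, ?_⟩
  intro B A K₁ hanc hBA g hgm hgd hirr hη P hP x y hxy
  have hr1 : 1 ≤ r := by omega
  have hB := hanc.two_le
  have hA1 : 1 ≤ A := (one_le_pow₀ (by linarith)).trans hBA
  have hWN := whP_WN hp hgm hgd hP
  have hwl := wl_whP hp hgd hP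
  obtain ⟨H, hH⟩ : ∃ H, H = pn zn g + len P := ⟨_, rfl⟩
  have hH1 : 1 ≤ H := by
    have h1 : 1 ≤ pn zn g := by
      have h2 : zn (g.coeff r) ≤ pn zn g := by
        rw [pn_eq_range zn g (show g.natDegree < r + 1 by omega)]
        exact Finset.single_le_sum (f := fun l => zn (g.coeff l)) (fun _ _ => apply_nonneg _ _)
          (Finset.mem_range.2 (by omega))
      have h3 : g.coeff r = 1 := by rw [← hgd]; exact hgm
      rw [h3, zn_apply] at h2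
      simpa using h2
    have h4 : (0 : ℝ) ≤ len P := Nat.cast_nonneg _
    linarith
  have hpn := pn_whP (r := r) (p := p) (q := q) (g := g) (P := P) hgd
  rw [← hH] at hpn ⊢
  have hev : ev y x (whP r p q g P) = 0 := by rw [ev_whP, hxy, sub_self]
  have hy := hK hanc ((pow_le_pow_right₀ (by linarith) (by omega)).trans hBA) _ hWN
    (by rw [hwl]; exact hirr) (by rw [hwl]; exact hη) H hH1 hpn y x hev
  have h2H : 1 ≤ 2 + H := by linarith
  obtain ⟨Y, hY⟩ : ∃ Y, Y = A * (2 + H) := ⟨_, rfl⟩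
  have hY1 : 1 ≤ Y := by rw [hY]; exact one_le_mul_of_one_le_of_one_le hA1 h2H
  rw [← hY] at hy ⊢
  have hHY : H ≤ Y := by rw [hY]; nlinarith
  refine ⟨?_, hy.trans (pow_le_pow_right₀ hY1 (by omega))⟩
  obtain ⟨Z, hZ0, hZ⟩ : ∃ Z : ℝ, 0 ≤ Z ∧ Z ^ p = |(y : ℝ)| := by
    refine ⟨|(y : ℝ)| ^ ((p : ℝ)⁻¹), by positivity, ?_⟩
    rw [← Real.rpow_natCast, ← Real.rpow_mul (abs_nonneg _),
      inv_mul_cancel₀ (by positivity), Real.rpow_one]
  by_cases hZ1 : 1 ≤ Z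
  · have h1 := abs_b_le' hWN hp hr1 hH1 hpn y x hev Z hZ1 hZ
    refine h1.trans ?_
    have hZY : Z ≤ Y ^ K := by
      calc Z ≤ Z ^ p := le_self_pow₀ hZ1 (by omega)
        _ ≤ Y ^ K := by rw [hZ]; exact hy
    calc H * Z ^ q ≤ Y * (Y ^ K) ^ q :=
          mul_le_mul hHY (pow_le_pow_left₀ hZ0 hZY _) (by positivity) (by linarith)
      _ = Y ^ (1 + K * q) := by rw [← pow_mul, pow_add, pow_one]
      _ ≤ _ := pow_le_pow_right₀ hY1 (by omega)
  · -- `y = 0`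
    push Not at hZ1
    have hy0 : y = 0 := by
      have h1 : |(y : ℝ)| < 1 := by
        rw [← hZ]
        exact pow_lt_one₀ hZ0 hZ1 (by omega)
      have h2 : |y| < 1 := by exact_mod_cast h1
      exact Int.abs_lt_one_iff.1 h2
    subst hy0
    obtain ⟨f, hf⟩ : ∃ f : ℤ[X], f = (whP r p q g P).map (evf (0 : ℤ)) := ⟨_, rfl⟩
    have hfm : f.Monic := by rw [hf]; exact hWN.1.map _
    have hfx : evf (x : ℝ) f = 0 := by
      have h1 : evf x f = 0 := by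
        have h0 : (evf x).comp (mapRingHom (evf (0 : ℤ))) = ev (0 : ℤ) x := by
          apply Polynomial.ringHom_ext
          · intro t
            simp
          · simp
        have h1 := congrArg (fun φ : ℤ[X][X] →+* ℤ => φ (whP r p q g P)) h0
        simp only [RingHom.comp_apply, coe_mapRingHom] at h1
        rw [hf, h1, hev]
      have h2 := map_evf (Int.castRingHom ℝ) x f
      simp only [eq_intCast] at h2
      rw [← h2, h1, Int.cast_zero]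
    have hfp : pn zn f ≤ H := by
      refine le_trans ?_ hpn
      have hd : f.natDegree < (whP r p q g P).natDegree + 1 := by
        rw [hf]
        have := natDegree_map_le (f := evf (0 : ℤ)) (p := whP r p q g P)
        omega
      rw [pn_eq_range zn f hd, pn_eq_range (pn zn) (whP r p q g P) (Nat.lt_succ_self _)]
      apply Finset.sum_le_sum
      intro i _
      have h3 : f.coeff i = ((whP r p q g P).coeff i).coeff 0 := by
        rw [hf, coeff_map, evf, coe_eval₂RingHom, eval₂_at_zero]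
        simp
      rw [h3]
      exact coeff_le_pn _ _ _
    have h4 := root_norm_le f hfm H hH1 hfp (x : ℝ) hfx
    rw [Real.norm_eq_abs] at h4
    exact (h4.trans hHY).trans (le_self_pow₀ hY1 (by omega))

end Pool.Agent.K1H89.TS
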