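import Pool.Agent.K1H89.TS.E3
import Pool.Agent.W257.G3

/-!
Galois anchors in the totally split case: the real roots at a large integer.
-/

open Polynomial Finset NumberField IntermediateField

namespace Pool.Agent.K1H89.TS

open Pool.Agent.H322R2 Pool.Agent.W257

/-- the integral branches at infinity -/
structure BrW (k m : ℕ) (f : ℤ[X][X]) (B : ℝ) (δ : ℤ) (ω : Fin m → PowerSeries ℤ) : Prop where
  hm : 1 ≤ m
  hk : 1 ≤ k
  hf : f.Monic
  hfd : f.natDegree = m
  hT : WD k m f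
  hB : 4 ≤ B
  hδ : δ ≠ 0
  split : (hmgk k m f).map (evf (PowerSeries.C (δ ^ 2) * PowerSeries.X)) = ∏ i, (X - C (ω i))
  bζ : Bd zn (1 / B) (PowerSeries.C (δ ^ 2) * PowerSeries.X) 1
  hω : ∀ i, Bd zn (1 / B) (ω i) B
  hR : nrm f m (derivative f) ≠ 0
  hRB : pn zn (nrm f m (derivative f)) ≤ B

/-- the roots at `a` -/
noncomputable def βW {m : ℕ} (k : ℕ) (δ a : ℤ) (ω : Fin m → PowerSeries ℤ) (i : Fin m) : ℝ :=
  (a : ℝ) ^ k * PowerSeries.constantCoeff (sb (thG δ a) (rω ω i))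

/-- the field generated by the roots of `f(a, Y)` -/
noncomputable def KW {m : ℕ} (k : ℕ) (δ a : ℤ) (ω : Fin m → PowerSeries ℤ) :
    IntermediateField ℚ ℝ :=
  IntermediateField.adjoin ℚ (Set.range (βW k δ a ω))

namespace BrW

variable {k m : ℕ} {f : ℤ[X][X]} {B : ℝ} {δ : ℤ} {ω : Fin m → PowerSeries ℤ}
  (P : BrW k m f B δ ω) {a : ℤ} (ha : B ^ 2 ≤ |(a : ℝ)|)

include P in
lemma B_pos : 0 < B := by have := P.hB; linarith

include P in
lemma delta_one : (1 : ℝ) ≤ (δ : ℝ) ^ 2 := by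
  have h1 : 1 ≤ |δ| := Int.one_le_abs P.hδ
  have h2 : (1 : ℝ) ≤ |(δ : ℝ)| := by exact_mod_cast h1
  rw [← sq_abs]
  nlinarith

include P in
lemma g_monic : (f.map (evf a)).Monic ∧ (f.map (evf a)).natDegree = m :=
  ⟨P.hf.map _, by rw [P.hf.natDegree_map, P.hfd]⟩

include P ha

lemma a_ge : 16 ≤ |(a : ℝ)| := by have := P.hB; nlinarith

lemma B_le : B ≤ |(a : ℝ)| := by have := P.hB; nlinarith

lemma a_ne : (a : ℝ) ≠ 0 := by
  have := P.a_ge ha
  intro h0
  rw [h0, abs_zero] at this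
  linarith

lemma r_pos : 0 < |(a : ℝ)| / 2 := by have := P.a_ge ha; linarith

lemma q_nonneg : 0 ≤ B / |(a : ℝ)| := by have := P.B_pos; positivity

lemma rad_le : B / |(a : ℝ)| ≤ 1 / B := by
  have h1 := P.a_ge ha
  have h2 := P.B_pos
  rw [div_le_div_iff₀ (by linarith) h2]
  nlinarith

lemma th_bd : Bd rn (|(a : ℝ)| / 2) (thG δ a) (B / |(a : ℝ)|) := by
  have hr := P.r_pos ha
  have h1 := P.delta_one
  refine ((Bd.C (N := rn) hr.le (1 / (δ : ℝ) ^ 2)).mul hr.le (bd_invX (a : ℝ) (P.a_ne ha))).mono ?_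
  rw [rn_apply, abs_of_nonneg (by positivity), ← mul_div_assoc]
  apply div_le_div_of_nonneg_right _ (abs_nonneg _)
  have h2 : 1 / (δ : ℝ) ^ 2 ≤ 1 := by rw [div_le_one (by linarith)]; exact h1
  have := P.hB
  linarith

lemma ζbd : Bd rn (B / |(a : ℝ)|) (PowerSeries.C ((δ : ℝ) ^ 2) * PowerSeries.X) 1 := by
  have h1 := (Bd_real P.bζ).of_le (P.q_nonneg ha) (P.rad_le ha)
  rw [map_mul, PowerSeries.map_C, PowerSeries.map_X] at h1
  simpa using h1

lemma ωbd (i : Fin m) : Bd rn (B / |(a : ℝ)|) (rω ω i) B :=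
  (Bd_real (P.hω i)).of_le (P.q_nonneg ha) (P.rad_le ha)

lemma sb_ζ : sb (thG δ a) (PowerSeries.C ((δ : ℝ) ^ 2) * PowerSeries.X) = invX (a : ℝ) := by
  have h1 := P.delta_one
  have hr := P.r_pos ha
  have hq := P.q_nonneg ha
  rw [sb_mul hr (P.th_bd ha) (Bd.C hq _) (Bd.X hq rn_one), sb_C, sb_X, thG, ← mul_assoc, ← map_mul]
  have : (δ : ℝ) ^ 2 * (1 / (δ : ℝ) ^ 2) = 1 := mul_one_div_cancel (by linarith)
  rw [this, map_one, one_mul]

/-- the split form of `f(x, Y)` near `x = a` -/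
lemma split_real : f.map (evf (PowerSeries.C (a : ℝ) + PowerSeries.X))
    = ∏ i, (X - C ((PowerSeries.C (a : ℝ) + PowerSeries.X) ^ k * sb (thG δ a) (rω ω i))) := by
  have hr := P.r_pos ha
  have hq := P.q_nonneg ha
  have hθ := P.th_bd ha
  -- the identity over the reals
  have h1 := congrArg (Polynomial.map (PowerSeries.map (Int.castRingHom ℝ))) P.split
  rw [Polynomial.map_map, Polynomial.map_prod] at h1
  simp only [Polynomial.map_sub, map_X, map_C] at h1
  obtain ⟨ζ', hζ'⟩ : ∃ ζ' : Conv (B / |(a : ℝ)|) hq,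
      ζ' = ⟨PowerSeries.C ((δ : ℝ) ^ 2) * PowerSeries.X, 1, P.ζbd ha⟩ := ⟨_, rfl⟩
  obtain ⟨ω', hω'⟩ : ∃ ω' : Fin m → Conv (B / |(a : ℝ)|) hq,
      ω' = fun i => ⟨rω ω i, B, P.ωbd ha i⟩ := ⟨_, rfl⟩
  have hcomp : ∀ {S S' : Type} [CommRing S] [CommRing S'] (φ : S →+* S') (z : S),
      φ.comp (evf z) = evf (φ z) := by
    intro S S' _ _ φ z
    apply Polynomial.ringHom_ext'
    · exact RingHom.ext_int _ _
    · simp
  have h2 : (hmgk k m f).map (evf ζ') = ∏ i, (X - C (ω' i)) := by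
    apply Polynomial.map_injective (Conv (B / |(a : ℝ)|) hq).subtype Subtype.val_injective
    rw [Polynomial.map_map, Polynomial.map_prod, hcomp]
    simp only [Polynomial.map_sub, map_X, map_C]
    rw [hcomp] at h1
    have e1 : (Conv (B / |(a : ℝ)|) hq).subtype ζ'
        = PowerSeries.map (Int.castRingHom ℝ) (PowerSeries.C (δ ^ 2) * PowerSeries.X) := by
      rw [hζ', map_mul, PowerSeries.map_C, PowerSeries.map_X]
      simp
    rw [e1, h1]
    apply Finset.prod_congr rfl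
    intro i _
    rw [hω']
    rfl
  have h3 := congrArg (Polynomial.map (sbh hr hq hθ)) h2
  rw [Polynomial.map_map, Polynomial.map_prod, hcomp] at h3
  simp only [Polynomial.map_sub, map_X, map_C] at h3
  have e2 : sbh hr hq hθ ζ' = invX (a : ℝ) := by
    rw [hζ']; exact P.sb_ζ ha
  have e3 : ∀ i, sbh hr hq hθ (ω' i) = sb (thG δ a) (rω ω i) := by
    intro i; rw [hω']; rfl
  rw [e2] at h3
  simp only [e3] at h3
  exact split_of_hmgk P.hT (mul_invX (a : ℝ) (P.a_ne ha)) _ h3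

lemma split_at : (f.map (evf a)).map (Int.castRingHom ℝ) = ∏ i, (X - C (βW k δ a ω i)) := by
  have h1 := congrArg (Polynomial.map (PowerSeries.constantCoeff (R := ℝ))) (P.split_real ha)
  rw [Polynomial.map_map, Polynomial.map_prod] at h1
  simp only [Polynomial.map_sub, map_X, Polynomial.map_C] at h1
  rw [Polynomial.map_map]
  have h2 : (PowerSeries.constantCoeff (R := ℝ)).comp
      (evf (PowerSeries.C (a : ℝ) + PowerSeries.X)) = (Int.castRingHom ℝ).comp (evf a) := by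
    apply Polynomial.ringHom_ext'
    · exact RingHom.ext_int _ _
    · simp
  rw [← h2, h1]
  apply Finset.prod_congr rfl
  intro i _
  congr 2
  rw [map_mul, map_pow, map_add, PowerSeries.constantCoeff_C, PowerSeries.constantCoeff_X, add_zero]
  rfl

/-- the discriminant does not vanish -/
lemma evR_ne : evf (a : ℝ) (nrm f m (derivative f)) ≠ 0 := by
  intro h0
  have hB := P.hB
  have h1 := abs_root_le P.hR (by linarith : (1 : ℝ) ≤ B) P.hRB h0
  have := P.a_ge ha
  nlinarith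

lemma β_inj : Function.Injective (βW k δ a ω) := by
  classical
  intro i j hij
  by_contra hne
  have hf := P.split_at ha
  have hcomp : (Int.castRingHom ℝ).comp (evf a) = evf (a : ℝ) := by
    apply Polynomial.ringHom_ext'
    · exact RingHom.ext_int _ _
    · simp
  rw [Polynomial.map_map, hcomp] at hf
  have h0 : eval₂ (evf (a : ℝ)) (βW k δ a ω i) f = 0 := by
    rw [← eval_map, hf, eval_prod]
    apply Finset.prod_eq_zero (Finset.mem_univ i)
    simp
  have h1 : eval₂ (evf (a : ℝ)) (βW k δ a ω i) (derivative f) = 0 := by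
    rw [← eval_map, ← derivative_map, hf, derivative_prod_finset, eval_finsetSum]
    apply Finset.sum_eq_zero
    intro l _
    rw [eval_mul, eval_prod]
    by_cases hl : l = i
    · rw [Finset.prod_eq_zero (Finset.mem_erase.2 ⟨(show j ≠ l by rw [hl]; exact fun h => hne h.symm),
        Finset.mem_univ j⟩), zero_mul]
      rw [eval_sub, eval_X, eval_C, hij, sub_self]
    · rw [Finset.prod_eq_zero (Finset.mem_erase.2 ⟨(show i ≠ l from fun h => hl h.symm),
        Finset.mem_univ i⟩), zero_mul]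
      rw [eval_sub, eval_X, eval_C, sub_self]
  have h2 := dvd_nrm (evf (a : ℝ)) (βW k δ a ω i) f m (by have := P.hm; omega) P.hf P.hfd h0
    (derivative f)
  rw [h1, zero_dvd_iff] at h2
  exact P.evR_ne ha h2

lemma β_le (i : Fin m) : |βW k δ a ω i| ≤ |(a : ℝ)| ^ (k + 1) := by
  have hr := P.r_pos ha
  have hq := P.q_nonneg ha
  have hθ := P.th_bd ha
  have h2 := sb_coeff_le hr hθ (P.ωbd ha i) 0
  rw [pow_zero, div_one, PowerSeries.coeff_zero_eq_constantCoeff_apply] at h2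
  unfold βW
  rw [abs_mul, abs_pow, pow_succ]
  exact mul_le_mul_of_nonneg_left (h2.trans (P.B_le ha)) (by positivity)

lemma root_bd (z : ℂ) (hz : evf z (f.map (evf a)) = 0) : ‖z‖ ≤ |(a : ℝ)| ^ (k + 1) := by
  have h1 := congrArg (Polynomial.map Complex.ofRealHom) (P.split_at ha)
  rw [Polynomial.map_map, Polynomial.map_prod] at h1
  simp only [Polynomial.map_sub, map_X, Polynomial.map_C] at h1
  have h2 : evf z (f.map (evf a))
      = ((f.map (evf a)).map (Complex.ofRealHom.comp (Int.castRingHom ℝ))).eval z := by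
    rw [eval_map, evf, coe_eval₂RingHom]
    congr 1
  rw [hz, h1, eval_prod] at h2
  obtain ⟨i, _, hi⟩ := Finset.prod_eq_zero_iff.1 h2.symm
  rw [eval_sub, eval_X, eval_C, sub_eq_zero] at hi
  rw [hi, Complex.ofRealHom_eq_coe, Complex.norm_real, Real.norm_eq_abs]
  exact P.β_le ha i

lemma exists_b [NumberField ↥(KW k δ a ω)] (i : Fin m) : ∃ b : 𝓞 ↥(KW k δ a ω),
    rE ↥(KW k δ a ω) (algebraMap _ ℝ) b = βW k δ a ω i ∧
      hs ↥(KW k δ a ω) b ≤ |(a : ℝ)| ^ (k + 1) := by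
  obtain ⟨x, hx⟩ : ∃ x : ↥(KW k δ a ω), (x : ℝ) = βW k δ a ω i :=
    ⟨⟨βW k δ a ω i, IntermediateField.subset_adjoin ℚ _ ⟨i, rfl⟩⟩, rfl⟩
  have hroot : evf (βW k δ a ω i) (f.map (evf a)) = 0 := by
    have h1 := P.split_at ha
    have h2 : evf (βW k δ a ω i) (f.map (evf a))
        = ((f.map (evf a)).map (Int.castRingHom ℝ)).eval (βW k δ a ω i) := by
      rw [eval_map, evf, coe_eval₂RingHom]
    rw [h2, h1, eval_prod]
    apply Finset.prod_eq_zero (Finset.mem_univ i)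
    simp
  have hroot' : evf x (f.map (evf a)) = 0 := by
    have h3 := map_evf (algebraMap ↥(KW k δ a ω) ℝ) x (f.map (evf a))
    have h4 : algebraMap ↥(KW k δ a ω) ℝ x = βW k δ a ω i := hx
    rw [h4, hroot] at h3
    exact (algebraMap ↥(KW k δ a ω) ℝ).injective (by rw [h3, map_zero])
  have hint : IsIntegral ℤ x := ⟨f.map (evf a), (P.g_monic (a := a)).1, hroot'⟩
  obtain ⟨α, hα⟩ : ∃ α : 𝓞 ↥(KW k δ a ω), algebraMap (𝓞 ↥(KW k δ a ω)) _ α = x := ⟨⟨x, hint⟩, rfl⟩
  refine ⟨α, ?_, ?_⟩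
  · rw [rE, RingHom.comp_apply, hα]; exact hx
  · have hpos : 0 ≤ |(a : ℝ)| ^ (k + 1) := by positivity
    rw [hs_apply, house_eq_sup', hα]
    have h3 : univ.sup' univ_nonempty (fun φ : ↥(KW k δ a ω) →+* ℂ ↦ ‖φ x‖₊)
        ≤ (|(a : ℝ)| ^ (k + 1)).toNNReal := by
      apply Finset.sup'_le
      intro φ _
      rw [← NNReal.coe_le_coe, Real.coe_toNNReal _ hpos, coe_nnnorm]
      apply P.root_bd ha
      rw [← map_evf, hroot', map_zero]
    rw [← NNReal.coe_le_coe, Real.coe_toNNReal _ hpos] at h3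
    exact h3

/-- the real series of the resolvent at infinity and its value -/
lemma sb_sum_β (γ : Fin m → ℝ) :
    sb (thG δ a) (∑ i, PowerSeries.C (γ i) * rω ω i) = ∑ i, PowerSeries.C (γ i) * sb (thG δ a) (rω ω i) := by
  have hr := P.r_pos ha
  have hq := P.q_nonneg ha
  have hθ := P.th_bd ha
  rw [sb_sum hr hq hθ univ _ (fun i => rn (γ i) * B)
    (fun i _ => (Bd.C hq _).mul hq (P.ωbd ha i))]
  apply Finset.sum_congr rfl
  intro i _
  rw [sb_mul hr hθ (Bd.C hq _) (P.ωbd ha i), sb_C]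

lemma val_sum (γ : Fin m → ℝ) :
    (a : ℝ) ^ k * PowerSeries.constantCoeff (sb (thG δ a) (∑ i, PowerSeries.C (γ i) * rω ω i))
      = ∑ i, γ i * βW k δ a ω i := by
  rw [P.sb_sum_β ha, map_sum, Finset.mul_sum]
  apply Finset.sum_congr rfl
  intro i _
  rw [map_mul, PowerSeries.constantCoeff_C, βW]
  ring

end BrW

end Pool.Agent.K1H89.TS
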