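import Pool.Agent.K1H89.TS.H1

/-!
Weighted degrees and heights of monic divisors of the resolvent.
-/

open Polynomial Finset

namespace Pool.Agent.K1H89.TS

open Pool.Agent.H322R2 Pool.Agent.W257 Pool.Agent.W63.SHt

theorem root_lek (k m : ℕ) (hm : 1 ≤ m) (f : ℤ[X][X]) (hf : f.Monic) (hd : f.natDegree = m)
    (hdeg : ∀ j, (f.coeff j).natDegree ≤ k * (m - j)) (h : ℝ) (hh : 1 ≤ h) (hpn : pn (pn zn) f ≤ h)
    (z : ℂ) (hz : 1 ≤ ‖z‖) (w : ℂ) (hw : (f.map (evf z)).IsRoot w) : ‖w‖ ≤ h * ‖z‖ ^ k := by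
  by_contra hcon
  push Not at hcon
  obtain ⟨Z, hZ⟩ : ∃ Z, Z = ‖z‖ ^ k := ⟨_, rfl⟩
  rw [← hZ] at hcon
  have hZ1 : 1 ≤ Z := by rw [hZ]; exact one_le_pow₀ hz
  have hZ0 : 0 < Z := by linarith
  set u := ‖w‖ / Z with hu
  have hwu : ‖w‖ = u * Z := by rw [hu]; field_simp
  have hu1 : h < u := by rw [hu, lt_div_iff₀ hZ0]; exact hcon
  have h1 : (∑ j ∈ range m, evf z (f.coeff j) * w ^ j) + w ^ m = 0 := by
    have h2 : (f.map (evf z)).eval w = 0 := hw
    rw [eval_map, eval₂_eq_sum_range' (evf z) (n := m + 1) (by omega), Finset.sum_range_succ] at h2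
    have h3 : f.coeff m = 1 := by rw [← hd]; exact hf
    rw [h3, map_one, one_mul] at h2
    exact h2
  have h2 : ‖w‖ ^ m ≤ ∑ j ∈ range m, pn zn (f.coeff j) * Z ^ (m - j) * ‖w‖ ^ j := by
    have h3 : w ^ m = -∑ j ∈ range m, evf z (f.coeff j) * w ^ j := by linear_combination h1
    rw [← norm_pow, h3, norm_neg]
    refine (norm_sum_le _ _).trans (Finset.sum_le_sum fun j _ => ?_)
    rw [norm_mul, norm_pow]
    apply mul_le_mul_of_nonneg_right _ (by positivity)
    rw [hZ, ← pow_mul]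
    exact evf_le _ _ (hdeg j) z hz
  have h3 : u ^ m ≤ ∑ j ∈ range m, pn zn (f.coeff j) * u ^ j := by
    have h4 : u ^ m * Z ^ m ≤ (∑ j ∈ range m, pn zn (f.coeff j) * u ^ j) * Z ^ m := by
      rw [← mul_pow, ← hwu, Finset.sum_mul]
      refine h2.trans (le_of_eq (Finset.sum_congr rfl fun j hj => ?_))
      have hj' : j < m := Finset.mem_range.1 hj
      rw [hwu, mul_pow]
      have : Z ^ m = Z ^ (m - j) * Z ^ j := by
        rw [← pow_add]; congr 1; omega
      rw [this]; ring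
    exact le_of_mul_le_mul_right h4 (by positivity)
  have hu0 : 1 ≤ u := by linarith
  have h4 : ∑ j ∈ range m, pn zn (f.coeff j) * u ^ j
      ≤ (∑ j ∈ range m, pn zn (f.coeff j)) * u ^ (m - 1) := by
    rw [Finset.sum_mul]
    refine Finset.sum_le_sum fun j hj => ?_
    apply mul_le_mul_of_nonneg_left _ (apply_nonneg _ _)
    apply pow_le_pow_right₀ hu0
    have := Finset.mem_range.1 hj
    omega
  have h5 : ∑ j ∈ range m, pn zn (f.coeff j) ≤ h - 1 := by
    rw [pn_eq_range (pn zn) f (n := m + 1) (by omega), Finset.sum_range_succ] at hpn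
    have h6 : f.coeff m = 1 := by rw [← hd]; exact hf
    rw [h6, pn_one, zn_apply] at hpn
    norm_num at hpn
    linarith
  have h6 : u ^ m = u * u ^ (m - 1) := by
    rw [← pow_succ']; congr 1; omega
  have h7 : 0 < u ^ (m - 1) := by positivity
  have h8 : u * u ^ (m - 1) ≤ (h - 1) * u ^ (m - 1) := by
    rw [← h6]
    exact h3.trans (h4.trans (mul_le_mul_of_nonneg_right h5 h7.le))
  have h9 := le_of_mul_le_mul_right h8 h7
  linarith

/-- degree and height of monic divisors of the resolvent -/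
theorem htk (k m : ℕ) (g : ℤ[X]) (f F F₁ : ℤ[X][X]) (h b : ℝ) (hm : 1 ≤ m) (hg : g.Monic)
    (hgd : g.natDegree = m) (hf : f.Monic) (hfd : f.natDegree = m)
    (hfdeg : ∀ j, (f.coeff j).natDegree ≤ k * (m - j)) (hh : 1 ≤ h) (hpn : pn (pn zn) f ≤ h)
    (hb : 1 ≤ b) (hgb : ∀ z : ℂ, evf z g = 0 → ‖z‖ ≤ b) (hres : IsRes m g f F)
    (hF₁ : F₁.Monic) (hdvd : F₁ ∣ F) :
    (∀ j, (F₁.coeff j).natDegree ≤ k * (F₁.natDegree - j)) ∧
      pn (pn zn) F₁ ≤ (k * m.factorial + 1) * (1 + m * b * h) ^ m.factorial := by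
  obtain ⟨hF, hFd, hres⟩ := hres
  set N := m.factorial with hN
  set r := F₁.natDegree with hr
  have hrN : r ≤ N := by
    rw [← hFd]
    exact natDegree_le_of_dvd hdvd hF.ne_zero
  have key : ∀ z : ℂ, 1 ≤ ‖z‖ → ∀ j, ‖evf z (F₁.coeff j)‖ ≤
      (r.choose j * (m * b * h) ^ (r - j)) * ‖z‖ ^ (k * (r - j)) := by
    intro z hz j
    obtain ⟨β, hβ⟩ := exists_fin_roots (g.map (Int.castRingHom ℂ)) m (hg.map _)
      (by rw [hg.natDegree_map, hgd])
    obtain ⟨φ, hφ⟩ := exists_fin_roots (f.map (evf z)) m (hf.map _)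
      (by rw [hf.natDegree_map, hfd])
    have h1 := hres ℂ z β φ hβ hφ
    have hβb : ∀ i, ‖β i‖ ≤ b := by
      intro i
      apply hgb
      have h2 : (g.map (Int.castRingHom ℂ)).eval (β i) = 0 := by
        rw [hβ, eval_prod]
        apply Finset.prod_eq_zero (Finset.mem_univ i)
        simp
      rw [eval_map] at h2
      exact h2
    have hφb : ∀ i, ‖φ i‖ ≤ h * ‖z‖ ^ k := by
      intro i
      apply root_lek k m hm f hf hfd hfdeg h hh hpn z hz
      rw [IsRoot.def, hφ, eval_prod]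
      apply Finset.prod_eq_zero (Finset.mem_univ i)
      simp
    have hz0 : 0 < ‖z‖ := by linarith
    have h2 := coeff_le_of_roots_le (p := F₁) (f := evf z) (B := m * b * h * ‖z‖ ^ k) j hF₁
      (IsAlgClosed.splits _) (by
        intro w hw
        have hw' : w ∈ (F.map (evf z)).roots := by
          rw [mem_roots ((hF₁.map _).ne_zero)] at hw
          rw [mem_roots ((hF.map _).ne_zero)]
          exact hw.dvd (Polynomial.map_dvd _ hdvd)
        rw [h1, mem_roots (monic_prod_of_monic _ _ fun σ _ => monic_X_sub_C _).ne_zero,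
          IsRoot.def, eval_prod, Finset.prod_eq_zero_iff] at hw'
        obtain ⟨σ, _, hσ⟩ := hw'
        rw [eval_sub, eval_X, eval_C, sub_eq_zero] at hσ
        rw [hσ]
        refine (norm_sum_le _ _).trans ?_
        have h3 : ∀ i ∈ (Finset.univ : Finset (Fin m)), ‖β i * φ (σ i)‖ ≤ b * (h * ‖z‖ ^ k) := by
          intro i _
          rw [norm_mul]
          exact mul_le_mul (hβb i) (hφb _) (norm_nonneg _) (by linarith)
        refine (Finset.sum_le_sum h3).trans (le_of_eq ?_)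
        simp
        ring)
    rw [coeff_map, ← hr] at h2
    refine h2.trans (le_of_eq ?_)
    rw [mul_pow, ← pow_mul]; ring
  have key2 : ∀ j, (F₁.coeff j).natDegree ≤ k * (r - j) ∧
      ∀ i, |(((F₁.coeff j).coeff i : ℤ) : ℝ)| ≤ r.choose j * (m * b * h) ^ (r - j) := fun j =>
    natDegree_le_of_growth _ _ _ fun z hz => key z hz j
  refine ⟨fun j => (key2 j).1, ?_⟩
  have hpos : (0 : ℝ) ≤ m * b * h := by positivity
  have hfin : pn (pn zn) F₁ ≤ (k * r + 1) * (1 + m * b * h) ^ r := by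
    rw [pn_eq_range (pn zn) F₁ (n := r + 1) (by omega)]
    have h1 : ∀ j ∈ range (r + 1), pn zn (F₁.coeff j) ≤
        (k * r + 1) * ((1 : ℝ) ^ j * (m * b * h) ^ (r - j) * r.choose j) := by
      intro j _
      rw [pn_eq_range zn (F₁.coeff j) (n := k * r + 1) (by
        have := (key2 j).1
        have h2 : k * (r - j) ≤ k * r := Nat.mul_le_mul_left _ (Nat.sub_le _ _)
        omega)]
      refine (Finset.sum_le_card_nsmul _ _ _ fun i _ => ((key2 j).2 i)).trans (le_of_eq ?_)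
      rw [Finset.card_range, nsmul_eq_mul]
      push_cast
      ring
    refine (Finset.sum_le_sum h1).trans (le_of_eq ?_)
    rw [← Finset.mul_sum, add_pow]
  refine hfin.trans ?_
  have h2 : (k : ℝ) * r ≤ k * N := by
    have : (r : ℝ) ≤ N := by exact_mod_cast hrN
    exact mul_le_mul_of_nonneg_left this (Nat.cast_nonneg _)
  have h3 : (1 + m * b * h) ^ r ≤ (1 + m * b * h) ^ N :=
    pow_le_pow_right₀ (by linarith) hrN
  exact mul_le_mul (by linarith) h3 (by positivity) (by positivity)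

end Pool.Agent.K1H89.TS
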