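import Pool.Agent.K1H89.TS.H1
import Pool.Agent.W803.ESGFactor

/-!
Weighted versions: the irreducible factor of the resolvent vanishing on a branch at infinity, and
its degree.
-/

open Polynomial Finset

namespace Pool.Agent.K1H89.TS

open Pool.Agent.H322R2 Pool.Agent.W257 Pool.Agent.W803.ESGFactor

theorem factk (k m : ℕ) (g : ℤ[X]) (f F : ℤ[X][X]) (β : Fin m → ℝ) (δ : ℤ)
    (ω : Fin m → PowerSeries ℤ) (hTD : WD k m f)
    (hg : g.map (Int.castRingHom ℝ) = ∏ i, (X - C (β i))) (hδ : δ ≠ 0)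
    (hω : (hmgk k m f).map (evf (PowerSeries.C (δ ^ 2) * PowerSeries.X)) = ∏ i, (X - C (ω i)))
    (hres : IsRes m g f F) (hTD1 : ∀ F₁ : ℤ[X][X], F₁.Monic → F₁ ∣ F → WD k F₁.natDegree F₁) :
    ∃ F₁ : ℤ[X][X], F₁.Monic ∧ Prime F₁ ∧ F₁ ∣ F ∧
      ev (PowerSeries.C ((δ : ℝ) ^ 2) * PowerSeries.X)
        (∑ i, PowerSeries.C (β i) * PowerSeries.map (Int.castRingHom ℝ) (ω i))
        (hmgk k F₁.natDegree F₁) = 0 := by
  set K := FractionRing (PowerSeries ℝ) with hK
  set ι : PowerSeries ℝ →+* K := algebraMap (PowerSeries ℝ) K with hι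
  have hιinj : Function.Injective ι := IsFractionRing.injective (PowerSeries ℝ) K
  set ζ₀ : PowerSeries ℝ := PowerSeries.C ((δ : ℝ) ^ 2) * PowerSeries.X with hζ₀
  have hζ₀0 : ζ₀ ≠ 0 := by
    apply mul_ne_zero
    · intro h
      have h1 : ((δ : ℝ) ^ 2) = 0 := by
        apply PowerSeries.C_injective
        rw [h, map_zero]
      exact hδ (by exact_mod_cast pow_eq_zero_iff (two_ne_zero) |>.mp h1)
    · exact PowerSeries.X_ne_zero
  have hζ0 : ι ζ₀ ≠ 0 := fun h => hζ₀0 (hιinj (by rw [h, map_zero]))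
  set x : K := (ι ζ₀)⁻¹ with hx
  have hx0 : x ≠ 0 := inv_ne_zero hζ0
  have hxz : x * ι ζ₀ = 1 := inv_mul_cancel₀ hζ0
  set θ : PowerSeries ℤ →+* K := ι.comp (PowerSeries.map (Int.castRingHom ℝ)) with hθ
  have hθζ : θ (PowerSeries.C (δ ^ 2) * PowerSeries.X) = ι ζ₀ := by
    rw [hθ, RingHom.comp_apply, map_mul, PowerSeries.map_C, PowerSeries.map_X]
    simp [hζ₀]
  have h1 : (hmgk k m f).map (evf (ι ζ₀)) = ∏ i, (X - C (θ (ω i))) := by
    have := congrArg (Polynomial.map θ) hω
    rw [Polynomial.map_map, comp_evf, hθζ, Polynomial.map_prod] at this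
    rw [this]
    apply Finset.prod_congr rfl
    intro i _
    simp
  have h2 := split_of_hmgk hTD hxz (fun i => θ (ω i)) h1
  have h3 : g.map (Int.castRingHom K) = ∏ i, (X - C (ι (PowerSeries.C (β i)))) := by
    have := congrArg (Polynomial.map (ι.comp (PowerSeries.C (R := ℝ)))) hg
    rw [Polynomial.map_map, Polynomial.map_prod] at this
    rw [show Int.castRingHom K = (ι.comp (PowerSeries.C (R := ℝ))).comp (Int.castRingHom ℝ) from
      RingHom.ext_int _ _, this]
    apply Finset.prod_congr rfl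
    intro i _
    simp
  have h4 := hres.2.2 K x _ _ h3 h2
  set w : PowerSeries ℝ := ∑ i, PowerSeries.C (β i) * PowerSeries.map (Int.castRingHom ℝ) (ω i)
    with hw
  have h5 : ∑ i, ι (PowerSeries.C (β i)) * (x ^ k * θ (ω ((1 : Equiv.Perm (Fin m)) i)))
      = x ^ k * ι w := by
    rw [hw, map_sum, Finset.mul_sum]
    apply Finset.sum_congr rfl
    intro i _
    rw [map_mul, hθ, RingHom.comp_apply, Equiv.Perm.one_apply]
    ring
  have h6 : ev x (x ^ k * ι w) F = 0 := by
    rw [ev_apply, ← eval_map, h4, eval_prod]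
    apply Finset.prod_eq_zero (Finset.mem_univ (1 : Equiv.Perm (Fin m)))
    rw [eval_sub, eval_X, eval_C, ← h5, sub_self]
  obtain ⟨F₁, a1, a2, a3, a4⟩ := exists_monic_prime x (x ^ k * ι w) hres.1 h6
  refine ⟨F₁, a1, a2, a3, ?_⟩
  have h7 := ev_hmgk (ι w) hxz (hTD1 F₁ a1 a3)
  rw [a4] at h7
  have h8 : ev (ι ζ₀) (ι w) (hmgk k F₁.natDegree F₁) = 0 := by
    rcases mul_eq_zero.mp h7.symm with h | h
    · exact absurd h (pow_ne_zero _ hx0)
    · exact h
  apply hιinj
  rw [map_ev, h8, map_zero]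

theorem cardk (k m : ℕ) (g : ℤ[X]) (F₁ : ℤ[X][X]) (β : Fin m → ℝ) (δ : ℤ)
    (ω : Fin m → PowerSeries ℤ) (hg : g.Monic)
    (hsplit : g.map (Int.castRingHom ℝ) = ∏ i, (X - C (β i))) (hβ : Function.Injective β)
    (hF₁ : F₁.Monic)
    (hperm : ∀ π : Equiv.Perm (Fin m),
      ∑ i, PowerSeries.C (β (π i)) * PowerSeries.map (Int.castRingHom ℝ) (ω i)
        = ∑ i, PowerSeries.C (β i) * PowerSeries.map (Int.castRingHom ℝ) (ω i) → π = 1)
    (hev : ev (PowerSeries.C ((δ : ℝ) ^ 2) * PowerSeries.X)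
        (∑ i, PowerSeries.C (β i) * PowerSeries.map (Int.castRingHom ℝ) (ω i))
        (hmgk k F₁.natDegree F₁) = 0) :
    Module.finrank ℚ (IntermediateField.adjoin ℚ (Set.range β)) ≤ F₁.natDegree := by
  classical
  -- the rational polynomial
  set p : ℚ[X] := g.map (Int.castRingHom ℚ) with hp
  have hpm : p.Monic := hg.map _
  have hp0 : p ≠ 0 := hpm.ne_zero
  have hpR : p.map (algebraMap ℚ ℝ) = ∏ i, (X - C (β i)) := by
    rw [hp, Polynomial.map_map, ← hsplit]
    congr 1
  have hroot : ∀ x : ℝ, aeval x p = 0 ↔ ∃ i, β i = x := by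
    intro x
    rw [aeval_def, ← eval_map, hpR, eval_prod, Finset.prod_eq_zero_iff]
    constructor
    · rintro ⟨i, _, hi⟩
      rw [eval_sub, eval_X, eval_C, sub_eq_zero] at hi
      exact ⟨i, hi.symm⟩
    · rintro ⟨i, hi⟩
      refine ⟨i, mem_univ _, ?_⟩
      rw [eval_sub, eval_X, eval_C, hi, sub_self]
  have hrs : p.rootSet ℝ = Set.range β := by
    ext x
    rw [mem_rootSet, hroot]
    constructor
    · rintro ⟨_, i, hi⟩; exact ⟨i, hi⟩
    · rintro ⟨i, hi⟩; exact ⟨hp0, i, hi⟩
  have hSp : (p.map (algebraMap ℚ ℝ)).Splits := by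
    rw [hpR]
    exact Splits.prod fun i _ => Splits.X_sub_C _
  set K := IntermediateField.adjoin ℚ (Set.range β) with hK
  have hSF : p.IsSplittingField ℚ K := by
    have h := IntermediateField.adjoin_rootSet_isSplittingField hSp
    rw [hrs] at h
    exact h
  have hfin : FiniteDimensional ℚ K := IsSplittingField.finiteDimensional K p
  have hnorm : Normal ℚ K := Normal.of_isSplittingField p
  have hgal : IsGalois ℚ K := ⟨⟩
  rw [← IsGalois.card_aut_eq_finrank ℚ K]
  -- the roots in `K`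
  set b : Fin m → K := fun i => ⟨β i, IntermediateField.subset_adjoin _ _ ⟨i, rfl⟩⟩ with hb
  have hbv : ∀ i, (algebraMap K ℝ) (b i) = β i := fun i => rfl
  -- the permutation
  have hex : ∀ (s : K ≃ₐ[ℚ] K) (i : Fin m), ∃ j, β j = (algebraMap K ℝ) (s (b i)) := by
    intro s i
    rw [← hroot]
    have h1 : aeval (b i) p = 0 := by
      have h2 : (algebraMap K ℝ) (aeval (b i) p) = 0 := by
        rw [← aeval_algebraMap_apply, hbv, hroot]
        exact ⟨i, rfl⟩
      exact (map_eq_zero_iff _ (algebraMap K ℝ).injective).1 h2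
    rw [aeval_algebraMap_apply, aeval_algHom_apply, h1, map_zero, map_zero]
  choose π hπ using hex
  have hπinj : ∀ s, Function.Injective (π s) := by
    intro s i j hij
    have h1 : (algebraMap K ℝ) (s (b i)) = (algebraMap K ℝ) (s (b j)) := by
      rw [← hπ, ← hπ, hij]
    have h2 := (algebraMap K ℝ).injective h1
    have h3 := s.injective h2
    apply hβ
    rw [← hbv i, ← hbv j, h3]
  -- the power series
  set wK : PowerSeries K := ∑ i, PowerSeries.C (b i) * PowerSeries.map (Int.castRingHom K) (ω i)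
    with hwK
  set ws : (K ≃ₐ[ℚ] K) → PowerSeries K := fun s =>
    ∑ i, PowerSeries.C (s (b i)) * PowerSeries.map (Int.castRingHom K) (ω i) with hws
  have hmapω : ∀ (T : Type) [CommRing T] (φ : K →+* T) (i : Fin m),
      PowerSeries.map φ (PowerSeries.map (Int.castRingHom K) (ω i)) =
        PowerSeries.map (Int.castRingHom T) (ω i) := by
    intro T _ φ i
    ext n
    rw [PowerSeries.coeff_map, PowerSeries.coeff_map, PowerSeries.coeff_map]
    simp
  have hmapws : ∀ (s t : K ≃ₐ[ℚ] K),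
      PowerSeries.map (t : K →+* K) (ws s) = ws (t * s) := by
    intro s t
    rw [hws]
    simp only [map_sum, map_mul]
    refine sum_congr rfl fun i _ => ?_
    rw [hmapω, PowerSeries.map_C]
    rfl
  have hmapR : ∀ s : K ≃ₐ[ℚ] K, PowerSeries.map (algebraMap K ℝ) (ws s) =
      ∑ i, PowerSeries.C (β (π s i)) * PowerSeries.map (Int.castRingHom ℝ) (ω i) := by
    intro s
    rw [hws]
    simp only [map_sum, map_mul]
    refine sum_congr rfl fun i _ => ?_
    rw [hmapω, PowerSeries.map_C, hπ]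
  have hone : ws 1 = wK := rfl
  have hmapR1 : PowerSeries.map (algebraMap K ℝ) (ws 1) =
      ∑ i, PowerSeries.C (β i) * PowerSeries.map (Int.castRingHom ℝ) (ω i) := by
    rw [hws]
    simp only [map_sum, map_mul]
    refine sum_congr rfl fun i _ => ?_
    rw [hmapω, PowerSeries.map_C]
    rfl
  have hinjR : Function.Injective (PowerSeries.map (algebraMap K ℝ)) :=
    PowerSeries.map_injective _ (algebraMap K ℝ).injective
  -- the vanishing over `K`
  have hevK : ev (PowerSeries.C ((δ : K) ^ 2) * PowerSeries.X) (ws 1)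
      (hmgk k F₁.natDegree F₁) = 0 := by
    apply hinjR
    rw [map_ev, map_zero, hmapR1, map_mul, PowerSeries.map_C, PowerSeries.map_X]
    have : (algebraMap K ℝ) ((δ : K) ^ 2) = (δ : ℝ) ^ 2 := by
      rw [map_pow, map_intCast]
    rw [this]
    exact hev
  have hevs : ∀ s : K ≃ₐ[ℚ] K,
      ev (PowerSeries.C ((δ : K) ^ 2) * PowerSeries.X) (ws s) (hmgk k F₁.natDegree F₁) = 0 := by
    intro s
    have h1 := congrArg (PowerSeries.map (s : K →+* K)) hevK
    rw [map_ev, map_zero, hmapws, mul_one, map_mul, PowerSeries.map_C, PowerSeries.map_X] at h1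
    have : (s : K →+* K) ((δ : K) ^ 2) = (δ : K) ^ 2 := by
      rw [map_pow, map_intCast]
    rw [this] at h1
    exact h1
  -- injectivity
  have hwinj : Function.Injective ws := by
    intro s t hst
    have h1 := congrArg (PowerSeries.map ((t⁻¹ : K ≃ₐ[ℚ] K) : K →+* K)) hst
    rw [hmapws, hmapws, inv_mul_cancel] at h1
    set u : K ≃ₐ[ℚ] K := t⁻¹ * s with hu
    have h2 := congrArg (PowerSeries.map (algebraMap K ℝ)) h1
    rw [hmapR, hmapR1] at h2
    have hbij : Function.Bijective (π u) := Finite.injective_iff_bijective.1 (hπinj u)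
    have h3 := hperm (Equiv.ofBijective _ hbij) h2
    have h4 : ∀ i, u (b i) = b i := by
      intro i
      apply (algebraMap K ℝ).injective
      rw [← hπ, hbv]
      have h5 := congrArg (fun e : Equiv.Perm (Fin m) => e i) h3
      simp only [Equiv.ofBijective_apply, Equiv.Perm.coe_one, id_eq] at h5
      rw [h5]
    have h5 : (u : K →ₐ[ℚ] K) = AlgHom.id ℚ K := by
      apply IntermediateField.algHom_ext_of_eq_adjoin _ hK
      rintro x ⟨i, rfl⟩
      exact h4 i
    have h6 : u = 1 := by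
      ext x
      have := congrArg (fun f : K →ₐ[ℚ] K => f x) h5
      simp only [AlgHom.coe_id, id_eq] at this
      exact congrArg _ this
    rw [hu, inv_mul_eq_one] at h6
    exact h6.symm
  -- counting roots
  set P : (PowerSeries K)[X] :=
    (hmgk k F₁.natDegree F₁).map (evf (PowerSeries.C ((δ : K) ^ 2) * PowerSeries.X)) with hP
  have hPc : P.coeff F₁.natDegree = 1 := by
    rw [hP, coeff_map, coeff_hmgk_top hF₁ rfl, map_one]
  have hP0 : P ≠ 0 := by
    intro h
    rw [h, coeff_zero] at hPc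
    exact zero_ne_one hPc
  have hPd : P.natDegree ≤ F₁.natDegree :=
    natDegree_map_le.trans (natDegree_hmgk _ _ _)
  have hroots : ∀ s : K ≃ₐ[ℚ] K, ws s ∈ P.roots.toFinset := by
    intro s
    rw [Multiset.mem_toFinset, mem_roots hP0, IsRoot, hP, eval_map]
    exact hevs s
  have h1 : Nat.card (K ≃ₐ[ℚ] K) ≤ P.roots.toFinset.card := by
    rw [Nat.card_eq_fintype_card, ← Finset.card_univ]
    exact Finset.card_le_card_of_injOn ws (fun s _ => hroots s) (fun s _ t _ h => hwinj h)
  exact h1.trans ((Multiset.toFinset_card_le _).trans ((card_roots' P).trans hPd))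

end Pool.Agent.K1H89.TS
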