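import Pool.Agent.K1H89.TS.B1
import Pool.Agent.K1H89.TS.H2
import Pool.Agent.K1H89.TS.H3
import Pool.Agent.Y910.A.A5

/-!
Galois anchors in the totally split case: existence of the anchor.
-/

open Polynomial Finset NumberField IntermediateField

namespace Pool.Agent.K1H89.TS

open Pool.Agent.H322R2 Pool.Agent.W257 Pool.Agent.Y910.S Pool.Agent.Y910.A

/-- the field `K` has an anchor of size `A`, radius `B` and weight `k` -/
def AncW (R e k : ℕ) (B A : ℝ) (K : IntermediateField ℚ ℝ) : Prop :=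
  ∃ (_ : NumberField K) (S : Set ℝ) (h W : ℝ) (F : ℤ[X][X]) (a b : ℤ), Gen K S h ∧ 1 ≤ h ∧
    h ≤ A ^ e ∧ W ≤ A ^ e ∧ |(a : ℝ)| = A ∧
    Nonempty (AQ (hs K) (rE K (algebraMap K ℝ)) 1 k e B W F a b) ∧ F.Monic ∧ Prime F ∧
    1 ≤ F.natDegree ∧ F.natDegree ≤ R ∧ Module.finrank ℚ K ≤ F.natDegree ∧
    ∀ j, (F.coeff j).natDegree ≤ e

/-- the exponent of the anchor -/
def eA (k m : ℕ) : ℕ := (6 * k + 8) * m.factorial + (k + 1) * m ^ 2 + 1

namespace BrW

variable {k m : ℕ} {f : ℤ[X][X]} {B : ℝ} {δ : ℤ} {ω : Fin m → PowerSeries ℤ}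
  (P : BrW k m f B δ ω) {a : ℤ} (ha : B ^ 2 ≤ |(a : ℝ)|)

include P ha

theorem anchor {h : ℝ} (hh : 1 ≤ h) (hBm : (m : ℝ) * h + 1 ≤ B)
    (hBN : (k : ℝ) * m.factorial + 2 ≤ B)
    (hfh : pn (pn zn) f ≤ h) : AncW m.factorial (eA k m) k B |(a : ℝ)| (KW k δ a ω) := by
  classical
  obtain ⟨hg, hgd⟩ := P.g_monic (a := a)
  have hsplit := P.split_at ha
  have hinj := P.β_inj ha
  obtain ⟨hfin, -, hspan⟩ := Pool.Agent.W571.ESG.main_roots m (f.map (evf a)) (βW k δ a ω) hg hgd
    hsplit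
  have hnf : NumberField ↥(KW k δ a ω) :=
    { to_charZero := inferInstance, to_finiteDimensional := hfin }
  obtain ⟨c, hc⟩ := Pool.Agent.W402.ESG.main m (f.map (evf a)) (βW k δ a ω) hsplit
  obtain ⟨F, hF⟩ := Pool.Agent.W625.ESG.main m (f.map (evf a)) f hg hgd P.hf P.hfd
  have hB4 := P.hB
  have hm1 : (1 : ℝ) ≤ m := by exact_mod_cast P.hm
  have hk1 := P.hk
  obtain ⟨A, hA⟩ : ∃ A, A = |(a : ℝ)| := ⟨_, rfl⟩
  have hA16 : 16 ≤ A := by rw [hA]; exact P.a_ge ha
  have haB : B ^ 2 ≤ A := by rw [hA]; exact ha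
  have hA1 : 1 ≤ A := by linarith
  have hBA : B ≤ A := by rw [hA]; exact P.B_le ha
  obtain ⟨N, hN⟩ : ∃ N, N = m.factorial := ⟨_, rfl⟩
  have hN1 : 1 ≤ N := by rw [hN]; exact Nat.factorial_pos m
  rw [← hN] at hBN
  have hN1R : (1 : ℝ) ≤ N := by exact_mod_cast hN1
  have hk1R : (1 : ℝ) ≤ k := by exact_mod_cast hk1
  have hNA : (N : ℝ) ≤ A := by nlinarith
  have hmA : (m : ℝ) ≤ A := by nlinarith
  have hbb : 1 ≤ A ^ (k + 1) := one_le_pow₀ hA1
  -- divisors of the resolvent
  have hdiv : ∀ F₁ : ℤ[X][X], F₁.Monic → F₁ ∣ F →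
      (∀ j, (F₁.coeff j).natDegree ≤ k * (F₁.natDegree - j)) ∧
        pn (pn zn) F₁ ≤ A ^ ((k + 2) * N + 1) := by
    intro F₁ h1 h2
    obtain ⟨h3, h4⟩ := htk k m (f.map (evf a)) f F F₁ h (A ^ (k + 1)) P.hm hg hgd P.hf P.hfd
      P.hT.2 hh hfh hbb (by rw [hA]; exact P.root_bd ha) hF h1 h2
    refine ⟨h3, h4.trans ?_⟩
    rw [← hN]
    have e1 : 1 + (m : ℝ) * A ^ (k + 1) * h ≤ A ^ (k + 2) := by
      calc 1 + (m : ℝ) * A ^ (k + 1) * h ≤ A ^ (k + 1) + (m : ℝ) * A ^ (k + 1) * h := by linarith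
        _ = (m * h + 1) * A ^ (k + 1) := by ring
        _ ≤ A * A ^ (k + 1) := mul_le_mul_of_nonneg_right (hBm.trans hBA) (by positivity)
        _ = A ^ (k + 2) := by ring
    calc ((k : ℝ) * N + 1) * (1 + m * A ^ (k + 1) * h) ^ N ≤ A * (A ^ (k + 2)) ^ N := by
          apply mul_le_mul (by linarith) _ (by positivity) (by linarith)
          exact pow_le_pow_left₀ (by positivity) e1 N
      _ = A ^ ((k + 2) * N + 1) := by rw [← pow_mul]; ring
  have hTDd : ∀ F₁ : ℤ[X][X], F₁.Monic → F₁ ∣ F → WD k F₁.natDegree F₁ := fun F₁ h1 h2 =>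
    ⟨le_rfl, (hdiv F₁ h1 h2).1⟩
  obtain ⟨F₁, hF₁m, hF₁p, hF₁F, hF₁0⟩ := factk k m (f.map (evf a)) f F
    (βW k δ a ω) δ ω P.hT hsplit P.hδ P.split hF hTDd
  obtain ⟨r, hr⟩ : ∃ r, r = F₁.natDegree := ⟨_, rfl⟩
  have hrN : r ≤ N := by
    rw [hr, hN, ← hF.2.1]
    exact natDegree_le_of_dvd hF₁F hF.1.ne_zero
  have hr0 : 0 < r := by
    rw [hr]
    by_contra h0
    have h0' : F₁.natDegree = 0 := by omega
    have := Polynomial.eq_one_of_monic_natDegree_zero hF₁m h0'
    rw [this] at hF₁p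
    exact hF₁p.not_unit isUnit_one
  obtain ⟨hcd, hpn⟩ := hdiv F₁ hF₁m hF₁F
  have hcdN : ∀ j, (F₁.coeff j).natDegree ≤ k * N := by
    intro j
    refine (hcd j).trans (Nat.mul_le_mul_left _ ?_)
    omega
  have hval := P.val_sum ha
  -- size of `c`
  have hc' : ∑ i, βW k δ a ω i * βW k δ a ω i = c := by
    rw [hc]
    apply Finset.sum_congr rfl
    intro i _
    ring
  have hcA : |(c : ℝ)| ≤ A ^ (2 * k + 3) := by
    rw [hc, abs_of_nonneg (Finset.sum_nonneg fun i _ => sq_nonneg _)]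
    calc ∑ i, βW k δ a ω i ^ 2 ≤ ∑ _i : Fin m, (A ^ (k + 1)) ^ 2 := by
          apply Finset.sum_le_sum
          intro i _
          rw [← sq_abs]
          apply pow_le_pow_left₀ (abs_nonneg _)
          rw [hA]; exact P.β_le ha i
      _ = m * (A ^ (k + 1)) ^ 2 := by
          rw [Finset.sum_const, Finset.card_univ, Fintype.card_fin, nsmul_eq_mul]
      _ ≤ A * (A ^ (k + 1)) ^ 2 := mul_le_mul_of_nonneg_right hmA (by positivity)
      _ = _ := by rw [← pow_mul]; ring
  -- the real branch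
  have hrr := P.r_pos ha
  have hq := P.q_nonneg ha
  have hθ := P.th_bd ha
  obtain ⟨wR, hwR⟩ : ∃ wR : PowerSeries ℝ, wR = ∑ i, PowerSeries.C (βW k δ a ω i) * rω ω i :=
    ⟨_, rfl⟩
  have hwRbd : Bd rn (B / |(a : ℝ)|) wR (∑ i, rn (βW k δ a ω i) * B) := by
    rw [hwR]
    exact Bd.sum univ hq _ _ (fun i _ => (Bd.C hq _).mul hq (P.ωbd ha i))
  have hE0 : ev (PowerSeries.C ((δ : ℝ) ^ 2) * PowerSeries.X) wR (hmgk k r F₁) = 0 := by
    rw [hwR, hr]; exact hF₁0
  obtain ⟨x, hx⟩ : ∃ x : PowerSeries ℝ, x = PowerSeries.C (a : ℝ) + PowerSeries.X := ⟨_, rfl⟩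
  have hxinv : x * invX (a : ℝ) = 1 := by rw [hx]; exact mul_invX _ (P.a_ne ha)
  have hTDr : WD k r F₁ := by rw [hr]; exact ⟨le_rfl, hcd⟩
  have hEv : ev x (x ^ k * sb (thG δ a) wR) F₁ = 0 := by
    rw [ev_hmgk _ hxinv hTDr, ← P.sb_ζ ha, ← sb_ev hrr hq hθ (P.ζbd ha) hwRbd, hE0, sb_zero,
      mul_zero]
  have hcx : PowerSeries.constantCoeff x = (a : ℝ) := by rw [hx]; simp
  have hcc : PowerSeries.constantCoeff (x ^ k * sb (thG δ a) wR) = (c : ℝ) := by
    rw [map_mul, map_pow, hcx, hwR, hval, hc']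
  have hev0 : ev a c F₁ = 0 := by
    have h1 := congrArg PowerSeries.constantCoeff hEv
    rw [map_ev, map_zero, hcx, hcc] at h1
    have h3 := map_ev (Int.castRingHom ℝ) a c F₁
    simp only [eq_intCast] at h3
    rw [← h3] at h1
    exact_mod_cast h1
  -- nonvanishing of the derivative
  have hDne : ev a c (derivative F₁) ≠ 0 := by
    intro hD0
    obtain ⟨Q, hQ⟩ := hF₁F
    have h1 : ev a c (derivative F) = 0 := by
      rw [hQ, derivative_mul, map_add, map_mul, map_mul, hD0, hev0, zero_mul, zero_mul, add_zero]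
    have h2 : ev (a : ℝ) (c : ℝ) (derivative F) = 0 := by
      have h3 := map_ev (Int.castRingHom ℝ) a c (derivative F)
      simp only [eq_intCast] at h3
      rw [← h3, h1]; simp
    have h3 : f.map (evf (a : ℝ)) = ∏ i, (X - C (βW k δ a ω i)) := by
      rw [← hsplit, Polynomial.map_map]
      congr 1
      apply Polynomial.ringHom_ext'
      · exact RingHom.ext_int _ _
      · simp
    have h4 := hF.2.2 ℝ (a : ℝ) (βW k δ a ω) (βW k δ a ω) hsplit h3
    have h5 : ev (a : ℝ) (c : ℝ) (derivative F) = (derivative (F.map (evf (a : ℝ)))).eval (c : ℝ) := by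
      rw [derivative_map, eval_map, ev_apply]
    rw [h5, h4, derivative_prod_finset, eval_finsetSum, Finset.sum_eq_single 1] at h2
    · rw [eval_mul, eval_prod, derivative_sub, derivative_X, derivative_C, sub_zero, eval_one,
        mul_one] at h2
      obtain ⟨π, hπ, hπ0⟩ := Finset.prod_eq_zero_iff.1 h2
      rw [eval_sub, eval_X, eval_C, sub_eq_zero] at hπ0
      rw [Finset.mem_erase] at hπ
      apply hπ.1
      apply sum_sq_perm _ hinj
      rw [← hπ0, hc']
    · intro π _ hπ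
      rw [eval_mul, eval_prod]
      rw [Finset.prod_eq_zero (Finset.mem_erase.2 ⟨hπ.symm, Finset.mem_univ 1⟩), zero_mul]
      rw [eval_sub, eval_X, eval_C, sub_eq_zero, ← hc']
      apply Finset.sum_congr rfl
      intro i _
      rw [Equiv.Perm.one_apply]
    · intro h0; exact absurd (Finset.mem_univ _) h0
  -- size of the derivative
  have hDle : |((ev a c (derivative F₁) : ℤ) : ℝ)| ≤ A ^ ((6 * k + 8) * N) := by
    have h1 : (derivative F₁).natDegree ≤ r := by
      rw [hr]; exact (natDegree_derivative_le _).trans (Nat.sub_le _ _)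
    have h2 : ∀ j, ((derivative F₁).coeff j).natDegree ≤ k * N := by
      intro j
      rw [coeff_derivative]
      have h3 : ((j : ℤ[X]) + 1) = C ((j : ℤ) + 1) := by simp
      rw [h3]
      exact (natDegree_mul_C_le _ _).trans (hcdN _)
    have h3 := abs_ev_le (derivative F₁) r (k * N) h1 h2 a c (A ^ (2 * k + 3))
      (by rw [← hA]; exact hA1) (one_le_pow₀ hA1) hcA
    rw [← hA] at h3
    refine h3.trans ?_
    have h4 : pn (pn zn) (derivative F₁) ≤ A * A ^ ((k + 2) * N + 1) := by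
      refine (pn_derivative_le _ _).trans ?_
      rw [← hr]
      apply mul_le_mul _ hpn (apply_nonneg _ _) (by linarith)
      have : (r : ℝ) ≤ N := by exact_mod_cast hrN
      linarith
    calc pn (pn zn) (derivative F₁) * (A ^ (k * N) * (A ^ (2 * k + 3)) ^ r)
        ≤ (A * A ^ ((k + 2) * N + 1)) * (A ^ (k * N) * (A ^ (2 * k + 3)) ^ N) := by
          apply mul_le_mul h4 _ (by positivity) (by positivity)
          apply mul_le_mul_of_nonneg_left _ (by positivity)
          exact pow_le_pow_right₀ (one_le_pow₀ hA1) hrN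
      _ = A ^ (1 + ((k + 2) * N + 1) + (k * N + (2 * k + 3) * N)) := by rw [← pow_mul]; ring
      _ ≤ A ^ ((6 * k + 8) * N) := by
          apply pow_le_pow_right₀ hA1
          have e1 : (6 * k + 8) * N = (k + 2) * N + (k * N + (2 * k + 3) * N) + (2 * k * N + 3 * N) := by
            ring
          omega
  -- the degree of the field
  have hfinr : Module.finrank ℚ ↥(KW k δ a ω) ≤ F₁.natDegree := by
    apply cardk k m (f.map (evf a)) F₁ (βW k δ a ω) δ ω hg hsplit hinj hF₁m _ hF₁0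
    intro π hπ
    have h1 := hval (fun i => βW k δ a ω (π i))
    have h2 := hval (βW k δ a ω)
    have h3 : ∑ i, PowerSeries.C (βW k δ a ω (π i)) * rω ω i
        = ∑ i, PowerSeries.C (βW k δ a ω i) * rω ω i := hπ
    rw [h3, h2] at h1
    apply sum_sq_perm _ hinj
    rw [h1]
    apply Finset.sum_congr rfl
    intro i _
    ring
  -- the integers `b`
  have hbex := P.exists_b ha
  choose b hb1 hb2 using hbex
  have hp : (0 : ℝ) ≤ 1 / B := by have := P.B_pos; positivity
  have hN1' := hs_one ↥(KW k δ a ω)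
  -- the generating set
  have hgen : ∃ S : Set ℝ, Gen (KW k δ a ω) S (A ^ ((k + 1) * m ^ 2)) := by
    refine ⟨_, hspan, ?_⟩
    rintro s ⟨e, he, rfl⟩
    refine ⟨∏ i, b i ^ e i, ?_, ?_⟩
    · rw [map_prod]
      apply Finset.prod_congr rfl
      intro i _
      rw [map_pow, hb1]
    · refine (seminorm_prod_le _ hN1' _ _).trans ?_
      calc ∏ i, hs ↥(KW k δ a ω) (b i ^ e i) ≤ ∏ _i : Fin m, A ^ ((k + 1) * m) := by
            apply Finset.prod_le_prod (fun _ _ => apply_nonneg _ _)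
            intro i _
            refine (seminorm_pow_le _ hN1' _ _).trans ?_
            calc hs ↥(KW k δ a ω) (b i) ^ e i ≤ (A ^ (k + 1)) ^ e i := by
                  apply pow_le_pow_left₀ (apply_nonneg _ _)
                  rw [hA]; exact hb2 i
              _ = A ^ ((k + 1) * e i) := by rw [← pow_mul]
              _ ≤ A ^ ((k + 1) * m) := by
                  apply pow_le_pow_right₀ (by linarith)
                  exact Nat.mul_le_mul_left _ (he i).le
        _ = A ^ ((k + 1) * m ^ 2) := by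
            rw [Finset.prod_const, Finset.card_univ, Fintype.card_fin, ← pow_mul]; congr 1; ring
  obtain ⟨S, hS⟩ := hgen
  have heA1 : (k + 1) * m ^ 2 ≤ eA k m := by unfold eA; omega
  have heA2 : (6 * k + 8) * N ≤ eA k m := by unfold eA; rw [hN]; omega
  have heA3 : (k + 2) * N + 1 ≤ eA k m := by
    unfold eA
    rw [← hN]
    have : (k + 2) * N ≤ (6 * k + 8) * N := Nat.mul_le_mul_right _ (by omega)
    omega
  have heA4 : k * N ≤ eA k m := by
    refine le_trans ?_ heA3
    have : k * N ≤ (k + 2) * N := Nat.mul_le_mul_right _ (by omega)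
    omega
  have hBdA : ∀ {v : PowerSeries ℤ} {C : ℝ}, Bd zn (1 / B) v C →
      Bd (hs ↥(KW k δ a ω)) (1 / B) (PowerSeries.map (Int.castRingHom (𝓞 ↥(KW k δ a ω))) v) C := by
    intro v C hv K
    refine le_trans ?_ (hv K)
    apply Finset.sum_le_sum
    intro n _
    rw [PowerSeries.coeff_map, zn_apply]
    apply mul_le_mul_of_nonneg_right _ (pow_nonneg hp n)
    exact N_int_le _ hN1' _
  have hmapR : ∀ v : PowerSeries ℤ, PowerSeries.map (rE ↥(KW k δ a ω) (algebraMap _ ℝ))
      (PowerSeries.map (Int.castRingHom (𝓞 ↥(KW k δ a ω))) v)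
      = PowerSeries.map (Int.castRingHom ℝ) v := by
    intro v
    ext n
    rw [PowerSeries.coeff_map, PowerSeries.coeff_map, PowerSeries.coeff_map]
    simp
  have hζR : PowerSeries.map (Int.castRingHom ℝ) (PowerSeries.C (δ ^ 2) * PowerSeries.X)
      = PowerSeries.C ((δ : ℝ) ^ 2) * PowerSeries.X := by
    rw [map_mul, PowerSeries.map_C, PowerSeries.map_X]; simp
  have hwmap : PowerSeries.map (rE ↥(KW k δ a ω) (algebraMap _ ℝ))
      (∑ i, PowerSeries.C (b i) * PowerSeries.map (Int.castRingHom (𝓞 ↥(KW k δ a ω))) (ω i)) = wR := by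
    rw [map_sum, hwR]
    apply Finset.sum_congr rfl
    intro i _
    rw [map_mul, PowerSeries.map_C, hb1, hmapR]
    rfl
  have hBpos := P.B_pos
  rw [← hA]
  refine ⟨hnf, S, A ^ ((k + 1) * m ^ 2), A ^ ((k + 2) * N + 1), F₁, a, c, hS, one_le_pow₀ hA1,
    pow_le_pow_right₀ hA1 heA1, pow_le_pow_right₀ hA1 heA3, hA.symm, ⟨?_⟩, hF₁m, hF₁p, ?_, ?_, hfinr,
    fun j => (hcdN j).trans heA4⟩
  · exact
      { ωS := PowerSeries.map (Int.castRingHom (𝓞 ↥(KW k δ a ω)))
          (PowerSeries.C (δ ^ 2) * PowerSeries.X)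
        ωU := PowerSeries.C 1
        ωV := ∑ i, PowerSeries.C (b i) *
          PowerSeries.map (Int.castRingHom (𝓞 ↥(KW k δ a ω))) (ω i)
        Z := |(a : ℝ)|
        R := |(a : ℝ)| / 2
        θ := thG δ a
        S := PowerSeries.C (a : ℝ) + PowerSeries.X
        hp := le_rfl
        hq := P.hk
        hB := by linarith
        hW := one_le_pow₀ hA1
        hZ := pow_one _
        hZB := ha
        hR := by rw [← hA]; linarith
        hωS := hBdA P.bζ
        hωU := by
          refine (Bd.C hp (1 : 𝓞 ↥(KW k δ a ω))).mono ?_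
          linarith
        hωV := by
          refine (Bd.sum univ hp _ (fun _ => A ^ (k + 1) * B) (fun i _ =>
            ((Bd.C hp _).mul hp (hBdA (P.hω i))).mono ?_)).mono ?_
          · rw [hA]
            exact mul_le_mul_of_nonneg_right (hb2 i) (by linarith)
          · rw [Finset.sum_const, Finset.card_univ, Fintype.card_fin, nsmul_eq_mul]
            calc (m : ℝ) * (A ^ (k + 1) * B) ≤ A * (A ^ (k + 1) * A) := by
                  apply mul_le_mul hmA _ (by positivity) (by linarith)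
                  exact mul_le_mul_of_nonneg_left hBA (by positivity)
              _ = A ^ (k + 3) := by ring
              _ ≤ A ^ ((k + 2) * N + 1) := by
                  apply pow_le_pow_right₀ hA1
                  have : (k + 2) * 1 ≤ (k + 2) * N := Nat.mul_le_mul_left _ hN1
                  omega
        hθ := hθ
        hS := by
          have h5 := (Bd.C (N := rn) hrr.le (a : ℝ)).add hrr.le (Bd.X hrr.le rn_one)
          apply h5.mono
          rw [rn_apply, ← hA]
          nlinarith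
        hSθ := by
          rw [hmapR, hζR, P.sb_ζ ha]
          exact mul_invX _ (P.a_ne ha)
        hU := by
          rw [PowerSeries.map_C, map_one, sb_C, pow_one, map_one, mul_one]
        hV := by rw [hwmap, ← hx]; exact hcc
        hF := by rw [hwmap, ← hx]; exact hEv
        hD := hDne
        hDle := by
          rw [← hA]
          exact hDle.trans (pow_le_pow_right₀ hA1 heA2)
        hFn := hpn }
  · rw [← hr]; exact hr0
  · rw [← hr, ← hN]; exact hrN

end BrW

end Pool.Agent.K1H89.TS
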