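import Pool.Agent.H322R2.Ev

/-!
Substitutions `Y ↦ (p + s Y)/l` in bivariate polynomials, and elementary facts on rational roots.
-/

open Polynomial Finset

namespace Pool.Agent.K1H89.TS

open Pool.Agent.H322R2

/-- the substitution `Y ↦ (p + s Y)/l`, with denominators cleared -/
noncomputable def tr (n : ℕ) (l p : ℤ) (s : ℤ[X]) (G : ℤ[X][X]) : ℤ[X][X] :=
  ∑ j ∈ range (n + 1), C (G.coeff j * C (l ^ (n - j))) * (C (C p) + C s * X) ^ j

lemma ev_lin {S : Type*} [CommRing S] (x y w : S) {l p : ℤ} {s : ℤ[X]}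
    (hw : (l : S) * w = p + evf x s * y) : ev x y (C (C p) + C s * X) = (l : S) * w := by
  rw [map_add, map_mul, ev_C, ev_C, ev_X, evf_C, hw]

lemma ev_cl {S : Type*} [CommRing S] (x y : S) (l : ℤ) (q : ℤ[X]) (t : ℕ) :
    ev x y (C (q * C (l ^ t))) = evf x q * (l : S) ^ t := by
  rw [ev_C, map_mul, evf_C]
  push_cast
  rfl

lemma ev_tr {S : Type*} [CommRing S] (x y w : S) {n : ℕ} {l p : ℤ} {s : ℤ[X]} {G : ℤ[X][X]}
    (hG : G.natDegree ≤ n) (hw : (l : S) * w = p + evf x s * y) :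
    ev x y (tr n l p s G) = (l : S) ^ n * ev x w G := by
  rw [tr, map_sum, ev_apply x w G, eval₂_eq_sum_range' (evf x) (show G.natDegree < n + 1 by omega),
    Finset.mul_sum]
  apply Finset.sum_congr rfl
  intro j hj
  rw [Finset.mem_range] at hj
  rw [map_mul (ev x y), map_pow (ev x y), ev_lin x y w hw, ev_cl, mul_pow]
  have : (l : S) ^ n = (l : S) ^ (n - j) * (l : S) ^ j := by rw [← pow_add]; congr 1; omega
  rw [this]
  ring

lemma ev_derivative {S : Type*} [CommRing S] (x w : S) {n : ℕ} {G : ℤ[X][X]}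
    (hG : G.natDegree ≤ n) :
    ev x w (derivative G) = ∑ j ∈ range (n + 1), evf x (G.coeff j) * j * w ^ (j - 1) := by
  rw [derivative_apply, Polynomial.sum_over_range' G _ (n + 1) (by omega), map_sum]
  · apply Finset.sum_congr rfl
    intro j _
    rw [map_mul, map_pow, ev_C, ev_X, map_mul, map_natCast]
  · intro j; simp

lemma ev_tr_derivative {S : Type*} [CommRing S] (x y w : S) {n : ℕ} {l p : ℤ} {s : ℤ[X]}
    {G : ℤ[X][X]} (hG : G.natDegree ≤ n) (hw : (l : S) * w = p + evf x s * y) :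
    (l : S) * ev x y (derivative (tr n l p s G)) = (l : S) ^ n * evf x s * ev x w (derivative G) := by
  rw [ev_derivative x w hG, tr, derivative_sum, map_sum, Finset.mul_sum, Finset.mul_sum]
  apply Finset.sum_congr rfl
  intro j hj
  rw [Finset.mem_range] at hj
  rw [derivative_C_mul, derivative_pow, derivative_add, derivative_C, derivative_C_mul,
    derivative_X, zero_add, mul_one, map_mul (ev x y), map_mul (ev x y), map_mul (ev x y),
    map_pow (ev x y), ev_lin x y w hw, ev_cl]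
  have hnat : ev x y (C ((j : ℕ) : ℤ[X])) = (j : S) := by rw [ev_C, map_natCast]
  rw [hnat, ev_C]
  rcases Nat.eq_zero_or_pos j with rfl | hj0
  · simp
  · have : (l : S) ^ n = (l : S) ^ (n - j) * ((l : S) ^ (j - 1) * l) := by
      rw [← pow_succ, ← pow_add]; congr 1; omega
    rw [this, mul_pow]
    ring

lemma natDegree_tr {n : ℕ} {l p : ℤ} {s : ℤ[X]} {G : ℤ[X][X]} :
    (tr n l p s G).natDegree ≤ n := by
  rw [tr]
  apply natDegree_sum_le_of_forall_le
  intro j hj
  rw [Finset.mem_range] at hj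
  refine (natDegree_C_mul_le _ _).trans ?_
  refine natDegree_pow_le.trans ?_
  have h1 : (C (C p) + C s * X : ℤ[X][X]).natDegree ≤ 1 := by
    refine (natDegree_add_le _ _).trans (max_le ?_ ?_)
    · rw [natDegree_C]; omega
    · exact (natDegree_C_mul_le _ _).trans (natDegree_X_le)
  calc j * _ ≤ j * 1 := Nat.mul_le_mul_left _ h1
    _ ≤ n := by omega

/-- degrees of the coefficients of a product -/
lemma cdeg_mul {A B : ℤ[X][X]} {a b : ℕ} (hA : ∀ j, (A.coeff j).natDegree ≤ a)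
    (hB : ∀ j, (B.coeff j).natDegree ≤ b) (j : ℕ) : ((A * B).coeff j).natDegree ≤ a + b := by
  rw [coeff_mul]
  apply natDegree_sum_le_of_forall_le
  intro x _
  exact natDegree_mul_le.trans (Nat.add_le_add (hA _) (hB _))

lemma cdeg_pow {A : ℤ[X][X]} {a : ℕ} (hA : ∀ j, (A.coeff j).natDegree ≤ a) (n j : ℕ) :
    ((A ^ n).coeff j).natDegree ≤ n * a := by
  induction n generalizing j with
  | zero =>
    rw [pow_zero, coeff_one]
    split_ifs <;> simp
  | succ n ih =>
    rw [pow_succ]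
    refine (cdeg_mul ih hA j).trans ?_
    rw [add_mul, one_mul]

lemma cdeg_tr {n k e : ℕ} {l p : ℤ} {s : ℤ[X]} {G : ℤ[X][X]} (hG : ∀ j, (G.coeff j).natDegree ≤ k)
    (hs : s.natDegree ≤ e) (j : ℕ) : ((tr n l p s G).coeff j).natDegree ≤ k + n * e := by
  rw [tr, finsetSum_coeff]
  apply natDegree_sum_le_of_forall_le
  intro i hi
  rw [Finset.mem_range] at hi
  have h1 : ∀ j, ((C (C p) + C s * X : ℤ[X][X]).coeff j).natDegree ≤ e := by
    intro j
    rw [coeff_add, coeff_C_mul, coeff_C, coeff_X]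
    refine (natDegree_add_le _ _).trans (max_le ?_ ?_)
    · split_ifs <;> simp
    · split_ifs
      · rw [mul_one]; exact hs
      · simp
  rw [coeff_C_mul]
  refine natDegree_mul_le.trans ?_
  have h2 := cdeg_pow h1 i j
  have h3 : (G.coeff i * C (l ^ (n - i))).natDegree ≤ k := (natDegree_mul_C_le _ _).trans (hG i)
  have h4 : i * e ≤ n * e := Nat.mul_le_mul_right _ (by omega)
  omega

lemma pn_tr_le {n : ℕ} {l p : ℤ} {s : ℤ[X]} {G : ℤ[X][X]} {M : ℝ} (hn : G.natDegree ≤ n)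
    (hM : 1 ≤ M) (hl : |(l : ℝ)| ≤ M) (hp : |(p : ℝ)| + pn zn s ≤ M) :
    pn (pn zn) (tr n l p s G) ≤ pn (pn zn) G * M ^ n := by
  rw [tr, pn_eq_range (pn zn) G (show G.natDegree < n + 1 by omega), Finset.sum_mul]
  refine (seminorm_sum_le _ _ _).trans ?_
  apply Finset.sum_le_sum
  intro j hj
  rw [Finset.mem_range] at hj
  refine (map_mul_le_mul _ _ _).trans ?_
  have h1 : pn (pn zn) (C (G.coeff j * C (l ^ (n - j)))) ≤ pn zn (G.coeff j) * M ^ (n - j) := by
    rw [pn_C]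
    refine (map_mul_le_mul _ _ _).trans ?_
    apply mul_le_mul_of_nonneg_left _ (apply_nonneg _ _)
    rw [pn_C, zn_apply]
    push_cast
    rw [abs_pow]
    exact pow_le_pow_left₀ (abs_nonneg _) hl _
  have h2 : pn (pn zn) ((C (C p) + C s * X : ℤ[X][X]) ^ j) ≤ M ^ j := by
    have e0 : pn (pn zn) (1 : ℤ[X][X]) ≤ 1 := by rw [pn_one]; exact pnz_one
    refine (seminorm_pow_le _ e0 _ _).trans ?_
    apply pow_le_pow_left₀ (apply_nonneg _ _)
    refine (map_add_le_add _ _ _).trans (le_trans ?_ hp)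
    apply add_le_add
    · rw [pn_C, pn_C, zn_apply]
    · refine (map_mul_le_mul _ _ _).trans ?_
      rw [pn_C, pn_X]
      exact mul_le_of_le_one_right (apply_nonneg _ _) pnz_one
  have h3 : M ^ n = M ^ (n - j) * M ^ j := by rw [← pow_add]; congr 1; omega
  rw [h3, ← mul_assoc]
  exact mul_le_mul h1 h2 (apply_nonneg _ _) (mul_nonneg (apply_nonneg _ _) (by positivity))

/-! ### powers of `X` -/

lemma pn_X_pow_mul (t : ℕ) (q : ℤ[X]) : pn zn q ≤ pn zn (X ^ t * q) := by
  have h1 : (X ^ t * q).natDegree < t + (q.natDegree + 1) := by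
    have h2 := natDegree_mul_le (p := (X ^ t : ℤ[X])) (q := q)
    rw [natDegree_X_pow] at h2
    omega
  rw [pn_eq_range zn q (Nat.lt_succ_self _), pn_eq_range zn _ h1, Finset.sum_range_add]
  have h3 : ∀ i, (X ^ t * q).coeff (t + i) = q.coeff i := by
    intro i
    rw [add_comm, coeff_X_pow_mul]
  simp only [h3]
  have h4 : 0 ≤ ∑ x ∈ range t, zn ((X ^ t * q).coeff x) :=
    Finset.sum_nonneg fun _ _ => apply_nonneg _ _
  linarith

lemma pn_C_X_pow_mul (t : ℕ) (G : ℤ[X][X]) : pn (pn zn) G ≤ pn (pn zn) (C (X ^ t) * G) := by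
  have h1 : (C (X ^ t) * G).natDegree < G.natDegree + 1 :=
    Nat.lt_succ_of_le (natDegree_C_mul_le _ _)
  rw [pn_eq_range (pn zn) G (Nat.lt_succ_self _), pn_eq_range (pn zn) _ h1]
  apply Finset.sum_le_sum
  intro j _
  rw [coeff_C_mul]
  exact pn_X_pow_mul t _

lemma natDegree_le_C_X_pow_mul (t : ℕ) (G : ℤ[X][X]) :
    G.natDegree ≤ (C (X ^ t) * G).natDegree := by
  rw [natDegree_C_mul (pow_ne_zero _ X_ne_zero)]

lemma cdeg_le_C_X_pow_mul (t : ℕ) (G : ℤ[X][X]) (j : ℕ) :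
    (G.coeff j).natDegree ≤ ((C (X ^ t) * G).coeff j).natDegree := by
  rw [coeff_C_mul]
  by_cases h : G.coeff j = 0
  · rw [h]; simp
  · rw [natDegree_mul (pow_ne_zero _ X_ne_zero) h]
    omega

/-! ### evaluation at `X` in power series -/

lemma coeff_evf_X (q : ℤ[X]) (i : ℕ) :
    PowerSeries.coeff i (evf (PowerSeries.X : PowerSeries ℚ) q) = (q.coeff i : ℚ) := by
  have h1 : (evf (PowerSeries.X : PowerSeries ℚ)) =
      (Polynomial.coeToPowerSeries.ringHom (R := ℚ)).comp (mapRingHom (Int.castRingHom ℚ)) := by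
    apply Polynomial.ringHom_ext'
    · exact RingHom.ext_int _ _
    · simp
  rw [h1]
  simp

lemma constCoeff_ev_X (ω : PowerSeries ℚ) (G : ℤ[X][X]) :
    PowerSeries.constantCoeff (ev PowerSeries.X ω G)
      = ev 0 (PowerSeries.constantCoeff ω) G := by
  rw [map_ev, PowerSeries.constantCoeff_X]

/-! ### roots -/

/-- bound for the real roots of an integer polynomial -/
lemma abs_root_le {g : ℤ[X]} (hg : g ≠ 0) {H : ℝ} (hH : 1 ≤ H) (hgH : pn zn g ≤ H) {c : ℝ}
    (hc : evf c g = 0) : |c| ≤ H := by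
  by_contra hcon
  push Not at hcon
  obtain ⟨n, hn⟩ : ∃ n, n = g.natDegree := ⟨_, rfl⟩
  have hlc : (1 : ℝ) ≤ |((g.coeff n : ℤ) : ℝ)| := by
    have h1 : g.coeff n ≠ 0 := by
      rw [hn]
      exact leadingCoeff_ne_zero.2 hg
    exact_mod_cast Int.one_le_abs h1
  rw [evf_sum c g (show g.natDegree < n + 1 by omega), Finset.sum_range_succ] at hc
  rw [pn_eq_range zn g (show g.natDegree < n + 1 by omega), Finset.sum_range_succ] at hgH
  rcases Nat.eq_zero_or_pos n with h0 | hn0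
  · rw [h0] at hc hlc
    simp only [range_zero, Finset.sum_empty, pow_zero, mul_one, zero_add] at hc
    rw [hc] at hlc
    simp at hlc
    linarith
  have h1 : |((g.coeff n : ℤ) : ℝ)| * |c| ^ n ≤ ∑ i ∈ range n, |((g.coeff i : ℤ) : ℝ)| * |c| ^ i := by
    have h2 : (g.coeff n : ℝ) * c ^ n = - ∑ i ∈ range n, (g.coeff i : ℝ) * c ^ i := by
      linear_combination hc
    rw [← abs_pow, ← abs_mul, h2, abs_neg]
    refine (Finset.abs_sum_le_sum_abs _ _).trans (le_of_eq ?_)
    apply Finset.sum_congr rfl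
    intro i _
    rw [abs_mul, abs_pow]
  have h2 : ∑ i ∈ range n, |((g.coeff i : ℤ) : ℝ)| * |c| ^ i
      ≤ (∑ i ∈ range n, |((g.coeff i : ℤ) : ℝ)|) * |c| ^ (n - 1) := by
    rw [Finset.sum_mul]
    apply Finset.sum_le_sum
    intro i hi
    rw [Finset.mem_range] at hi
    apply mul_le_mul_of_nonneg_left _ (abs_nonneg _)
    exact pow_le_pow_right₀ (by linarith) (by omega)
  have h3 : |c| ^ n = |c| * |c| ^ (n - 1) := by rw [← pow_succ']; congr 1; omega
  have hc0 : 0 < |c| := by linarith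
  have h4 : 0 < |c| ^ (n - 1) := by positivity
  have h5 : |((g.coeff n : ℤ) : ℝ)| * |c| ≤ ∑ i ∈ range n, |((g.coeff i : ℤ) : ℝ)| := by
    rw [h3, ← mul_assoc] at h1
    exact le_of_mul_le_mul_right (h1.trans h2) h4
  simp only [zn_apply] at hgH
  nlinarith

/-- a rational root of an integer polynomial is a quotient of small integers -/
lemma rat_root {g : ℤ[X]} (hg : g ≠ 0) {H : ℝ} (hH : 1 ≤ H) (hgH : pn zn g ≤ H) {c : ℚ}
    (hc : evf c g = 0) : ∃ l p : ℤ, l ≠ 0 ∧ |(l : ℝ)| ≤ H ∧ |(p : ℝ)| ≤ H ^ 2 ∧ (l : ℚ) * c = p := by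
  have h1 : aeval c g = 0 := by
    rw [aeval_def]
    exact hc
  have h2 := isIntegral_leadingCoeff_smul g c h1
  obtain ⟨p, hp⟩ := IsIntegrallyClosed.isIntegral_iff.1 h2
  have hl : |((g.leadingCoeff : ℤ) : ℝ)| ≤ H := (coeff_le_pn zn g g.natDegree).trans hgH
  have hcR : evf (c : ℝ) g = 0 := by
    have := map_evf (Rat.castHom ℝ) c g
    rw [hc, map_zero] at this
    exact this.symm
  have hcH := abs_root_le hg hH hgH hcR
  have hpc : ((g.leadingCoeff : ℤ) : ℚ) * c = p := by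
    rw [zsmul_eq_mul] at hp
    rw [← hp]
    simp
  refine ⟨g.leadingCoeff, p, leadingCoeff_ne_zero.2 hg, hl, ?_, hpc⟩
  have h3 : ((g.leadingCoeff : ℤ) : ℝ) * (c : ℝ) = p := by exact_mod_cast hpc
  rw [← h3, abs_mul, sq]
  exact mul_le_mul hl hcH (abs_nonneg _) (by linarith)

/-- the constant part of `G` in the first variable -/
lemma ev_zero_map (c : ℚ) (G : ℤ[X][X]) : ev (0 : ℚ) c G = evf c (G.map (evf (0 : ℤ))) := by
  have h0 : (evf c).comp (mapRingHom (evf (0 : ℤ))) = ev (0 : ℚ) c := by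
    apply Polynomial.ringHom_ext
    · intro t
      simp only [RingHom.comp_apply, coe_mapRingHom, Polynomial.map_C, evf_C, ev_C]
      have := map_evf (Int.castRingHom ℚ) (0 : ℤ) t
      simpa using this
    · simp
  rw [← h0]
  rfl

lemma coeff_map_evf_zero (G : ℤ[X][X]) (j : ℕ) :
    (G.map (evf (0 : ℤ))).coeff j = (G.coeff j).coeff 0 := by
  rw [coeff_map, evf, coe_eval₂RingHom, eval₂_at_zero]
  simp

lemma pn_map_evf_zero (G : ℤ[X][X]) : pn zn (G.map (evf (0 : ℤ))) ≤ pn (pn zn) G := by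
  have hd : (G.map (evf (0 : ℤ))).natDegree < G.natDegree + 1 :=
    Nat.lt_succ_of_le natDegree_map_le
  rw [pn_eq_range zn _ hd, pn_eq_range (pn zn) G (Nat.lt_succ_self _)]
  apply Finset.sum_le_sum
  intro i _
  rw [coeff_map_evf_zero]
  exact coeff_le_pn _ _ _

/-- uniqueness in Hensel's lemma -/
lemma hens_unique {w₁ w₂ x : PowerSeries ℚ} {G : ℤ[X][X]} (h1 : PowerSeries.X ∣ w₁)
    (h2 : PowerSeries.X ∣ w₂) (e1 : ev x w₁ G = 0) (e2 : ev x w₂ G = 0)
    (hD : PowerSeries.constantCoeff (ev x w₁ (derivative G)) ≠ 0) : w₁ = w₂ := by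
  obtain ⟨q, hq⟩ := (G.map (evf x)).binomExpansion w₁ (w₂ - w₁)
  rw [add_sub_cancel, eval_map, eval_map, derivative_map, eval_map, ← ev_apply, ← ev_apply,
    ← ev_apply, e1, e2, zero_add] at hq
  have h3 : (w₂ - w₁) * (ev x w₁ (derivative G) + q * (w₂ - w₁)) = 0 := by
    rw [hq]; ring
  rcases mul_eq_zero.1 h3 with h | h
  · exact (sub_eq_zero.1 h).symm
  · exfalso
    apply hD
    have h4 := congrArg PowerSeries.constantCoeff h
    rw [map_add, map_mul, map_sub, PowerSeries.X_dvd_iff.1 h1, PowerSeries.X_dvd_iff.1 h2,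
      map_zero, sub_zero, mul_zero, add_zero] at h4
    exact h4

end Pool.Agent.K1H89.TS
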