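import Pool.Agent.K1H89.TS.E1
import Pool.Agent.H322R2.Hmg

/-!
An explicit Eisenstein theorem for power series roots of bivariate polynomials.
-/

open Polynomial Finset

namespace Pool.Agent.K1H89.TS

open Pool.Agent.H322R2

/-- the conclusion of Eisenstein's theorem -/
def Eis (H : ℝ) (E : ℕ) (ω : PowerSeries ℚ) : Prop :=
  ∃ (N δ : ℤ) (u : PowerSeries ℤ), N ≠ 0 ∧ δ ≠ 0 ∧ |(N : ℝ)| ≤ H ^ E ∧ |(δ : ℝ)| ≤ H ^ E ∧
    PowerSeries.map (Int.castRingHom ℚ) u
      = PowerSeries.C (N : ℚ) * PowerSeries.rescale ((δ : ℚ) ^ 2) ω ∧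
    Bd zn (1 / H ^ E) u (H ^ E)

/-- exponent in the base case -/
def eτ (n k : ℕ) : ℕ := (4 * n + 1) * (2 * (k + n + 1) + (n + 1)) + (3 * n + 1)

lemma two_mul_sq_pow_le {H : ℝ} (hH : 2 ≤ H) (n : ℕ) : H * (2 * H ^ 2) ^ n ≤ H ^ (3 * n + 1) := by
  have h1 : 2 * H ^ 2 ≤ H ^ 3 := by
    have : H ^ 3 = H * H ^ 2 := by ring
    rw [this]
    exact mul_le_mul_of_nonneg_right hH (by positivity)
  calc H * (2 * H ^ 2) ^ n ≤ H * (H ^ 3) ^ n :=
        mul_le_mul_of_nonneg_left (pow_le_pow_left₀ (by positivity) h1 n) (by linarith)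
    _ = H ^ (3 * n + 1) := by rw [← pow_mul]; ring

lemma eis_base {n k : ℕ} {G : ℤ[X][X]} {ω : PowerSeries ℚ} {H : ℝ} (hn : G.natDegree ≤ n)
    (hk : ∀ j, (G.coeff j).natDegree ≤ k) (hH : 2 ≤ H) (hpn : pn (pn zn) G ≤ H)
    (hev : ev PowerSeries.X ω G = 0)
    (hD : ev 0 (PowerSeries.constantCoeff ω) (derivative G) ≠ 0) {l p : ℤ} (hl : l ≠ 0)
    (hlH : |(l : ℝ)| ≤ H) (hpH : |(p : ℝ)| ≤ H ^ 2)
    (hp : (l : ℚ) * PowerSeries.constantCoeff ω = p) : Eis H (2 * eτ n k + 2) ω := by
  have hH1 : 1 ≤ H := by linarith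
  have hlQ : (l : ℚ) ≠ 0 := by exact_mod_cast hl
  obtain ⟨G', hG'⟩ : ∃ G', G' = tr n l p 1 G := ⟨_, rfl⟩
  have hdeg : G'.natDegree ≤ n := by rw [hG']; exact natDegree_tr
  have hcdeg : ∀ j, (G'.coeff j).natDegree ≤ k + n := by
    intro j
    rw [hG']
    refine (cdeg_tr hk (e := 0) (by simp) j).trans ?_
    omega
  have hpn' : pn (pn zn) G' ≤ H ^ (3 * n + 1) := by
    rw [hG']
    have e1 : H ≤ 2 * H ^ 2 := by nlinarith
    have e2 : |(p : ℝ)| + pn zn (1 : ℤ[X]) ≤ 2 * H ^ 2 := by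
      have := pnz_one
      nlinarith
    refine (pn_tr_le hn (by nlinarith) (hlH.trans e1) e2).trans ?_
    refine le_trans ?_ (two_mul_sq_pow_le hH n)
    exact mul_le_mul_of_nonneg_right hpn (by positivity)
  -- the point
  have hc0 : ev (0 : ℚ) (PowerSeries.constantCoeff ω) G = 0 := by
    rw [← constCoeff_ev_X, hev, map_zero]
  have hpt : ev (0 : ℤ) 0 G' = 0 := by
    have h1 := map_ev (Int.castRingHom ℚ) 0 0 G'
    rw [map_zero] at h1
    rw [hG', ev_tr (0 : ℚ) 0 (PowerSeries.constantCoeff ω) hn (by rw [hp]; simp), hc0,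
      mul_zero] at h1
    rw [hG']
    have h2 : ((ev (0 : ℤ) 0 (tr n l p 1 G) : ℤ) : ℚ) = 0 := h1
    exact_mod_cast h2
  obtain ⟨D, hDd⟩ : ∃ D, D = ev (0 : ℤ) 0 (derivative G') := ⟨_, rfl⟩
  have hDcast : (D : ℚ) = ev (0 : ℚ) 0 (derivative G') := by
    have h1 := map_ev (Int.castRingHom ℚ) 0 0 (derivative G')
    rw [map_zero, ← hDd] at h1
    exact h1
  have hD0 : D ≠ 0 := by
    intro h0
    rw [h0] at hDcast
    have h1 := ev_tr_derivative (0 : ℚ) 0 (PowerSeries.constantCoeff ω) (s := 1) (G := G) (l := l)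
      (p := p) hn (by rw [hp]; simp)
    rw [← hG', ← hDcast] at h1
    simp only [Int.cast_zero, mul_zero, map_one, mul_one] at h1
    exact (mul_ne_zero (pow_ne_zero n hlQ) hD) h1.symm
  obtain ⟨Y, hYX, hY, hYb⟩ := hensel_ev (A := ℤ) G' (n + 1) (k + n + 1) (by omega)
    (fun j => by have := hcdeg j; omega) 0 0 hpt
  rw [← hDd] at hY hYb
  rw [map_zero, zero_add, zero_add] at hY
  -- uniqueness
  have hkey : PowerSeries.map (Int.castRingHom ℚ) (PowerSeries.C p + PowerSeries.C D * Y)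
      = PowerSeries.C (l : ℚ) * PowerSeries.rescale ((D : ℚ) ^ 2) ω := by
    obtain ⟨w₁, hw₁⟩ : ∃ w₁, w₁ = PowerSeries.C (l : ℚ) * PowerSeries.rescale ((D : ℚ) ^ 2) ω
      - PowerSeries.C (p : ℚ) := ⟨_, rfl⟩
    obtain ⟨w₂, hw₂⟩ : ∃ w₂, w₂ = PowerSeries.C (D : ℚ) * PowerSeries.map (Int.castRingHom ℚ) Y :=
      ⟨_, rfl⟩
    obtain ⟨x, hx⟩ : ∃ x : PowerSeries ℚ, x = PowerSeries.C ((D : ℚ) ^ 2) * PowerSeries.X := ⟨_, rfl⟩
    have hx0 : PowerSeries.constantCoeff x = 0 := by rw [hx]; simp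
    have hd1 : PowerSeries.X ∣ w₁ := by
      rw [PowerSeries.X_dvd_iff, hw₁, map_sub, map_mul, PowerSeries.constantCoeff_C,
        PowerSeries.constantCoeff_C]
      have : PowerSeries.constantCoeff (PowerSeries.rescale ((D : ℚ) ^ 2) ω)
          = PowerSeries.constantCoeff ω := by
        rw [← PowerSeries.coeff_zero_eq_constantCoeff_apply, PowerSeries.coeff_rescale]
        simp
      rw [this, hp, sub_self]
    have hd2 : PowerSeries.X ∣ w₂ := by
      rw [PowerSeries.X_dvd_iff, hw₂, map_mul]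
      have : PowerSeries.constantCoeff (PowerSeries.map (Int.castRingHom ℚ) Y) = 0 := by
        rw [← PowerSeries.coeff_zero_eq_constantCoeff_apply, PowerSeries.coeff_map,
          PowerSeries.coeff_zero_eq_constantCoeff_apply, PowerSeries.X_dvd_iff.1 hYX, map_zero]
      rw [this, mul_zero]
    have he2 : ev x w₂ G' = 0 := by
      have h1 := congrArg (PowerSeries.map (Int.castRingHom ℚ)) hY
      rw [map_ev, map_zero, map_mul, map_mul, PowerSeries.map_C, PowerSeries.map_X,
        PowerSeries.map_C] at h1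
      rw [hx, hw₂]
      simpa using h1
    have hlw : (l : PowerSeries ℚ) * PowerSeries.rescale ((D : ℚ) ^ 2) ω
        = (p : PowerSeries ℚ) + evf x 1 * w₁ := by
      rw [hw₁, map_one, one_mul]
      have e1 : (l : PowerSeries ℚ) = PowerSeries.C (l : ℚ) := by simp
      have e2 : (p : PowerSeries ℚ) = PowerSeries.C (p : ℚ) := by simp
      rw [e1, e2]
      ring
    have he1 : ev x w₁ G' = 0 := by
      rw [hG', ev_tr x w₁ _ hn hlw]
      have h1 := congrArg (PowerSeries.rescale ((D : ℚ) ^ 2)) hev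
      rw [map_ev, map_zero, PowerSeries.rescale_X, ← hx] at h1
      rw [h1, mul_zero]
    have hne : PowerSeries.constantCoeff (ev x w₁ (derivative G')) ≠ 0 := by
      rw [map_ev, hx0, PowerSeries.X_dvd_iff.1 hd1, ← hDcast]
      exact_mod_cast hD0
    have hun := hens_unique hd1 hd2 he1 he2 hne
    rw [map_add, map_mul, PowerSeries.map_C, PowerSeries.map_C]
    have h3 : PowerSeries.C (l : ℚ) * PowerSeries.rescale ((D : ℚ) ^ 2) ω
        = w₁ + PowerSeries.C (p : ℚ) := by rw [hw₁]; ring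
    rw [h3, hun, hw₂]
    simp only [eq_intCast]
    ring
  -- sizes
  have hnH : (n : ℝ) ≤ H ^ n := by
    calc (n : ℝ) ≤ 2 ^ n := by exact_mod_cast Nat.lt_two_pow_self.le
      _ ≤ H ^ n := pow_le_pow_left₀ (by norm_num) hH n
  have hDH : |(D : ℝ)| ≤ H ^ (4 * n + 1) := by
    have h1 : |(D : ℝ)| ≤ pn (pn zn) (derivative G') := by
      have h2 : D = ((derivative G').coeff 0).coeff 0 := by
        rw [hDd, ev_apply, eval₂_at_zero, evf, coe_eval₂RingHom, eval₂_at_zero]
        simp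
      rw [h2]
      exact (coeff_le_pn zn _ 0).trans (coeff_le_pn (pn zn) _ 0)
    refine h1.trans ((pn_derivative_le _ _).trans ?_)
    have h3 : (G'.natDegree : ℝ) ≤ H ^ n := le_trans (by exact_mod_cast hdeg) hnH
    calc (G'.natDegree : ℝ) * pn (pn zn) G' ≤ H ^ n * H ^ (3 * n + 1) :=
          mul_le_mul h3 hpn' (apply_nonneg _ _) (by positivity)
      _ = H ^ (4 * n + 1) := by rw [← pow_add]; congr 1; ring
  obtain ⟨T, hT⟩ : ∃ T, T = H ^ eτ n k := ⟨_, rfl⟩
  have hT1 : 1 ≤ T := by rw [hT]; exact one_le_pow₀ hH1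
  have hDT : |(D : ℝ)| ≤ T := by
    rw [hT]
    refine hDH.trans (pow_le_pow_right₀ hH1 ?_)
    unfold eτ
    have : (4 * n + 1) * 1 ≤ (4 * n + 1) * (2 * (k + n + 1) + (n + 1)) :=
      Nat.mul_le_mul_left _ (by omega)
    omega
  have hbd := hYb zn zn_one T hT1 (by
    rw [map_zero, add_zero, one_pow, one_pow, mul_one, mul_one]
    have e3 : (max 1 (zn D)) ^ (2 * (k + n + 1) + (n + 1))
        ≤ (H ^ (4 * n + 1)) ^ (2 * (k + n + 1) + (n + 1)) := by
      rw [zn_apply]
      apply pow_le_pow_left₀ (by positivity)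
      exact max_le (one_le_pow₀ hH1) hDH
    refine (mul_le_mul e3 hpn' (apply_nonneg _ _) (by positivity)).trans (le_of_eq ?_)
    rw [hT, eτ, ← pow_mul, ← pow_add])
  have hE : H ^ (2 * eτ n k + 2) = T ^ 2 * H ^ 2 := by
    rw [hT, ← pow_mul, ← pow_add]; congr 1; ring
  have hE4 : 4 * T ^ 2 ≤ H ^ (2 * eτ n k + 2) := by
    rw [hE, mul_comm]
    apply mul_le_mul_of_nonneg_left _ (sq_nonneg T)
    nlinarith
  have hT2 : 1 ≤ T ^ 2 := one_le_pow₀ hT1
  have hEp : 0 < H ^ (2 * eτ n k + 2) := by positivity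
  have hrad : 1 / H ^ (2 * eτ n k + 2) ≤ 1 / (4 * T ^ 2) :=
    one_div_le_one_div_of_le (by positivity) hE4
  refine ⟨l, D, PowerSeries.C p + PowerSeries.C D * Y, hl, hD0, ?_, ?_, hkey, ?_⟩
  · exact hlH.trans (le_self_pow₀ hH1 (by omega))
  · refine hDT.trans ?_
    rw [hE]
    calc T ≤ T ^ 2 := le_self_pow₀ hT1 (by norm_num)
      _ ≤ T ^ 2 * H ^ 2 := le_mul_of_one_le_right (by positivity) (one_le_pow₀ hH1)
  · have hr0 : 0 ≤ 1 / H ^ (2 * eτ n k + 2) := by positivity
    refine ((Bd.C hr0 p).add hr0 ((Bd.C hr0 D).mul hr0 (hbd.of_le hr0 hrad))).mono ?_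
    rw [zn_apply, zn_apply]
    have h5 : |(D : ℝ)| * (1 / (2 * T)) ≤ 1 := by
      rw [mul_one_div, div_le_one (by positivity)]
      linarith
    rw [hE]
    have hHT : 2 ≤ T := by
      refine hH.trans ?_
      rw [hT]
      exact le_self_pow₀ hH1 (by unfold eτ; omega)
    have hT4 : 4 ≤ T ^ 2 := by nlinarith
    have h6 : 4 * H ^ 2 ≤ T ^ 2 * H ^ 2 := mul_le_mul_of_nonneg_right hT4 (by positivity)
    nlinarith

/-- Eisenstein's theorem, explicit. -/
theorem eisenstein (n : ℕ) : ∀ e k : ℕ, ∃ E : ℕ, ∀ (G : ℤ[X][X]) (ω : PowerSeries ℚ) (H : ℝ),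
    G.natDegree ≤ n → (∀ j, (G.coeff j).natDegree ≤ k) → 2 ≤ H → pn (pn zn) G ≤ H →
    ev PowerSeries.X ω G = 0 →
    ¬ PowerSeries.X ^ (e + 1) ∣ ev PowerSeries.X ω (derivative G) → Eis H E ω := by
  -- the case of a simple root
  have hbase : ∀ (k : ℕ) (G : ℤ[X][X]) (ω : PowerSeries ℚ) (H : ℝ),
      G.natDegree ≤ n → (∀ j, (G.coeff j).natDegree ≤ k) → 2 ≤ H → pn (pn zn) G ≤ H →
      ev PowerSeries.X ω G = 0 →
      ev (0 : ℚ) (PowerSeries.constantCoeff ω) (derivative G) ≠ 0 → Eis H (2 * eτ n k + 2) ω := by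
    intro k G ω H hn hk hH hpn hev hD
    have hg : G.map (evf (0 : ℤ)) ≠ 0 := by
      intro h0
      apply hD
      rw [ev_zero_map, ← derivative_map, h0, derivative_zero, map_zero]
    have hc : evf (PowerSeries.constantCoeff ω) (G.map (evf (0 : ℤ))) = 0 := by
      rw [← ev_zero_map, ← constCoeff_ev_X, hev, map_zero]
    obtain ⟨l, p, h1, h2, h3, h4⟩ := rat_root hg (by linarith)
      ((pn_map_evf_zero G).trans hpn) hc
    exact eis_base hn hk hH hpn hev hD h1 h2 h3 h4
  intro e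
  induction e with
  | zero =>
    intro k
    refine ⟨2 * eτ n k + 2, ?_⟩
    intro G ω H hn hk hH hpn hev hnd
    apply hbase k G ω H hn hk hH hpn hev
    intro h0
    apply hnd
    rw [zero_add, pow_one, PowerSeries.X_dvd_iff, constCoeff_ev_X, h0]
  | succ e ih =>
    intro k
    obtain ⟨E1, hE1⟩ := ih k
    obtain ⟨E2, hE2⟩ := ih (k + n)
    refine ⟨max (2 * eτ n k + 2) (max E1 (3 * ((3 * n + 1) * E2) + 3)), ?_⟩
    intro G ω H hn hk hH hpn hev hnd
    have hH1 : 1 ≤ H := by linarith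
    -- enlarging the exponent
    have hmono : ∀ {E E' : ℕ}, E ≤ E' → Eis H E ω → Eis H E' ω := by
      rintro E E' hEE ⟨N, δ, u, a1, a2, a3, a4, a5, a6⟩
      have hp : H ^ E ≤ H ^ E' := pow_le_pow_right₀ hH1 hEE
      refine ⟨N, δ, u, a1, a2, a3.trans hp, a4.trans hp, a5, ?_⟩
      refine (a6.of_le (by positivity) ?_).mono hp
      exact one_div_le_one_div_of_le (by positivity) hp
    by_cases hD : ev (0 : ℚ) (PowerSeries.constantCoeff ω) (derivative G) = 0
    swap
    · exact hmono (le_max_left _ _) (hbase k G ω H hn hk hH hpn hev hD)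
    by_cases hg : G.map (evf (0 : ℤ)) = 0
    · -- `X` divides `G`
      have hdiv : C (X ^ 1) ∣ G := by
        rw [C_dvd_iff_dvd_coeff]
        intro j
        rw [X_pow_dvd_iff]
        intro i hi
        have h1 := congrArg (fun g : ℤ[X] => g.coeff j) hg
        simp only [coeff_zero] at h1
        rw [coeff_map_evf_zero] at h1
        have : i = 0 := by omega
        rw [this, h1]
      obtain ⟨G', hG'⟩ := hdiv
      have hevG : ∀ w : PowerSeries ℚ, ev PowerSeries.X w G
          = PowerSeries.X * ev PowerSeries.X w G' := by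
        intro w
        rw [hG', map_mul, ev_C, pow_one, evf_X]
      have hevG' : ev PowerSeries.X ω (derivative G)
          = PowerSeries.X * ev PowerSeries.X ω (derivative G') := by
        rw [hG', derivative_C_mul, map_mul, ev_C, pow_one, evf_X]
      apply hmono ((le_max_left _ _).trans (le_max_right _ _))
      apply hE1 G' ω H
      · refine (natDegree_le_C_X_pow_mul 1 G').trans ?_
        rw [← hG']; exact hn
      · intro j
        refine (cdeg_le_C_X_pow_mul 1 G' j).trans ?_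
        rw [← hG']; exact hk j
      · exact hH
      · refine (pn_C_X_pow_mul 1 G').trans ?_
        rw [← hG']; exact hpn
      · rw [hevG] at hev
        exact (mul_eq_zero.1 hev).resolve_left PowerSeries.X_ne_zero
      · intro hcon
        apply hnd
        rw [hevG', pow_succ' _ (e + 1)]
        exact mul_dvd_mul_left _ hcon
    · -- blow up
      have hc : evf (PowerSeries.constantCoeff ω) (G.map (evf (0 : ℤ))) = 0 := by
        rw [← ev_zero_map, ← constCoeff_ev_X, hev, map_zero]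
      obtain ⟨l, p, hl, hlH, hpH, hp⟩ := rat_root hg hH1 ((pn_map_evf_zero G).trans hpn) hc
      have hlQ : (l : ℚ) ≠ 0 := by exact_mod_cast hl
      have hlS : (l : PowerSeries ℚ) = PowerSeries.C (l : ℚ) := by simp
      have hpS : (p : PowerSeries ℚ) = PowerSeries.C (p : ℚ) := by simp
      have hlS0 : (l : PowerSeries ℚ) ≠ 0 := by
        rw [hlS]
        intro h0
        exact hlQ (PowerSeries.C_injective (by rw [h0, map_zero]))
      obtain ⟨c, hcd⟩ : ∃ c, c = PowerSeries.constantCoeff ω := ⟨_, rfl⟩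
      rw [← hcd] at hp hD
      -- the new series
      obtain ⟨ω₁, hω₁⟩ : PowerSeries.X ∣ ω - PowerSeries.C c := by
        rw [PowerSeries.X_dvd_iff, map_sub, PowerSeries.constantCoeff_C, hcd, sub_self]
      have hω : ω = PowerSeries.C c + PowerSeries.X * ω₁ := by rw [← hω₁]; ring
      obtain ⟨B, hB⟩ : ∃ B, B = tr n l p (C l * X) G := ⟨_, rfl⟩
      have hs : evf (PowerSeries.X : PowerSeries ℚ) (C l * X) = (l : PowerSeries ℚ) * PowerSeries.X := by
        rw [map_mul, evf_C, evf_X]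
      have hlc : (l : PowerSeries ℚ) * PowerSeries.C c = p := by
        rw [hlS, hpS, ← map_mul, hp]
      -- `X ^ 2` divides the transform
      obtain ⟨k2, hk2⟩ := (G.map (evf (PowerSeries.X : PowerSeries ℚ))).binomExpansion
        (PowerSeries.C c) (PowerSeries.X * ω₁)
      rw [← hω, derivative_map, eval_map, eval_map, eval_map, ← ev_apply, ← ev_apply, ← ev_apply,
        hev] at hk2
      have hX1 : PowerSeries.X ∣ ev PowerSeries.X (PowerSeries.C c) (derivative G) := by
        rw [PowerSeries.X_dvd_iff, constCoeff_ev_X, PowerSeries.constantCoeff_C, hD]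
      have hX2 : PowerSeries.X ^ 2 ∣ ev PowerSeries.X (PowerSeries.C c) G := by
        obtain ⟨t, ht⟩ := hX1
        refine ⟨-(t * ω₁ + k2 * ω₁ ^ 2), ?_⟩
        rw [ht] at hk2
        linear_combination -hk2
      have hBX : C (PowerSeries.X ^ 2 : PowerSeries ℚ) ∣ B.map (evf (PowerSeries.X : PowerSeries ℚ)) := by
        have hf : (evf (C (PowerSeries.X : PowerSeries ℚ)) : ℤ[X] →+* (PowerSeries ℚ)[X])
            = (C : PowerSeries ℚ →+* (PowerSeries ℚ)[X]).comp (evf PowerSeries.X) := by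
          apply Polynomial.ringHom_ext'
          · exact RingHom.ext_int _ _
          · simp
        have hmapev : ∀ Q : ℤ[X][X], Q.map (evf (PowerSeries.X : PowerSeries ℚ))
            = ev (C (PowerSeries.X : PowerSeries ℚ)) X Q := by
          intro Q
          rw [ev_apply, hf, ← eval₂_map, ← Polynomial.comp, comp_X]
        have hevC : ∀ (Q : ℤ[X][X]) (w : PowerSeries ℚ), ev (C (PowerSeries.X : PowerSeries ℚ)) (C w) Q
            = C (ev PowerSeries.X w Q) := by
          intro Q w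
          rw [map_ev]
        obtain ⟨W, hW⟩ : ∃ W : (PowerSeries ℚ)[X], W = C (PowerSeries.C c) + C PowerSeries.X * X :=
          ⟨_, rfl⟩
        have hlW : (l : (PowerSeries ℚ)[X]) * W
            = (p : (PowerSeries ℚ)[X]) + evf (C (PowerSeries.X : PowerSeries ℚ)) (C l * X) * X := by
          rw [hW, map_mul, evf_C, evf_X]
          have e1 : (l : (PowerSeries ℚ)[X]) * C (PowerSeries.C c) = (p : (PowerSeries ℚ)[X]) := by
            have := congrArg (C : PowerSeries ℚ →+* (PowerSeries ℚ)[X]) hlc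
            rw [map_mul] at this
            simpa using this
          rw [mul_add, e1]
          ring
        rw [hmapev, hB, ev_tr _ _ W hn hlW]
        apply Dvd.dvd.mul_left
        obtain ⟨k3, hk3⟩ := (G.map (evf (C (PowerSeries.X : PowerSeries ℚ)))).binomExpansion
          (C (PowerSeries.C c)) (C PowerSeries.X * X)
        rw [← hW, derivative_map, eval_map, eval_map, eval_map, ← ev_apply, ← ev_apply, ← ev_apply,
          hevC, hevC] at hk3
        rw [hk3]
        obtain ⟨t1, ht1⟩ := hX1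
        obtain ⟨t2, ht2⟩ := hX2
        rw [ht1, ht2]
        refine ⟨C t2 + C t1 * X + k3 * X ^ 2, ?_⟩
        simp only [map_mul, map_pow]
        ring
      have hdiv : C (X ^ 2) ∣ B := by
        rw [C_dvd_iff_dvd_coeff]
        intro j
        rw [X_pow_dvd_iff]
        intro i hi
        have h1 := (C_dvd_iff_dvd_coeff _ _).1 hBX j
        rw [coeff_map, PowerSeries.X_pow_dvd_iff] at h1
        have h2 := h1 i hi
        rw [coeff_evf_X] at h2
        exact_mod_cast h2
      obtain ⟨G₁, hG₁⟩ := hdiv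
      -- data for `G₁`
      have hdeg1 : G₁.natDegree ≤ n := by
        refine (natDegree_le_C_X_pow_mul 2 G₁).trans ?_
        rw [← hG₁, hB]; exact natDegree_tr
      have hcdeg1 : ∀ j, (G₁.coeff j).natDegree ≤ k + n := by
        intro j
        refine (cdeg_le_C_X_pow_mul 2 G₁ j).trans ?_
        rw [← hG₁, hB]
        refine (cdeg_tr hk (e := 1) ?_ j).trans ?_
        · exact (natDegree_C_mul_le _ _).trans natDegree_X_le
        · omega
      obtain ⟨H₁, hH₁⟩ : ∃ H₁, H₁ = H ^ (3 * n + 1) := ⟨_, rfl⟩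
      have hpn1 : pn (pn zn) G₁ ≤ H₁ := by
        refine (pn_C_X_pow_mul 2 G₁).trans ?_
        rw [← hG₁, hB, hH₁]
        have e1 : H ≤ 2 * H ^ 2 := by nlinarith
        have e2 : |(p : ℝ)| + pn zn (C l * X : ℤ[X]) ≤ 2 * H ^ 2 := by
          have h1 : pn zn (C l * X : ℤ[X]) ≤ H := by
            refine (map_mul_le_mul _ _ _).trans ?_
            rw [pn_C, zn_apply, pn_X]
            refine le_trans ?_ hlH
            exact mul_le_of_le_one_right (abs_nonneg _) zn_one
          nlinarith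
        refine (pn_tr_le hn (by nlinarith) (hlH.trans e1) e2).trans ?_
        refine le_trans ?_ (two_mul_sq_pow_le hH n)
        exact mul_le_mul_of_nonneg_right hpn (by positivity)
      have hlw1 : (l : PowerSeries ℚ) * ω
          = (p : PowerSeries ℚ) + evf PowerSeries.X (C l * X) * ω₁ := by
        rw [hω, hs, mul_add, hlc]
        ring
      have hev1 : ev PowerSeries.X ω₁ G₁ = 0 := by
        have h1 := ev_tr (PowerSeries.X : PowerSeries ℚ) ω₁ ω hn hlw1
        rw [← hB, hG₁, hev, mul_zero, map_mul, ev_C, map_pow, evf_X] at h1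
        exact (mul_eq_zero.1 h1).resolve_left (pow_ne_zero _ PowerSeries.X_ne_zero)
      have hnd1 : ¬ PowerSeries.X ^ (e + 1) ∣ ev PowerSeries.X ω₁ (derivative G₁) := by
        intro hcon
        apply hnd
        have h1 := ev_tr_derivative (PowerSeries.X : PowerSeries ℚ) ω₁ ω hn hlw1
        rw [← hB, hG₁, derivative_C_mul, map_mul, ev_C, map_pow, evf_X, hs] at h1
        have h2 : (l : PowerSeries ℚ) ^ n * ev PowerSeries.X ω (derivative G)
            = PowerSeries.X * ev PowerSeries.X ω₁ (derivative G₁) := by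
          have h3 : ((l : PowerSeries ℚ) * PowerSeries.X) * ((l : PowerSeries ℚ) ^ n
              * ev PowerSeries.X ω (derivative G)) = ((l : PowerSeries ℚ) * PowerSeries.X) *
              (PowerSeries.X * ev PowerSeries.X ω₁ (derivative G₁)) := by
            linear_combination -h1
          exact mul_left_cancel₀ (mul_ne_zero hlS0 PowerSeries.X_ne_zero) h3
        have h4 : PowerSeries.X ^ (e + 1 + 1) ∣ (l : PowerSeries ℚ) ^ n
            * ev PowerSeries.X ω (derivative G) := by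
          rw [h2, pow_succ' _ (e + 1)]
          exact mul_dvd_mul_left _ hcon
        have hu : IsUnit ((l : PowerSeries ℚ) ^ n) := by
          rw [hlS, ← map_pow]
          exact (IsUnit.mk0 _ (pow_ne_zero n hlQ)).map _
        exact hu.dvd_mul_left.1 h4
      have hH₁2 : 2 ≤ H₁ := by rw [hH₁]; exact hH.trans (le_self_pow₀ hH1 (by omega))
      obtain ⟨N₁, δ₁, u₁, hN₁, hδ₁, hN₁H, hδ₁H, hu₁, hbd₁⟩ :=
        hE2 G₁ ω₁ H₁ hdeg1 hcdeg1 hH₁2 hpn1 hev1 hnd1
      have hpw : H₁ ^ E2 = H ^ ((3 * n + 1) * E2) := by rw [hH₁, ← pow_mul]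
      obtain ⟨s, hs'⟩ : ∃ s, s = (3 * n + 1) * E2 := ⟨_, rfl⟩
      rw [hpw, ← hs'] at hN₁H hδ₁H hbd₁
      apply hmono ((le_max_right _ _).trans (le_max_right _ _))
      rw [← hs']
      obtain ⟨A, hA⟩ : ∃ A, A = H ^ s := ⟨_, rfl⟩
      have hA1 : 1 ≤ A := by rw [hA]; exact one_le_pow₀ hH1
      have hEA : H ^ (3 * s + 3) = A ^ 3 * H ^ 3 := by
        rw [hA, ← pow_mul, ← pow_add]; congr 1; ring
      have hH3 : 1 ≤ H ^ 3 := one_le_pow₀ hH1
      have hHH3 : H ≤ H ^ 3 := le_self_pow₀ hH1 (by norm_num)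
      have hA3 : 1 ≤ A ^ 3 := one_le_pow₀ hA1
      have hAA3 : A ≤ A ^ 3 := le_self_pow₀ hA1 (by norm_num)
      rw [← hA] at hN₁H hδ₁H hbd₁
      refine ⟨N₁ * l, δ₁, PowerSeries.C (N₁ * p) + PowerSeries.C (l * δ₁ ^ 2) *
        (PowerSeries.X * u₁), mul_ne_zero hN₁ hl, hδ₁, ?_, ?_, ?_, ?_⟩
      · rw [hEA]
        push_cast
        rw [abs_mul]
        exact mul_le_mul (hN₁H.trans hAA3) (hlH.trans hHH3) (abs_nonneg _) (by positivity)
      · rw [hEA]
        refine (hδ₁H.trans hAA3).trans ?_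
        exact le_mul_of_one_le_right (by positivity) hH3
      · rw [map_add (PowerSeries.map _), map_mul (PowerSeries.map _), map_mul (PowerSeries.map _),
          PowerSeries.map_C, PowerSeries.map_C, PowerSeries.map_X, hu₁, hω, map_add (PowerSeries.rescale _), map_mul (PowerSeries.rescale _),
          PowerSeries.rescale_X]
        have e1 : PowerSeries.rescale ((δ₁ : ℚ) ^ 2) (PowerSeries.C c) = PowerSeries.C c := by
          ext i
          rw [PowerSeries.coeff_rescale, PowerSeries.coeff_C]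
          split_ifs with hi
          · rw [hi]; simp
          · simp
        rw [e1]
        simp only [eq_intCast]
        push_cast
        rw [← hp]
        simp only [map_mul]
        ring
      · rw [hEA]
        have hr0 : 0 ≤ 1 / (A ^ 3 * H ^ 3) := by positivity
        have hr1 : 1 / (A ^ 3 * H ^ 3) ≤ 1 / A :=
          one_div_le_one_div_of_le (by positivity) (by nlinarith)
        have hr2 : 1 / (A ^ 3 * H ^ 3) ≤ 1 / (A ^ 3 * H) := by
          apply one_div_le_one_div_of_le (by positivity)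
          exact mul_le_mul_of_nonneg_left hHH3 (by positivity)
        refine ((Bd.C hr0 (N₁ * p)).add hr0 ((Bd.C hr0 (l * δ₁ ^ 2)).mul hr0
          ((Bd.X hr0 zn_one).mul hr0 (hbd₁.of_le hr0 hr1)))).mono ?_
        rw [zn_apply, zn_apply]
        push_cast
        rw [abs_mul, abs_mul, abs_pow]
        have h1 : |(N₁ : ℝ)| * |(p : ℝ)| ≤ A * H ^ 2 :=
          mul_le_mul hN₁H hpH (abs_nonneg _) (by positivity)
        have h2 : |(l : ℝ)| * |(δ₁ : ℝ)| ^ 2 ≤ H * A ^ 2 :=
          mul_le_mul hlH (pow_le_pow_left₀ (abs_nonneg _) hδ₁H 2) (by positivity) (by positivity)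
        have h3 : |(l : ℝ)| * |(δ₁ : ℝ)| ^ 2 * (1 / (A ^ 3 * H ^ 3) * A) ≤ 1 := by
          calc |(l : ℝ)| * |(δ₁ : ℝ)| ^ 2 * (1 / (A ^ 3 * H ^ 3) * A)
              ≤ (H * A ^ 2) * (1 / (A ^ 3 * H) * A) := by gcongr
            _ = 1 := by
                have : A ≠ 0 := by positivity
                field_simp
        have h4 : A * H ^ 2 + 1 ≤ A ^ 3 * H ^ 3 := by
          have h5 : A * H ^ 2 + 1 ≤ A * H ^ 2 * 2 := by nlinarith [mul_pos (by linarith : 0 < A) (by positivity : 0 < H ^ 2), one_le_pow₀ hH1 (n := 2)]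
          have h6 : A * H ^ 2 * 2 ≤ A ^ 3 * H ^ 2 * H := by
            apply mul_le_mul (mul_le_mul_of_nonneg_right hAA3 (by positivity)) hH (by norm_num)
              (by positivity)
          calc A * H ^ 2 + 1 ≤ A * H ^ 2 * 2 := h5
            _ ≤ A ^ 3 * H ^ 2 * H := h6
            _ = _ := by ring
        linarith

end Pool.Agent.K1H89.TS
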