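import Pool.Agent.W257.CStm2
import Pool.Agent.W63.SHt

/-!
Weighted homogenisation: coordinates at infinity when `Y` has weight `k`.
-/

open Polynomial Finset

namespace Pool.Agent.K1H89.TS

open Pool.Agent.H322R2 Pool.Agent.W257

/-- weighted degree at most `k d` (the outer variable has weight `k`) -/
def WD (k d : ℕ) (G : ℤ[X][X]) : Prop :=
  G.natDegree ≤ d ∧ ∀ j, (G.coeff j).natDegree ≤ k * (d - j)

/-- weighted homogenisation: `P(z,w) = z^(k d) G(1/z, w/z^k)` -/
noncomputable def hmgk (k d : ℕ) (G : ℤ[X][X]) : ℤ[X][X] :=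
  ∑ j ∈ range (d + 1), monomial j (reflect (k * (d - j)) (G.coeff j))

lemma coeff_hmgk (k d : ℕ) (G : ℤ[X][X]) (j : ℕ) :
    (hmgk k d G).coeff j = if j < d + 1 then reflect (k * (d - j)) (G.coeff j) else 0 := by
  rw [hmgk, finsetSum_coeff]
  simp_rw [coeff_monomial]
  rw [Finset.sum_ite_eq']
  simp [Finset.mem_range]

lemma natDegree_hmgk (k d : ℕ) (G : ℤ[X][X]) : (hmgk k d G).natDegree ≤ d := by
  rw [natDegree_le_iff_coeff_eq_zero]
  intro j hj
  rw [coeff_hmgk, if_neg (by omega)]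

lemma natDegree_coeff_hmgk {k d : ℕ} {G : ℤ[X][X]} (hG : WD k d G) (j : ℕ) :
    ((hmgk k d G).coeff j).natDegree ≤ k * d := by
  rw [coeff_hmgk]
  split_ifs with h
  · refine natDegree_reflect_le.trans ?_
    have h1 := hG.2 j
    have h2 : k * (d - j) ≤ k * d := Nat.mul_le_mul_left _ (Nat.sub_le _ _)
    exact max_le h2 (h1.trans h2)
  · simp

lemma ev_hmgk {S : Type*} [CommRing S] {x z : S} (w : S) (hxz : x * z = 1) {k d : ℕ} {G : ℤ[X][X]}
    (hG : WD k d G) : ev x (x ^ k * w) G = x ^ (k * d) * ev z w (hmgk k d G) := by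
  rw [ev_apply, ev_apply, eval₂_eq_sum_range' _ (show G.natDegree < d + 1 by have := hG.1; omega),
    eval₂_eq_sum_range' _ (show (hmgk k d G).natDegree < d + 1 by
      have := natDegree_hmgk k d G; omega),
    Finset.mul_sum]
  apply Finset.sum_congr rfl
  intro j hj
  have hj' := Finset.mem_range.1 hj
  rw [coeff_hmgk, if_pos hj', ← evf_reflect hxz (k * (d - j)) _ (hG.2 j), mul_pow, ← pow_mul]
  have : x ^ (k * d) = x ^ (k * (d - j)) * x ^ (k * j) := by
    rw [← pow_add, ← mul_add]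
    congr 2
    omega
  rw [this]; ring

lemma pn_hmgk {k d : ℕ} {G : ℤ[X][X]} (hG : WD k d G) :
    pn (pn zn) (hmgk k d G) = pn (pn zn) G := by
  rw [pn_eq_range _ _ (show (hmgk k d G).natDegree < d + 1 by have := natDegree_hmgk k d G; omega),
    pn_eq_range _ G (show G.natDegree < d + 1 by have := hG.1; omega)]
  apply Finset.sum_congr rfl
  intro j hj
  rw [coeff_hmgk, if_pos (Finset.mem_range.1 hj), pn_reflect _ _ (hG.2 j)]

lemma coeff_hmgk_top {k m : ℕ} {f : ℤ[X][X]} (hf : f.Monic) (hfd : f.natDegree = m) :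
    (hmgk k m f).coeff m = 1 := by
  rw [coeff_hmgk, if_pos (by omega), Nat.sub_self]
  have : f.coeff m = 1 := by rw [← hfd]; exact hf
  rw [this]
  have : reflect (k * 0) (1 : ℤ[X]) = 1 := by
    rw [mul_zero, ← C_1, reflect_C, pow_zero, mul_one]
  exact this

lemma hmgk_monic {k m : ℕ} {f : ℤ[X][X]} (hf : f.Monic) (hfd : f.natDegree = m) :
    (hmgk k m f).Monic ∧ (hmgk k m f).natDegree = m := by
  have h1 := coeff_hmgk_top (k := k) hf hfd
  have h2 : (hmgk k m f).Monic := monic_of_natDegree_le_of_coeff_eq_one m (natDegree_hmgk k m f) h1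
  refine ⟨h2, ?_⟩
  apply le_antisymm (natDegree_hmgk k m f)
  apply le_natDegree_of_ne_zero
  rw [h1]; exact one_ne_zero

/-- a monic polynomial with coefficients of degree at most `k` -/
lemma WD_of_le {k m : ℕ} {f : ℤ[X][X]} (hf : f.Monic) (hfd : f.natDegree = m)
    (hk : ∀ j, (f.coeff j).natDegree ≤ k) : WD k m f := by
  refine ⟨hfd.le, fun j => ?_⟩
  rcases lt_trichotomy j m with h | h | h
  · refine (hk j).trans ?_
    exact Nat.le_mul_of_pos_right _ (by omega)
  · subst h
    have : f.coeff j = 1 := by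
      have h1 : f.leadingCoeff = 1 := hf
      rw [leadingCoeff, hfd] at h1
      exact h1
    rw [this, natDegree_one]
    exact Nat.zero_le _
  · rw [coeff_eq_zero_of_natDegree_lt (by omega), natDegree_zero]
    exact Nat.zero_le _

/-- splitting at infinity gives splitting of `f(x, Y)` -/
lemma split_of_hmgk {S : Type*} [CommRing S] {k m : ℕ} {f : ℤ[X][X]} (hT : WD k m f) {x z : S}
    (hxz : x * z = 1) (ω : Fin m → S) (h : (hmgk k m f).map (evf z) = ∏ i, (X - C (ω i))) :
    f.map (evf x) = ∏ i, (X - C (x ^ k * ω i)) := by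
  have hzx : z * x = 1 := by rw [mul_comm]; exact hxz
  have h1 := ev_hmgk (S := S[X]) (x := C x) (z := C z) X (by rw [← map_mul, hxz, map_one]) hT
  rw [← map_evf_eq_ev, h] at h1
  have h2 : ev (C x) (C x ^ k * X) f = (f.map (evf x)).comp (C x ^ k * X) := by
    have h3 : (evf (C x : S[X])) = (C : S →+* S[X]).comp (evf x) := by
      apply Polynomial.ringHom_ext'
      · exact RingHom.ext_int _ _
      · simp
    rw [ev_apply, h3, ← eval₂_map, ← Polynomial.comp]
  rw [h2] at h1
  have h4 : (C x : S[X]) ^ (k * m) * ∏ i : Fin m, (X - C (ω i))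
      = ∏ i : Fin m, (C x ^ k * X - C (x ^ k * ω i)) := by
    have : (C x : S[X]) ^ (k * m) = ∏ _i : Fin m, C x ^ k := by simp [pow_mul]
    rw [this, ← Finset.prod_mul_distrib]
    apply Finset.prod_congr rfl
    intro i _
    rw [mul_sub, map_mul, map_pow]
  rw [h4] at h1
  have h5 := congrArg (fun p : S[X] => p.comp (C z ^ k * X)) h1
  simp only [comp_assoc] at h5
  have h6 : (C x ^ k * X : S[X]).comp (C z ^ k * X) = X := by
    rw [mul_comp, X_comp, pow_comp, C_comp, ← mul_assoc, ← mul_pow, ← map_mul, hxz, map_one,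
      one_pow, one_mul]
  rw [h6, comp_X, Polynomial.prod_comp] at h5
  rw [h5]
  apply Finset.prod_congr rfl
  intro i _
  rw [sub_comp, h6, C_comp]

/-- the converse -/
lemma hmgk_of_split {S : Type*} [CommRing S] {k m : ℕ} {f : ℤ[X][X]} (hT : WD k m f) {x z : S}
    (hxz : x * z = 1) (φ : Fin m → S) (h : f.map (evf x) = ∏ i, (X - C (φ i))) :
    (hmgk k m f).map (evf z) = ∏ i, (X - C (z ^ k * φ i)) := by
  have h1 := ev_hmgk (S := S[X]) (x := C x) (z := C z) X (by rw [← map_mul, hxz, map_one]) hT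
  rw [← map_evf_eq_ev] at h1
  have h2 : ev (C x) (C x ^ k * X) f = (f.map (evf x)).comp (C x ^ k * X) := by
    have h3 : (evf (C x : S[X])) = (C : S →+* S[X]).comp (evf x) := by
      apply Polynomial.ringHom_ext'
      · exact RingHom.ext_int _ _
      · simp
    rw [ev_apply, h3, ← eval₂_map, ← Polynomial.comp]
  rw [h2, h, Polynomial.prod_comp] at h1
  have h3 : (C z : S[X]) ^ (k * m) * (C x ^ (k * m) * (hmgk k m f).map (evf z))
      = (hmgk k m f).map (evf z) := by
    rw [← mul_assoc, ← mul_pow, ← map_mul, mul_comm z x, hxz, map_one, one_pow, one_mul]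
  rw [← h3, ← h1]
  have : (C z : S[X]) ^ (k * m) = ∏ _i : Fin m, C z ^ k := by simp [pow_mul]
  rw [this, ← Finset.prod_mul_distrib]
  apply Finset.prod_congr rfl
  intro i _
  rw [sub_comp, X_comp, C_comp, mul_sub, ← mul_assoc, ← mul_pow, ← map_mul, mul_comm z x, hxz,
    map_one, one_pow, one_mul, map_mul, map_pow]

end Pool.Agent.K1H89.TS
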