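import Pool.Agent.K1H89.TS.E2
import Pool.Agent.K1H89.TS.H1
import Pool.Agent.H322R2.Comp
import Pool.Agent.W257.G1

/-!
The integral branches at infinity of a polynomial that is totally split at infinity.
-/

open Polynomial Finset

namespace Pool.Agent.K1H89.TS

open Pool.Agent.H322R2 Pool.Agent.W257

section Comp

variable {R : Type*} [CommRing R] [IsDomain R] {g : R[X]} (hm : g.Monic)

include hm in
lemma coeffs_zero' (v : Fin g.natDegree → R)
    (h : ∑ j, (AdjoinRoot.of g (v j)) * (AdjoinRoot.root g) ^ (j : ℕ) = 0) : v = 0 := by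
  set q : R[X] := ∑ i : Fin g.natDegree, C (v i) * X ^ (i : ℕ) with hq
  have h2 : (AdjoinRoot.mk g) q = 0 := by
    rw [hq, map_sum, ← h]
    apply Finset.sum_congr rfl
    intro i _
    rw [map_mul, map_pow, AdjoinRoot.mk_C, AdjoinRoot.mk_X]
  rw [AdjoinRoot.mk_eq_zero] at h2
  have hqdeg : q.degree < g.degree := by
    rw [degree_eq_natDegree hm.ne_zero]
    refine (degree_sum_le _ _).trans_lt ?_
    rw [Finset.sup_lt_iff (by exact WithBot.bot_lt_coe _)]
    intro i _
    refine (degree_C_mul_X_pow_le _ _).trans_lt ?_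
    exact_mod_cast i.2
  have hq0 : q = 0 := by
    by_contra hne
    exact absurd (degree_le_of_dvd h2 hne) (not_le.2 hqdeg)
  funext i
  have : q.coeff (i : ℕ) = v i := by
    rw [hq, finsetSum_coeff]
    rw [Finset.sum_eq_single i]
    · simp
    · intro j _ hj
      have : (i : ℕ) ≠ (j : ℕ) := fun h => hj (Fin.ext h.symm)
      simp [coeff_C_mul, coeff_X_pow, this]
    · intro h; exact absurd (Finset.mem_univ _) h
  rw [← this, hq0]; simp

include hm in
lemma aeval_comp_self' : aeval (H322R2.comp g g.natDegree) g = 0 := by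
  have h1 := aeval_comp_mulVec (AdjoinRoot.of g) (AdjoinRoot.root g) g g.natDegree hm rfl
    (AdjoinRoot.eval₂_root g) g
  rw [AdjoinRoot.eval₂_root, zero_smul] at h1
  ext i j
  have h2 := congrFun h1 i
  simp only [Matrix.mulVec, dotProduct, Matrix.map_apply, Pi.zero_apply] at h2
  have h3 := coeffs_zero' hm (fun j => (aeval (H322R2.comp g g.natDegree) g) i j) h2
  exact congrFun h3 j

end Comp

/-- nonvanishing of the norm -/
lemma nrm_ne_zero_hom {R L : Type*} [CommRing R] [IsDomain R] [Field L] (f : R →+* L) (g : R[X])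
    (hm : g.Monic) (V : R[X]) (hc : IsCoprime (g.map f) (V.map f)) : nrm g g.natDegree V ≠ 0 := by
  obtain ⟨u, v, huv⟩ := hc
  set M : Matrix (Fin g.natDegree) (Fin g.natDegree) L := (H322R2.comp g g.natDegree).map f with hM
  have key : ∀ W : R[X], aeval M (W.map f) = (aeval (H322R2.comp g g.natDegree) W).map f := by
    intro W
    have h1 := Polynomial.hom_eval₂ W (algebraMap R (Matrix (Fin g.natDegree) (Fin g.natDegree) R))
      f.mapMatrix (H322R2.comp g g.natDegree)
    rw [aeval_def, aeval_def, eval₂_map]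
    have h2 : f.mapMatrix (eval₂ (algebraMap R _) (H322R2.comp g g.natDegree) W)
        = (eval₂ (algebraMap R _) (H322R2.comp g g.natDegree) W).map f := rfl
    rw [← h2, h1]
    congr 1
    ext r i j
    simp only [RingHom.comp_apply, Matrix.algebraMap_matrix_apply, RingHom.mapMatrix_apply,
      Matrix.map_apply, Algebra.algebraMap_self, RingHom.id_apply]
    split_ifs <;> simp
  have h1 := congrArg (aeval M) huv
  rw [map_add, map_mul, map_mul, map_one, key, key, aeval_comp_self' hm] at h1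
  intro h0
  have h2 := congrArg Matrix.det h1
  have h3 : (Matrix.map (0 : Matrix (Fin g.natDegree) (Fin g.natDegree) R) f) = 0 := by
    ext i j; simp
  rw [h3, mul_zero, zero_add, Matrix.det_mul, Matrix.det_one] at h2
  have h4 : ((aeval (H322R2.comp g g.natDegree) V).map f).det = f (nrm g g.natDegree V) := by
    rw [nrm, RingHom.map_det]; rfl
  rw [h4, h0, map_zero, mul_zero] at h2
  exact zero_ne_one h2

/-- integral form of an Eisenstein series -/
lemma Eis.int {H : ℝ} {E : ℕ} {ω : PowerSeries ℚ} (hH : 1 ≤ H) (h : Eis H E ω) (c : ℤ)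
    (hc : PowerSeries.constantCoeff ω = c) :
    ∃ D : ℤ, D ≠ 0 ∧ |(D : ℝ)| ≤ H ^ (2 * E) ∧ ∀ t : ℤ, ∃ v : PowerSeries ℤ,
      PowerSeries.map (Int.castRingHom ℚ) v = PowerSeries.rescale ((((D * t : ℤ) ^ 2 : ℤ)) : ℚ) ω ∧
      ∀ ρ : ℝ, 0 ≤ ρ → (t : ℝ) ^ 2 * ρ ≤ 1 / H ^ (3 * E) → Bd zn ρ v (|(c : ℝ)| + H ^ E) := by
  obtain ⟨N, δ, u, hN, hδ, hNH, hδH, hu, hub⟩ := h
  refine ⟨N * δ, mul_ne_zero hN hδ, ?_, ?_⟩
  · push_cast
    rw [abs_mul, two_mul, pow_add]
    exact mul_le_mul hNH hδH (abs_nonneg _) (by positivity)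
  · intro t
    have hN1 : (1 : ℝ) ≤ |(N : ℝ)| := by exact_mod_cast Int.one_le_abs hN
    refine ⟨PowerSeries.mk fun n => if n = 0 then c else
      N ^ (2 * n - 1) * t ^ (2 * n) * PowerSeries.coeff n u, ?_, ?_⟩
    · ext n
      rw [PowerSeries.coeff_map, PowerSeries.coeff_mk, PowerSeries.coeff_rescale]
      by_cases hn : n = 0
      · rw [if_pos hn, hn, PowerSeries.coeff_zero_eq_constantCoeff_apply, hc]
        simp
      · rw [if_neg hn]
        have h1 := congrArg (PowerSeries.coeff n) hu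
        rw [PowerSeries.coeff_map, PowerSeries.coeff_C_mul, PowerSeries.coeff_rescale] at h1
        have h2 : ((Int.castRingHom ℚ) (N ^ (2 * n - 1) * t ^ (2 * n) * PowerSeries.coeff n u))
            = (N : ℚ) ^ (2 * n - 1) * (t : ℚ) ^ (2 * n) *
              ((Int.castRingHom ℚ) (PowerSeries.coeff n u)) := by
          rw [map_mul, map_mul, map_pow, map_pow]
          rfl
        rw [h2, h1]
        have h3 : (N : ℚ) ^ (2 * n) = (N : ℚ) ^ (2 * n - 1) * N := by
          rw [← pow_succ]; congr 1; omega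
        push_cast
        have h4 : (((N : ℚ) * δ * t) ^ 2) ^ n = (N : ℚ) ^ (2 * n) * (((δ : ℚ) ^ 2) ^ n *
            (t : ℚ) ^ (2 * n)) := by
          rw [pow_mul (N : ℚ), pow_mul (t : ℚ), ← mul_pow, ← mul_pow]
          congr 1
          ring
        rw [h4, h3]
        ring
    · intro ρ hρ htρ K
      have hterm : ∀ n ∈ range K, zn (PowerSeries.coeff n (PowerSeries.mk fun n =>
          if n = 0 then c else N ^ (2 * n - 1) * t ^ (2 * n) * PowerSeries.coeff n u)) * ρ ^ n
          ≤ (if n = 0 then |(c : ℝ)| else 0) + zn (PowerSeries.coeff n u) * (1 / H ^ E) ^ n := by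
        intro n _
        rw [PowerSeries.coeff_mk]
        by_cases hn : n = 0
        · rw [if_pos hn, if_pos hn, hn, pow_zero, pow_zero, mul_one, mul_one, zn_apply]
          have : 0 ≤ zn (PowerSeries.coeff 0 u) := apply_nonneg _ _
          linarith
        · rw [if_neg hn, if_neg hn, zero_add, zn_apply, zn_apply]
          push_cast
          rw [abs_mul, abs_mul, abs_pow, abs_pow]
          have e1 : |(N : ℝ)| ^ (2 * n - 1) ≤ |(N : ℝ)| ^ (2 * n) :=
            pow_le_pow_right₀ hN1 (by omega)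
          have e2 : |(N : ℝ)| ^ (2 * n) * |(t : ℝ)| ^ (2 * n) * ρ ^ n ≤ (1 / H ^ E) ^ n := by
            rw [pow_mul, pow_mul, ← mul_pow, ← mul_pow]
            apply pow_le_pow_left₀ (by positivity)
            calc |(N : ℝ)| ^ 2 * |(t : ℝ)| ^ 2 * ρ ≤ (H ^ E) ^ 2 * ((t : ℝ) ^ 2 * ρ) := by
                  rw [sq_abs (t : ℝ), mul_assoc]
                  exact mul_le_mul_of_nonneg_right (pow_le_pow_left₀ (abs_nonneg _) hNH 2)
                    (by positivity)
              _ ≤ (H ^ E) ^ 2 * (1 / H ^ (3 * E)) := mul_le_mul_of_nonneg_left htρ (by positivity)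
              _ = 1 / H ^ E := by
                  have : H ^ (3 * E) = (H ^ E) ^ 2 * H ^ E := by
                    rw [← pow_mul, ← pow_add]; congr 1; ring
                  rw [this]
                  have : H ^ E ≠ 0 := by positivity
                  field_simp
          calc |(N : ℝ)| ^ (2 * n - 1) * |(t : ℝ)| ^ (2 * n) * |((PowerSeries.coeff n u : ℤ) : ℝ)| * ρ ^ n
              ≤ |(N : ℝ)| ^ (2 * n) * |(t : ℝ)| ^ (2 * n) * |((PowerSeries.coeff n u : ℤ) : ℝ)| * ρ ^ n := by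
                gcongr
            _ = |((PowerSeries.coeff n u : ℤ) : ℝ)| *
                (|(N : ℝ)| ^ (2 * n) * |(t : ℝ)| ^ (2 * n) * ρ ^ n) := by ring
            _ ≤ _ := mul_le_mul_of_nonneg_left e2 (abs_nonneg _)
      refine (Finset.sum_le_sum hterm).trans ?_
      rw [Finset.sum_add_distrib]
      apply add_le_add _ (hub K)
      rw [Finset.sum_ite_eq']
      split_ifs
      · exact le_rfl
      · exact abs_nonneg _

/-- degree of the discriminant at infinity -/
def eR (m k : ℕ) : ℕ := m * (k * m + k * m * m)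

section

variable {L : Type} [Field L] [Algebra (PowerSeries ℚ) L] [IsFractionRing (PowerSeries ℚ) L]

/-- the roots at infinity are power series -/
lemma roots_ps {m k : ℕ} {f : ℤ[X][X]} {φ : Fin m → L} (hf : f.Monic) (hfd : f.natDegree = m)
    (hW : WD k m f)
    (hφ : f.map (evf ((algebraMap (PowerSeries ℚ) L PowerSeries.X)⁻¹)) = ∏ i, (X - C (φ i)))
    (hinj : Function.Injective φ) :
    ∃ ω : Fin m → PowerSeries ℚ, Function.Injective ω ∧
      (∀ i, ev PowerSeries.X (ω i) (hmgk k m f) = 0) ∧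
      ∀ i, ¬ PowerSeries.X ^ (eR m k + 1) ∣
        ev PowerSeries.X (ω i) (derivative (hmgk k m f)) := by
  obtain ⟨z, hz⟩ : ∃ z, z = algebraMap (PowerSeries ℚ) L PowerSeries.X := ⟨_, rfl⟩
  have hιinj : Function.Injective (algebraMap (PowerSeries ℚ) L) :=
    IsFractionRing.injective (PowerSeries ℚ) L
  have hz0 : z ≠ 0 := by
    rw [hz]
    intro h
    exact PowerSeries.X_ne_zero (hιinj (by rw [h, map_zero]))
  rw [← hz] at hφ
  have hxz : z⁻¹ * z = 1 := inv_mul_cancel₀ hz0
  have hG := hmgk_of_split hW hxz φ hφ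
  obtain ⟨G, hGd⟩ : ∃ G, G = hmgk k m f := ⟨_, rfl⟩
  rw [← hGd] at hG ⊢
  obtain ⟨hGm, hGn⟩ := hmgk_monic (k := k) hf hfd
  rw [← hGd] at hGm hGn
  have hcdeg : ∀ j, (G.coeff j).natDegree ≤ k * m := by
    rw [hGd]; exact natDegree_coeff_hmgk hW
  have hGs : ∀ w : PowerSeries ℚ, algebraMap (PowerSeries ℚ) L (ev PowerSeries.X w G)
      = ev z (algebraMap (PowerSeries ℚ) L w) G := by
    intro w
    rw [map_ev, hz]
  have hroot : ∀ i, ev z (z ^ k * φ i) G = 0 := by
    intro i
    rw [ev_apply, ← eval_map, hG, eval_prod]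
    apply Finset.prod_eq_zero (Finset.mem_univ i)
    simp
  have hex : ∀ i, ∃ w : PowerSeries ℚ, algebraMap (PowerSeries ℚ) L w = z ^ k * φ i := by
    intro i
    apply IsIntegrallyClosed.isIntegral_iff.1
    refine ⟨G.map (evf PowerSeries.X), hGm.map _, ?_⟩
    rw [eval₂_map]
    have : (algebraMap (PowerSeries ℚ) L).comp (evf PowerSeries.X) = evf z := by
      rw [hz]
      apply Polynomial.ringHom_ext'
      · exact RingHom.ext_int _ _
      · simp
    rw [this, ← ev_apply]
    exact hroot i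
  choose ω hω using hex
  refine ⟨ω, ?_, ?_, ?_⟩
  · intro i j hij
    apply hinj
    have h1 := hω i
    rw [hij, hω j] at h1
    exact (mul_left_cancel₀ (pow_ne_zero k hz0) h1).symm
  · intro i
    apply hιinj
    rw [hGs, hω, hroot, map_zero]
  · intro i hcon
    -- the norm of the derivative
    obtain ⟨R, hR⟩ : ∃ R, R = nrm G m (derivative G) := ⟨_, rfl⟩
    have hψ : Function.Injective (fun i => z ^ k * φ i) := by
      intro i j hij
      exact hinj (mul_left_cancel₀ (pow_ne_zero k hz0) hij)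
    have hR0 : R ≠ 0 := by
      rw [hR, ← hGn]
      apply nrm_ne_zero_hom (evf z) G hGm
      rw [← derivative_map, hG]
      exact (separable_prod_X_sub_C_iff.2 hψ)
    have hRd : R.natDegree ≤ eR m k := by
      rw [hR, nrm]
      apply natDegree_det_le
      intro i j
      have h1 : ∀ q, ((derivative G).coeff q).natDegree ≤ k * m := by
        intro q
        rw [coeff_derivative]
        have h2 : ((q : ℤ[X]) + 1) = C ((q : ℤ) + 1) := by simp
        rw [h2]
        exact (natDegree_mul_C_le _ _).trans (hcdeg _)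
      exact natDegree_aeval_comp G m (k * m) hcdeg (derivative G) m (k * m)
        ((natDegree_derivative_le _).trans (by omega)) h1 i j
    have hm0 : 0 < m := Fin.pos_iff_nonempty.2 ⟨i⟩
    have hdvd := dvd_nrm (evf (PowerSeries.X : PowerSeries ℚ)) (ω i) G m hm0 hGm hGn
      (by
        rw [← ev_apply]
        apply hιinj
        rw [hGs, hω, hroot, map_zero]) (derivative G)
    rw [← ev_apply, ← hR] at hdvd
    have h3 := hcon.trans hdvd
    rw [PowerSeries.X_pow_dvd_iff] at h3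
    apply hR0
    ext n
    rw [coeff_zero]
    by_cases hn : n < eR m k + 1
    · have h4 := h3 n hn
      rw [coeff_evf_X] at h4
      exact_mod_cast h4
    · exact coeff_eq_zero_of_natDegree_lt (by omega)

end

/-- the exponent for the branches -/
theorem branches (m k : ℕ) : ∃ E : ℕ, ∀ (L : Type) [Field L] [Algebra (PowerSeries ℚ) L]
    [IsFractionRing (PowerSeries ℚ) L] (f : ℤ[X][X]) (φ : Fin m → L) (h : ℝ), f.Monic →
    f.natDegree = m → WD k m f →
    f.map (evf ((algebraMap (PowerSeries ℚ) L PowerSeries.X)⁻¹)) = ∏ i, (X - C (φ i)) →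
    Function.Injective φ → 2 ≤ h → pn (pn zn) f ≤ h →
    ∃ (δ : ℤ) (ω : Fin m → PowerSeries ℤ), δ ≠ 0 ∧ |(δ : ℝ)| ≤ h ^ E ∧
      (hmgk k m f).map (evf (PowerSeries.C (δ ^ 2) * PowerSeries.X)) = ∏ i, (X - C (ω i)) ∧
      Function.Injective ω ∧ ∀ i, Bd zn (1 / h ^ E) (ω i) (h ^ E) := by
  obtain ⟨E0, hE0⟩ := eisenstein m (eR m k) (k * m)
  refine ⟨3 * E0 + 2 * (2 * E0 * m) + E0 + 2, ?_⟩
  intro L _ _ _ f φ h hf hfd hW hφ hinj hh hfh
  classical
  have hh1 : 1 ≤ h := by linarith
  obtain ⟨ω', hω'inj, hω'0, hω'd⟩ := roots_ps hf hfd hW hφ hinj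
  obtain ⟨G, hGd⟩ : ∃ G, G = hmgk k m f := ⟨_, rfl⟩
  obtain ⟨hGm, hGn⟩ := hmgk_monic (k := k) hf hfd
  have hcdeg : ∀ j, ((hmgk k m f).coeff j).natDegree ≤ k * m := natDegree_coeff_hmgk hW
  have hGh : pn (pn zn) (hmgk k m f) ≤ h := by rw [pn_hmgk hW]; exact hfh
  rw [← hGd] at hGm hGn hcdeg hGh hω'0 hω'd ⊢
  have hEis : ∀ i, Eis h E0 (ω' i) := fun i =>
    hE0 G (ω' i) h hGn.le hcdeg hh hGh (hω'0 i) (hω'd i)
  -- integral constant terms
  have hcc : ∀ i, ∃ c : ℤ, PowerSeries.constantCoeff (ω' i) = c ∧ |(c : ℝ)| ≤ h := by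
    intro i
    have hg0 : (G.map (evf (0 : ℤ))).Monic := hGm.map _
    have hc : evf (PowerSeries.constantCoeff (ω' i)) (G.map (evf (0 : ℤ))) = 0 := by
      rw [← ev_zero_map, ← constCoeff_ev_X, hω'0, map_zero]
    obtain ⟨c, hcz⟩ := IsIntegrallyClosed.isIntegral_iff.1
      (⟨G.map (evf (0 : ℤ)), hg0, hc⟩ : IsIntegral ℤ (PowerSeries.constantCoeff (ω' i)))
    have hcq : PowerSeries.constantCoeff (ω' i) = (c : ℚ) := by rw [← hcz]; simp
    refine ⟨c, hcq, ?_⟩
    apply abs_root_le hg0.ne_zero hh1 ((pn_map_evf_zero G).trans hGh)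
    have h1 := map_evf (Rat.castHom ℝ) (PowerSeries.constantCoeff (ω' i)) (G.map (evf (0 : ℤ)))
    rw [hc, map_zero, hcq] at h1
    simpa using h1.symm
  choose c hc1 hc2 using hcc
  have hDex := fun i => (hEis i).int hh1 (c i) (hc1 i)
  choose D hD0 hDh hDv using hDex
  obtain ⟨t, ht⟩ : ∃ t : Fin m → ℤ, t = fun i => ∏ j ∈ univ.erase i, D j := ⟨_, rfl⟩
  obtain ⟨δ, hδ⟩ : ∃ δ : ℤ, δ = ∏ i, D i := ⟨_, rfl⟩
  have hδt : ∀ i, D i * t i = δ := by
    intro i
    rw [hδ, ht]
    exact Finset.mul_prod_erase univ D (Finset.mem_univ i)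
  have hδ0 : δ ≠ 0 := by rw [hδ]; exact Finset.prod_ne_zero_iff.2 (fun i _ => hD0 i)
  have hA1 : 1 ≤ h ^ (2 * E0) := one_le_pow₀ hh1
  have hδle : |(δ : ℝ)| ≤ h ^ (2 * E0 * m) := by
    rw [hδ]
    push_cast
    rw [Finset.abs_prod]
    calc ∏ j, |(D j : ℝ)| ≤ ∏ _j : Fin m, h ^ (2 * E0) :=
          Finset.prod_le_prod (fun _ _ => abs_nonneg _) (fun j _ => hDh j)
      _ = h ^ (2 * E0 * m) := by
          rw [Finset.prod_const, Finset.card_univ, Fintype.card_fin, ← pow_mul]
  have htle : ∀ i, |(t i : ℝ)| ≤ h ^ (2 * E0 * m) := by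
    intro i
    rw [ht]
    simp only
    push_cast
    rw [Finset.abs_prod]
    calc ∏ j ∈ univ.erase i, |(D j : ℝ)| ≤ ∏ _j ∈ univ.erase i, h ^ (2 * E0) :=
          Finset.prod_le_prod (fun _ _ => abs_nonneg _) (fun j _ => hDh j)
      _ = (h ^ (2 * E0)) ^ (m - 1) := by
          rw [Finset.prod_const, Finset.card_erase_of_mem (Finset.mem_univ i), Finset.card_univ,
            Fintype.card_fin]
      _ ≤ (h ^ (2 * E0)) ^ m := pow_le_pow_right₀ hA1 (Nat.sub_le _ _)
      _ = h ^ (2 * E0 * m) := by rw [← pow_mul]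
  have hvex := fun i => hDv i (t i)
  choose ω hω1 hω2 using hvex
  have hω3 : ∀ i, PowerSeries.map (Int.castRingHom ℚ) (ω i)
      = PowerSeries.rescale ((δ ^ 2 : ℤ) : ℚ) (ω' i) := by
    intro i
    rw [hω1, hδt]
  have hδq : ((δ ^ 2 : ℤ) : ℚ) ≠ 0 := by exact_mod_cast pow_ne_zero 2 hδ0
  have hωinj : Function.Injective ω := by
    intro i j hij
    have h1 := hω3 i
    rw [hij, hω3 j] at h1
    exact hω'inj (PowerSeries.rescale_injective hδq h1).symm
  refine ⟨δ, ω, hδ0, ?_, ?_, hωinj, ?_⟩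
  · exact hδle.trans (pow_le_pow_right₀ hh1 (by omega))
  · apply eq_prod_of_roots _ (hGm.map _) (by rw [hGm.natDegree_map, hGn]) ω hωinj
    intro i
    rw [eval_map, ← ev_apply]
    apply PowerSeries.map_injective (Int.castRingHom ℚ) Int.cast_injective
    rw [map_ev, map_zero, hω3, map_mul, PowerSeries.map_C, PowerSeries.map_X]
    have h1 := congrArg (PowerSeries.rescale ((δ ^ 2 : ℤ) : ℚ)) (hω'0 i)
    rw [map_ev, map_zero, PowerSeries.rescale_X] at h1
    exact h1
  · intro i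
    have hEpos : 0 < h ^ (3 * E0 + 2 * (2 * E0 * m) + E0 + 2) := by positivity
    refine (hω2 i _ (by positivity) ?_).mono ?_
    · rw [mul_one_div, div_le_div_iff₀ hEpos (by positivity), one_mul]
      have h1 : (t i : ℝ) ^ 2 ≤ h ^ (2 * (2 * E0 * m)) := by
        rw [← sq_abs, mul_comm 2 (2 * E0 * m), pow_mul]
        exact pow_le_pow_left₀ (abs_nonneg _) (htle i) 2
      calc (t i : ℝ) ^ 2 * h ^ (3 * E0) ≤ h ^ (2 * (2 * E0 * m)) * h ^ (3 * E0) :=
            mul_le_mul_of_nonneg_right h1 (by positivity)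
        _ = h ^ (2 * (2 * E0 * m) + 3 * E0) := by rw [← pow_add]
        _ ≤ _ := pow_le_pow_right₀ hh1 (by omega)
    · have h1 : h ^ E0 ≤ h ^ (E0 + 1) := pow_le_pow_right₀ hh1 (by omega)
      have h2 : h ≤ h ^ (E0 + 1) := le_self_pow₀ hh1 (by omega)
      calc |(c i : ℝ)| + h ^ E0 ≤ h ^ (E0 + 1) + h ^ (E0 + 1) := add_le_add ((hc2 i).trans h2) h1
        _ = h ^ (E0 + 1) * 2 := by ring
        _ ≤ h ^ (E0 + 1) * h := mul_le_mul_of_nonneg_left hh (by positivity)
        _ = h ^ (E0 + 2) := by rw [← pow_succ]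
        _ ≤ _ := pow_le_pow_right₀ hh1 (by omega)

end Pool.Agent.K1H89.TS
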