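import Pool.Agent.K1H89.TS.A1

/-!
Thresholds in the totally split case.
-/

open Polynomial Finset NumberField IntermediateField

namespace Pool.Agent.K1H89.TS

open Pool.Agent.H322R2 Pool.Agent.Y910.S Pool.Agent.W257

lemma nat_le_pow {h : ℝ} (hh : 2 ≤ h) (n : ℕ) : (n : ℝ) ≤ h ^ n := by
  calc (n : ℝ) ≤ 2 ^ n := by exact_mod_cast Nat.lt_two_pow_self.le
    _ ≤ h ^ n := pow_le_pow_left₀ (by norm_num) hh n

lemma fact_le_pow {h : ℝ} (hh : 2 ≤ h) (m : ℕ) : (m.factorial : ℝ) ≤ h ^ (m ^ 2) := by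
  calc (m.factorial : ℝ) ≤ (2 : ℝ) ^ (m ^ 2) := by
        have h1 : m.factorial ≤ 2 ^ (m ^ 2) := by
          calc m.factorial ≤ m ^ m := Nat.factorial_le_pow m
            _ ≤ (2 ^ m) ^ m := Nat.pow_le_pow_left Nat.lt_two_pow_self.le m
            _ = 2 ^ (m ^ 2) := by rw [← pow_mul, sq]
        exact_mod_cast h1
    _ ≤ h ^ (m ^ 2) := pow_le_pow_left₀ (by norm_num) hh _

/-- the height of the discriminant -/
lemma pn_disc_le {m : ℕ} {f : ℤ[X][X]} {h : ℝ} (hfd : f.natDegree = m) (hh : 2 ≤ h)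
    (hfh : pn (pn zn) f ≤ h) : pn zn (nrm f m (derivative f)) ≤ h ^ (4 * m ^ 2 + m) := by
  have h1 : 1 ≤ h := by linarith
  have hf0 : 0 ≤ pn (pn zn) f := apply_nonneg _ _
  refine (nrm_le (pn zn) pnz_one f m (derivative f) m
    ((natDegree_derivative_le _).trans (by omega))).trans ?_
  have e1 : pn (pn zn) (derivative f) ≤ h ^ m * h := by
    refine (pn_derivative_le _ _).trans ?_
    rw [hfd]
    exact mul_le_mul (nat_le_pow hh m) hfh hf0 (by positivity)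
  have e2 : (1 + pn (pn zn) f) ^ m ≤ (h ^ 2) ^ m :=
    pow_le_pow_left₀ (by positivity) (by nlinarith) m
  have e3 : pn (pn zn) (derivative f) * (1 + pn (pn zn) f) ^ m ≤ h ^ (3 * m + 1) := by
    calc pn (pn zn) (derivative f) * (1 + pn (pn zn) f) ^ m ≤ (h ^ m * h) * (h ^ 2) ^ m :=
          mul_le_mul e1 e2 (by positivity) (by positivity)
      _ = h ^ (3 * m + 1) := by rw [← pow_mul]; ring
  calc (m.factorial : ℝ) * (pn (pn zn) (derivative f) * (1 + pn (pn zn) f) ^ m) ^ m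
      ≤ h ^ (m ^ 2) * (h ^ (3 * m + 1)) ^ m := by
        apply mul_le_mul (fact_le_pow hh m) _ _ (by positivity)
        · exact pow_le_pow_left₀ (mul_nonneg (apply_nonneg _ _) (by positivity)) e3 m
        · exact pow_nonneg (mul_nonneg (apply_nonneg _ _) (by positivity)) m
    _ = h ^ (4 * m ^ 2 + m) := by rw [← pow_mul, ← pow_add]; congr 1; ring

/-- existence of the integral branches, with explicit constants -/
theorem exists_BrW (m k : ℕ) : ∃ C0 : ℕ, 1 ≤ C0 ∧ ∀ (L : Type) [Field L]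
    [Algebra (PowerSeries ℚ) L] [IsFractionRing (PowerSeries ℚ) L] (f : ℤ[X][X]) (φ : Fin m → L)
    (h : ℝ), 1 ≤ m → 1 ≤ k → f.Monic → f.natDegree = m → WD k m f →
    f.map (evf ((algebraMap (PowerSeries ℚ) L PowerSeries.X)⁻¹)) = ∏ i, (X - C (φ i)) →
    Function.Injective φ → 2 ≤ h → pn (pn zn) f ≤ h →
    ∃ (δ : ℤ) (ω : Fin m → PowerSeries ℤ), BrW k m f (h ^ C0) δ ω ∧ (m : ℝ) * h + 1 ≤ h ^ C0 ∧
      (k : ℝ) * m.factorial + 2 ≤ h ^ C0 ∧ |(δ : ℝ)| ≤ h ^ C0 := by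
  obtain ⟨E, hE⟩ := branches m k
  refine ⟨2 * E + 4 * m ^ 2 + m + k + 4, by omega, ?_⟩
  intro L _ _ _ f φ h hm hk hf hfd hW hφ hinj hh hfh
  have hh1 : 1 ≤ h := by linarith
  obtain ⟨δ, ω, hδ, hδh, hsp, -, hω⟩ := hE L f φ h hf hfd hW hφ hinj hh hfh
  obtain ⟨B, hB⟩ : ∃ B, B = h ^ (2 * E + 4 * m ^ 2 + m + k + 4) := ⟨_, rfl⟩
  rw [← hB]
  have hmono : ∀ {n : ℕ}, n ≤ 2 * E + 4 * m ^ 2 + m + k + 4 → h ^ n ≤ B := by
    intro n hn
    rw [hB]
    exact pow_le_pow_right₀ hh1 hn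
  have hEB : h ^ E ≤ B := hmono (by omega)
  have hB4 : 4 ≤ B := by
    have h1 : h ^ 2 ≤ B := hmono (by omega)
    nlinarith
  have hBp : 0 < B := by linarith
  have hr : (0 : ℝ) ≤ 1 / B := by positivity
  have hEp : 0 < h ^ E := by positivity
  refine ⟨δ, ω, ⟨hm, hk, hf, hfd, hW, hB4, hδ, hsp, ?_, ?_, ?_, ?_⟩, ?_, ?_, hδh.trans hEB⟩
  · refine ((Bd.C hr (δ ^ 2)).mul hr (Bd.X hr zn_one)).mono ?_
    rw [zn_apply, mul_one_div, div_le_one hBp]
    push_cast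
    rw [abs_pow]
    calc |(δ : ℝ)| ^ 2 ≤ (h ^ E) ^ 2 := pow_le_pow_left₀ (abs_nonneg _) hδh 2
      _ = h ^ (2 * E) := by rw [← pow_mul]; congr 1; ring
      _ ≤ B := hmono (by omega)
  · intro i
    exact ((hω i).of_le hr (one_div_le_one_div_of_le hEp hEB)).mono hEB
  · rw [← hfd]
    apply nrm_ne_zero_hom (evf ((algebraMap (PowerSeries ℚ) L PowerSeries.X)⁻¹)) f hf
    rw [← derivative_map, hφ]
    exact separable_prod_X_sub_C_iff.2 hinj
  · exact (pn_disc_le hfd hh hfh).trans (hmono (by omega))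
  · have h1 : (m : ℝ) * h ≤ h ^ (m + 1) := by
      rw [pow_succ]
      exact mul_le_mul_of_nonneg_right (nat_le_pow hh m) (by linarith)
    have h2 : 1 ≤ h ^ (m + 1) := one_le_pow₀ hh1
    calc (m : ℝ) * h + 1 ≤ h ^ (m + 1) * 2 := by linarith
      _ ≤ h ^ (m + 1) * h := mul_le_mul_of_nonneg_left hh (by positivity)
      _ = h ^ (m + 2) := by rw [← pow_succ]
      _ ≤ B := hmono (by omega)
  · have h1 : (k : ℝ) * m.factorial ≤ h ^ (k + m ^ 2 + 1) := by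
      calc (k : ℝ) * m.factorial ≤ h ^ k * h ^ (m ^ 2) :=
            mul_le_mul (nat_le_pow hh k) (fact_le_pow hh m) (by positivity) (by positivity)
        _ = h ^ (k + m ^ 2) := by rw [← pow_add]
        _ ≤ _ := pow_le_pow_right₀ hh1 (by omega)
    have h2 : 2 ≤ h ^ (k + m ^ 2 + 1) := hh.trans (le_self_pow₀ hh1 (by omega))
    calc (k : ℝ) * m.factorial + 2 ≤ h ^ (k + m ^ 2 + 1) * 2 := by linarith
      _ ≤ h ^ (k + m ^ 2 + 1) * h := mul_le_mul_of_nonneg_left hh (by positivity)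
      _ = h ^ (k + m ^ 2 + 2) := by rw [← pow_succ]
      _ ≤ B := hmono (by omega)

lemma evf_eq_evalRingHom (a : ℤ) : evf a = evalRingHom a := by
  apply Polynomial.ringHom_ext'
  · exact RingHom.ext_int _ _
  · simp

/-- the field generated by the real roots of `f(a, Y)` -/
noncomputable def KR (f : ℤ[X][X]) (a : ℤ) : IntermediateField ℚ ℝ :=
  IntermediateField.adjoin ℚ {β : ℝ | aeval β (f.map (evalRingHom a)) = 0}

lemma BrW.KR_eq {k m : ℕ} {f : ℤ[X][X]} {B : ℝ} {δ : ℤ} {ω : Fin m → PowerSeries ℤ}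
    (P : BrW k m f B δ ω) {a : ℤ} (ha : B ^ 2 ≤ |(a : ℝ)|) : KR f a = KW k δ a ω := by
  unfold KR KW
  congr 1
  ext β
  rw [Set.mem_ofPred_eq, Set.mem_range, aeval_def, ← eval_map, ← evf_eq_evalRingHom]
  have h1 := P.split_at ha
  have h2 : (algebraMap ℤ ℝ) = Int.castRingHom ℝ := rfl
  rw [h2, h1, eval_prod, Finset.prod_eq_zero_iff]
  constructor
  · rintro ⟨i, _, hi⟩
    rw [eval_sub, eval_X, eval_C, sub_eq_zero] at hi
    exact ⟨i, hi.symm⟩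
  · rintro ⟨i, hi⟩
    refine ⟨i, mem_univ _, ?_⟩
    rw [eval_sub, eval_X, eval_C, hi, sub_self]

/-- the anchor, with explicit constants -/
theorem ts_anchor (m k : ℕ) : ∃ C0 : ℕ, 1 ≤ C0 ∧ ∀ (L : Type) [Field L]
    [Algebra (PowerSeries ℚ) L] [IsFractionRing (PowerSeries ℚ) L] (f : ℤ[X][X]) (φ : Fin m → L)
    (h : ℝ) (a : ℤ) (K : ℕ), 1 ≤ m → f.Monic → f.natDegree = m →
    (∀ j, (f.coeff j).natDegree ≤ k) →
    f.map (evf ((algebraMap (PowerSeries ℚ) L PowerSeries.X)⁻¹)) = ∏ i, (X - C (φ i)) →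
    Function.Injective φ → 2 ≤ h → pn (pn zn) f ≤ h → h ^ (C0 * (K + 2)) ≤ |(a : ℝ)| →
    ∃ B : ℝ, AncW m.factorial (eA (k + 1) m) (k + 1) B |(a : ℝ)| (KR f a) ∧
      B ^ K ≤ |(a : ℝ)| := by
  obtain ⟨C0, hC0, hC⟩ := exists_BrW m (k + 1)
  refine ⟨C0, hC0, ?_⟩
  intro L _ _ _ f φ h a K hm hf hfd hk hφ hinj hh hfh ha
  have hW : WD (k + 1) m f := WD_of_le hf hfd (fun j => (hk j).trans (by omega))
  obtain ⟨δ, ω, P, h1, h2, -⟩ := hC L f φ h hm (by omega) hf hfd hW hφ hinj hh hfh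
  have hB1 : 1 ≤ h ^ C0 := one_le_pow₀ (by linarith)
  rw [pow_mul] at ha
  have ha2 : (h ^ C0) ^ 2 ≤ |(a : ℝ)| := (pow_le_pow_right₀ hB1 (by omega)).trans ha
  refine ⟨h ^ C0, ?_, (pow_le_pow_right₀ hB1 (by omega)).trans ha⟩
  rw [P.KR_eq ha2]
  exact P.anchor ha2 (by linarith) h1 h2 hfh

end Pool.Agent.K1H89.TS
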