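import Pool.Agent.K1H89.TS.T1

/-!
Irreducibility of the fibres of a totally split irreducible polynomial at large integers.
-/

open Polynomial Finset NumberField IntermediateField

namespace Pool.Agent.K1H89.TS

open Pool.Agent.H322R2 Pool.Agent.Y910.S Pool.Agent.W257

/-- monic divisors of a product of distinct linear factors -/
lemma monic_dvd_prod {m : ℕ} {β : Fin m → ℝ} (hβ : Function.Injective β) {H : ℝ[X]}
    (hH : H.Monic) (hd : H ∣ ∏ i, (X - C (β i))) :
    ∃ I : Finset (Fin m), H = ∏ i ∈ I, (X - C (β i)) := by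
  classical
  have hF0 : (∏ i, (X - C (β i)) : ℝ[X]) ≠ 0 := (monic_prod_of_monic _ _ fun i _ => monic_X_sub_C _).ne_zero
  have hFs : (∏ i, (X - C (β i)) : ℝ[X]).Splits := Splits.prod fun i _ => Splits.X_sub_C _
  have hHs : H.Splits := hFs.of_dvd hF0 hd
  have hFr : (∏ i, (X - C (β i)) : ℝ[X]).roots = (univ.image β).val := by
    have h1 : (∏ i, (X - C (β i)) : ℝ[X]) = ∏ x ∈ univ.image β, (X - C x) := by
      rw [Finset.prod_image (fun i _ j _ h => hβ h)]
    rw [h1, roots_prod_X_sub_C]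
  have hle : H.roots ≤ (univ.image β).val := by
    rw [← hFr]
    exact roots.le_of_dvd hF0 hd
  have hnd : H.roots.Nodup := Multiset.nodup_of_le hle (univ.image β).nodup
  obtain ⟨I, hI⟩ : ∃ I : Finset (Fin m), I = univ.filter (fun i => β i ∈ H.roots) := ⟨_, rfl⟩
  have himg : H.roots.toFinset = I.image β := by
    ext x
    rw [Multiset.mem_toFinset, Finset.mem_image]
    constructor
    · intro hx
      have h1 : x ∈ univ.image β := by
        rw [← Finset.mem_val]
        exact Multiset.mem_of_le hle hx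
      obtain ⟨i, _, hi⟩ := Finset.mem_image.1 h1
      exact ⟨i, by rw [hI, Finset.mem_filter, hi]; exact ⟨mem_univ _, hx⟩, hi⟩
    · rintro ⟨i, hi, rfl⟩
      rw [hI, Finset.mem_filter] at hi
      exact hi.2
  refine ⟨I, ?_⟩
  have h2 : H = (H.roots.map (fun x => X - C x)).prod := hHs.eq_prod_roots_of_monic hH
  have h3 : (H.roots.map (fun x => X - C x)).prod = ∏ x ∈ H.roots.toFinset, (X - C x) := by
    rw [Finset.prod_eq_multiset_prod, Multiset.toFinset_val, hnd.dedup]
  rw [h2, h3, himg, Finset.prod_image (fun i _ j _ h => hβ h)]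

lemma Bd_neg {u : PowerSeries ℤ} {ρ C : ℝ} (h : Bd zn ρ u C) : Bd zn ρ (-u) C := by
  intro K
  refine le_trans (le_of_eq ?_) (h K)
  apply Finset.sum_congr rfl
  intro n _
  rw [map_neg, map_neg_eq_map]

/-- the coefficients of a product of linear factors -/
lemma Bd_coeff_prod {m : ℕ} {ω : Fin m → PowerSeries ℤ} {ρ B : ℝ} (hρ : 0 ≤ ρ) (hB : 0 ≤ B)
    (hω : ∀ i, Bd zn ρ (ω i) B) (I : Finset (Fin m)) (j : ℕ) :
    Bd zn ρ ((∏ i ∈ I, (X - C (ω i)) : (PowerSeries ℤ)[X]).coeff j) ((1 + B) ^ I.card) := by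
  classical
  induction I using Finset.induction_on generalizing j with
  | empty =>
    rw [Finset.prod_empty, Finset.card_empty, pow_zero, coeff_one]
    split_ifs
    · exact Bd.one hρ zn_one
    · exact Bd.zero.mono (by norm_num)
  | insert i I hi ih =>
    rw [Finset.prod_insert hi, Finset.card_insert_of_notMem hi, sub_mul, coeff_sub, coeff_C_mul,
      pow_succ, mul_comm _ (1 + B), add_mul, one_mul, sub_eq_add_neg]
    apply Bd.add hρ
    · rcases j with _ | j
      · rw [mul_coeff_zero, coeff_X_zero, zero_mul]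
        exact Bd.zero.mono (by positivity)
      · rw [coeff_X_mul]
        exact ih j
    · exact Bd_neg ((hω i).mul hρ (ih j))

/-- the exponent of the threshold -/
def eI (k m : ℕ) : ℕ := (3 * (k * m) + 4 * m + 1) * m + 4 * (k * m) + 2 * m + 5

theorem BrW.irred {k m : ℕ} {f : ℤ[X][X]} {B : ℝ} {δ : ℤ} {ω : Fin m → PowerSeries ℤ}
    (P : BrW k m f B δ ω) {a : ℤ} (ha : B ^ eI k m ≤ |(a : ℝ)|) (hδB : |(δ : ℝ)| ≤ B)
    {h : ℝ} (hBm : (m : ℝ) * h + 1 ≤ B) (hBN : (k : ℝ) * m.factorial + 2 ≤ B)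
    (hfh : pn (pn zn) f ≤ h) (hfp : Prime f) :
    Irreducible (f.map (evalRingHom a)) := by
  classical
  rw [← evf_eq_evalRingHom]
  have hB4 := P.hB
  have hB1 : 1 ≤ B := by linarith
  have hBp : 0 < B := by linarith
  have ha2 : B ^ 2 ≤ |(a : ℝ)| := (pow_le_pow_right₀ hB1 (by unfold eI; omega)).trans ha
  have hm1 : (1 : ℝ) ≤ m := by exact_mod_cast P.hm
  have hk1R : (1 : ℝ) ≤ k := by exact_mod_cast P.hk
  have hh0 : 0 ≤ h := (apply_nonneg _ _).trans hfh
  obtain ⟨hg, hgd⟩ := P.g_monic (a := a)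
  have hane := P.a_ne ha2
  obtain ⟨A, hA⟩ : ∃ A, A = |(a : ℝ)| := ⟨_, rfl⟩
  have hA0 : 0 < A := by rw [hA]; exact abs_pos.2 hane
  rw [← hA] at ha
  rw [hg.irreducible_iff_natDegree']
  refine ⟨?_, ?_⟩
  · intro h1
    rw [h1, natDegree_one] at hgd
    have := P.hm
    omega
  intro g' hh hg'm hhm hprod hmem
  rw [hgd, Finset.mem_Ioc] at hmem
  obtain ⟨s, hs⟩ : ∃ s, s = hh.natDegree := ⟨_, rfl⟩
  rw [← hs] at hmem
  have hsm : s < m := by omega
  -- the subset of roots
  have hsplit := P.split_at ha2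
  have hinj := P.β_inj ha2
  obtain ⟨I, hI⟩ := monic_dvd_prod hinj (H := hh.map (Int.castRingHom ℝ)) (hhm.map _) (by
    rw [← hsplit, ← hprod, Polynomial.map_mul]
    exact dvd_mul_left _ _)
  have hIs : I.card = s := by
    have h1 := congrArg natDegree hI
    rw [hhm.natDegree_map, natDegree_prod_of_monic _ _ fun i _ => monic_X_sub_C _] at h1
    simp only [natDegree_X_sub_C, Finset.sum_const, smul_eq_mul, mul_one] at h1
    rw [← h1, hs]
  have hr := P.r_pos ha2
  have hq := P.q_nonneg ha2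
  have hθ := P.th_bd ha2
  -- the values
  obtain ⟨x, hx⟩ : ∃ x : Fin m → ℝ,
    x = fun i => PowerSeries.constantCoeff (sb (thG δ a) (rω ω i)) := ⟨_, rfl⟩
  obtain ⟨q, hqd⟩ : ∃ q : (PowerSeries ℤ)[X], q = ∏ i ∈ I, (X - C (ω i)) := ⟨_, rfl⟩
  obtain ⟨u, hu⟩ : ∃ u : ℕ → PowerSeries ℝ,
    u = fun j => PowerSeries.map (Int.castRingHom ℝ) (q.coeff j) := ⟨_, rfl⟩
  have hub0 : ∀ j, Bd zn (1 / B) (q.coeff j) ((1 + B) ^ s) := by
    intro j
    rw [hqd, ← hIs]
    exact Bd_coeff_prod (by positivity) hBp.le P.hω I j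
  have hub : ∀ j, Bd rn (1 / B) (u j) ((1 + B) ^ s) := by
    intro j
    rw [hu]
    exact Bd_real (hub0 j)
  have hub' : ∀ j, Bd rn (B / |(a : ℝ)|) (u j) ((1 + B) ^ s) := fun j =>
    (hub j).of_le hq (P.rad_le ha2)
  have hval : ∀ j, (∏ i ∈ I, (X - C (x i)) : ℝ[X]).coeff j
      = PowerSeries.constantCoeff (sb (thG δ a) (u j)) := by
    intro j
    obtain ⟨ω', hω'⟩ : ∃ ω' : Fin m → Conv (B / |(a : ℝ)|) hq,
      ω' = fun i => ⟨rω ω i, B, P.ωbd ha2 i⟩ := ⟨_, rfl⟩
    obtain ⟨qC, hqC⟩ : ∃ qC : (Conv (B / |(a : ℝ)|) hq)[X], qC = ∏ i ∈ I, (X - C (ω' i)) := ⟨_, rfl⟩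
    have h1 : qC.map (Conv (B / |(a : ℝ)|) hq).subtype
        = q.map (PowerSeries.map (Int.castRingHom ℝ)) := by
      rw [hqC, hqd, Polynomial.map_prod, Polynomial.map_prod]
      apply Finset.prod_congr rfl
      intro i _
      rw [Polynomial.map_sub, Polynomial.map_sub, map_X, map_X, map_C, map_C, hω']
      rfl
    have h2 : qC.map ((PowerSeries.constantCoeff (R := ℝ)).comp (sbh hr hq hθ))
        = ∏ i ∈ I, (X - C (x i)) := by
      rw [hqC, Polynomial.map_prod]
      apply Finset.prod_congr rfl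
      intro i _
      rw [Polynomial.map_sub, map_X, map_C, hω', hx]
      rfl
    rw [← h2, coeff_map]
    have h3 := congrArg (fun p : (PowerSeries ℝ)[X] => p.coeff j) h1
    simp only [coeff_map] at h3
    rw [RingHom.comp_apply]
    have h4 : sbh hr hq hθ (qC.coeff j) = sb (thG δ a) ((Conv (B / |(a : ℝ)|) hq).subtype
        (qC.coeff j)) := rfl
    rw [h4, h3, hu]
  have hcoef : ∀ j, j ≤ s → ((hh.coeff j : ℤ) : ℝ)
      = (a : ℝ) ^ (k * (s - j)) * PowerSeries.constantCoeff (sb (thG δ a) (u j)) := by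
    intro j hj
    have h1 : (hh.map (Int.castRingHom ℝ)).comp (C ((a : ℝ) ^ k) * X)
        = C (((a : ℝ) ^ k) ^ s) * ∏ i ∈ I, (X - C (x i)) := by
      have h0 : (C (((a : ℝ) ^ k) ^ s) : ℝ[X]) = ∏ _i ∈ I, C ((a : ℝ) ^ k) := by
        rw [Finset.prod_const, hIs, ← C_pow]
      rw [hI, Polynomial.prod_comp, h0, ← Finset.prod_mul_distrib]
      apply Finset.prod_congr rfl
      intro i _
      rw [sub_comp, X_comp, C_comp, mul_sub, ← C_mul, hx]
      rfl
    have h2 := congrArg (fun p : ℝ[X] => p.coeff j) h1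
    simp only [comp_C_mul_X_coeff, coeff_C_mul, coeff_map, hval] at h2
    have h3 : ((a : ℝ) ^ k) ^ s = (a : ℝ) ^ (k * (s - j)) * ((a : ℝ) ^ k) ^ j := by
      rw [← pow_mul, ← pow_mul, ← pow_add, ← mul_add]
      congr 2
      omega
    rw [h3] at h2
    have h4 : ((a : ℝ) ^ k) ^ j ≠ 0 := pow_ne_zero _ (pow_ne_zero _ hane)
    apply mul_right_cancel₀ h4
    have h5 : (Int.castRingHom ℝ) (hh.coeff j) = ((hh.coeff j : ℤ) : ℝ) := rfl
    rw [h5] at h2
    rw [h2]
    ring
  -- the polynomial `Q`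
  obtain ⟨E, hE⟩ : ∃ E : ℕ → ℤ[X], E = fun j => ∑ n ∈ range (k * (s - j) + 1),
    C (PowerSeries.coeff n (q.coeff j) * δ ^ (2 * (k * s - n))) * X ^ (k * (s - j) - n) := ⟨_, rfl⟩
  have hMj : ∀ j, k * (s - j) ≤ k * s := fun j => Nat.mul_le_mul_left _ (Nat.sub_le _ _)
  have hksm : k * s ≤ k * m := Nat.mul_le_mul_left _ hsm.le
  have h1B : 1 + B ≤ B ^ 2 := by nlinarith
  have hCq : (1 + B) ^ s ≤ B ^ (2 * m) := by
    calc (1 + B) ^ s ≤ (B ^ 2) ^ s := pow_le_pow_left₀ (by positivity) h1B s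
      _ = B ^ (2 * s) := by rw [← pow_mul]
      _ ≤ _ := pow_le_pow_right₀ hB1 (by omega)
  have hδR : (δ : ℝ) ≠ 0 := by exact_mod_cast P.hδ
  have ht0 : PowerSeries.constantCoeff (thG δ a) = 1 / ((δ : ℝ) ^ 2 * a) := by
    have h1 := congrArg PowerSeries.constantCoeff (mul_invX (a : ℝ) hane)
    rw [map_mul, map_add, PowerSeries.constantCoeff_C, PowerSeries.constantCoeff_X, add_zero,
      map_one] at h1
    rw [thG, map_mul, PowerSeries.constantCoeff_C]
    have h2 : PowerSeries.constantCoeff (invX (a : ℝ)) = 1 / (a : ℝ) := by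
      rw [eq_div_iff hane, mul_comm]; exact h1
    rw [h2]
    field_simp
  have hEval : ∀ j, j ≤ s → evf a (E j) = δ ^ (2 * (k * s)) * hh.coeff j := by
    intro j hj
    obtain ⟨M, hM⟩ : ∃ M, M = k * (s - j) := ⟨_, rfl⟩
    have hMs : M ≤ k * s := by rw [hM]; exact hMj j
    -- splitting of the series
    obtain ⟨t, ht⟩ : ∃ t : PowerSeries ℝ, t = ∑ n ∈ range (M + 1),
      PowerSeries.C (PowerSeries.coeff n (u j)) * PowerSeries.X ^ n := ⟨_, rfl⟩
    have htc : ∀ n, PowerSeries.coeff n t = if n < M + 1 then PowerSeries.coeff n (u j) else 0 := by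
      intro n
      rw [ht, map_sum]
      simp only [PowerSeries.coeff_C_mul, PowerSeries.coeff_X_pow, mul_ite, mul_one, mul_zero]
      rw [Finset.sum_ite_eq]
      simp [Finset.mem_range]
    obtain ⟨w, hw⟩ : ∃ w, w = u j - t := ⟨_, rfl⟩
    have hwc : ∀ n, PowerSeries.coeff n w = if n < M + 1 then 0 else PowerSeries.coeff n (u j) := by
      intro n
      rw [hw, map_sub, htc]
      split_ifs <;> simp
    have hwb : Bd rn (1 / B) w ((1 + B) ^ s) := by
      intro K
      refine le_trans ?_ (hub j K)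
      apply Finset.sum_le_sum
      intro n _
      apply mul_le_mul_of_nonneg_right _ (by positivity)
      rw [hwc]
      split_ifs
      · rw [map_zero]; exact apply_nonneg _ _
      · exact le_rfl
    have htb : Bd rn (B / |(a : ℝ)|) t ((1 + B) ^ s) := by
      refine Bd.of_le hq (P.rad_le ha2) ?_
      intro K
      refine le_trans ?_ (hub j K)
      apply Finset.sum_le_sum
      intro n _
      apply mul_le_mul_of_nonneg_right _ (by positivity)
      rw [htc]
      split_ifs
      · exact le_rfl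
      · rw [map_zero]; exact apply_nonneg _ _
    have hwb2 := hwb.of_vanish (by positivity) hq (P.rad_le ha2) (M + 1) (by
      intro n hn
      rw [hwc, if_pos hn])
    have hw0 := sb_coeff_le hr hθ hwb2 0
    rw [pow_zero, div_one, PowerSeries.coeff_zero_eq_constantCoeff_apply] at hw0
    have hsum : PowerSeries.constantCoeff (sb (thG δ a) (u j))
        = PowerSeries.constantCoeff (sb (thG δ a) t)
          + PowerSeries.constantCoeff (sb (thG δ a) w) := by
      rw [← map_add, ← sb_add hr hθ htb hwb2, hw, add_sub_cancel]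
    have htv : PowerSeries.constantCoeff (sb (thG δ a) t)
        = ∑ n ∈ range (M + 1), PowerSeries.coeff n (u j) * (1 / ((δ : ℝ) ^ 2 * a)) ^ n := by
      rw [ht, sb_sum hr hq hθ _ _ (fun n => rn (PowerSeries.coeff n (u j)) * (B / |(a : ℝ)|) ^ n)
        (fun n _ => (Bd.C hq _).mul hq ((Bd.X hq rn_one).pow hq rn_one n)), map_sum]
      apply Finset.sum_congr rfl
      intro n _
      rw [sb_mul hr hθ (Bd.C hq _) ((Bd.X hq rn_one).pow hq rn_one n), sb_C,
        sb_pow hr hq hθ (Bd.X hq rn_one), sb_X, map_mul, map_pow, PowerSeries.constantCoeff_C, ht0]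
    have hEr : ((evf a (E j) : ℤ) : ℝ) = (δ : ℝ) ^ (2 * (k * s)) * ((a : ℝ) ^ M *
        PowerSeries.constantCoeff (sb (thG δ a) t)) := by
      rw [hE]
      simp only
      rw [← hM, map_sum]
      push_cast
      rw [htv, Finset.mul_sum, Finset.mul_sum]
      apply Finset.sum_congr rfl
      intro n hn
      rw [Finset.mem_range] at hn
      rw [map_mul, map_pow, evf_C, evf_X]
      push_cast
      have e1 : (δ : ℝ) ^ (2 * (k * s)) = (δ : ℝ) ^ (2 * (k * s - n)) * ((δ : ℝ) ^ 2) ^ n := by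
        rw [← pow_mul, ← pow_add]; congr 1; omega
      have e2 : (a : ℝ) ^ M = (a : ℝ) ^ (M - n) * (a : ℝ) ^ n := by
        rw [← pow_add]; congr 1; omega
      have e3 : PowerSeries.coeff n (u j) = ((PowerSeries.coeff n (q.coeff j) : ℤ) : ℝ) := by
        rw [hu, PowerSeries.coeff_map]; rfl
      rw [e1, e2, e3, div_pow, one_pow, mul_pow]
      have e4 : ((δ : ℝ) ^ 2) ^ n ≠ 0 := by positivity
      have e5 : (a : ℝ) ^ n ≠ 0 := pow_ne_zero _ hane
      field_simp
    have hdiff : |((evf a (E j) - δ ^ (2 * (k * s)) * hh.coeff j : ℤ) : ℝ)| < 1 := by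
      push_cast
      rw [hEr, hcoef j hj, ← hM, hsum]
      have e1 : (δ : ℝ) ^ (2 * (k * s)) * ((a : ℝ) ^ M * PowerSeries.constantCoeff (sb (thG δ a) t))
          - (δ : ℝ) ^ (2 * (k * s)) * ((a : ℝ) ^ M *
            (PowerSeries.constantCoeff (sb (thG δ a) t)
              + PowerSeries.constantCoeff (sb (thG δ a) w)))
          = - ((δ : ℝ) ^ (2 * (k * s)) * ((a : ℝ) ^ M *
            PowerSeries.constantCoeff (sb (thG δ a) w))) := by ring
      rw [e1, abs_neg, abs_mul, abs_mul, abs_pow, abs_pow, ← hA]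
      rw [← hA] at hw0
      have e2 : A ^ M * (B / A / (1 / B)) ^ (M + 1) = B ^ (2 * (M + 1)) / A := by
        have : B / A / (1 / B) = B ^ 2 / A := by field_simp
        rw [this, div_pow, ← pow_mul, pow_succ A M]
        field_simp
      calc |(δ : ℝ)| ^ (2 * (k * s)) * (A ^ M * |PowerSeries.constantCoeff (sb (thG δ a) w)|)
          ≤ B ^ (2 * (k * s)) * (A ^ M * ((B / A / (1 / B)) ^ (M + 1) * (1 + B) ^ s)) := by
            gcongr
        _ = B ^ (2 * (k * s)) * (B ^ (2 * (M + 1)) * (1 + B) ^ s) / A := by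
            rw [← mul_assoc (A ^ M), e2]; ring
        _ ≤ B ^ (2 * (k * m)) * (B ^ (2 * (k * m + 1)) * B ^ (2 * m)) / A := by
            apply div_le_div_of_nonneg_right _ hA0.le
            apply mul_le_mul (pow_le_pow_right₀ hB1 (by omega)) _ (by positivity) (by positivity)
            exact mul_le_mul (pow_le_pow_right₀ hB1 (by omega)) hCq (by positivity) (by positivity)
        _ = B ^ (4 * (k * m) + 2 * m + 2) / A := by
            rw [← pow_add, ← pow_add]; congr 2; ring
        _ < 1 := by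
            rw [div_lt_one hA0]
            refine lt_of_lt_of_le ?_ ha
            apply pow_lt_pow_right₀ (by linarith)
            unfold eI
            omega
    have h7 : |evf a (E j) - δ ^ (2 * (k * s)) * hh.coeff j| < 1 := by exact_mod_cast hdiff
    have h8 := Int.abs_lt_one_iff.1 h7
    omega
  obtain ⟨Q, hQ⟩ : ∃ Q : ℤ[X][X], Q = ∑ j ∈ range (s + 1), monomial j (E j) := ⟨_, rfl⟩
  have hQc : ∀ j, Q.coeff j = if j < s + 1 then E j else 0 := by
    intro j
    rw [hQ, finsetSum_coeff]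
    simp_rw [coeff_monomial]
    rw [Finset.sum_ite_eq']
    simp [Finset.mem_range]
  have hQd : Q.natDegree ≤ s := by
    rw [natDegree_le_iff_coeff_eq_zero]
    intro j hj
    rw [hQc, if_neg (by omega)]
  have hqs : q.coeff s = 1 := by
    have h1 : q.Monic := by rw [hqd]; exact monic_prod_of_monic _ _ fun i _ => monic_X_sub_C _
    have h2 : q.natDegree = s := by
      rw [hqd, natDegree_prod_of_monic _ _ fun i _ => monic_X_sub_C _]
      simp [hIs]
    rw [← h2]
    exact h1
  have hQs : Q.coeff s ≠ 0 := by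
    rw [hQc, if_pos (by omega), hE]
    simp only [Nat.sub_self, mul_zero, zero_add, Finset.sum_range_one, hqs, Nat.sub_zero, pow_zero,
      mul_one]
    rw [PowerSeries.coeff_zero_eq_constantCoeff_apply, map_one, one_mul]
    rw [Ne, C_eq_zero]
    exact pow_ne_zero _ P.hδ
  have hQ0 : Q ≠ 0 := by
    intro h0
    rw [h0, coeff_zero] at hQs
    exact hQs rfl
  have hndvd : ¬ f ∣ Q := by
    apply P.hf.not_dvd_of_natDegree_lt hQ0
    rw [P.hfd]
    omega
  have hR0 := nrm_ne_zero f m P.hf P.hfd hfp Q hndvd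
  -- a common root
  have hmapQ : Q.map (evf a) = C (δ ^ (2 * (k * s))) * hh := by
    ext j
    rw [coeff_map, coeff_C_mul, hQc]
    split_ifs with hj
    · exact hEval j (by omega)
    · rw [map_zero, coeff_eq_zero_of_natDegree_lt (by omega), mul_zero]
  obtain ⟨i0, hi0⟩ : I.Nonempty := by
    rw [← Finset.card_pos, hIs]
    omega
  have hcomp : (Int.castRingHom ℝ).comp (evf a) = evf (a : ℝ) := by
    apply Polynomial.ringHom_ext'
    · exact RingHom.ext_int _ _
    · simp
  have hQroot : eval₂ (evf (a : ℝ)) (βW k δ a ω i0) Q = 0 := by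
    rw [← hcomp, ← eval₂_map, hmapQ, eval₂_mul, ← eval_map (Int.castRingHom ℝ) (p := hh), hI,
      eval_prod, Finset.prod_eq_zero hi0, mul_zero]
    simp
  have hfroot : eval₂ (evf (a : ℝ)) (βW k δ a ω i0) f = 0 := by
    rw [← hcomp, ← eval₂_map, ← eval_map (Int.castRingHom ℝ), hsplit, eval_prod,
      Finset.prod_eq_zero (Finset.mem_univ i0)]
    simp
  have hdv := dvd_nrm (evf (a : ℝ)) (βW k δ a ω i0) f m (by have := P.hm; omega) P.hf P.hfd
    hfroot Q
  rw [hQroot, zero_dvd_iff] at hdv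
  -- the height of the norm
  have hQh : pn (pn zn) Q ≤ B ^ (3 * (k * m) + 2 * m + 1) := by
    rw [pn_eq_range (pn zn) Q (show Q.natDegree < s + 1 by omega)]
    have e1 : ∀ j ∈ range (s + 1), pn zn (Q.coeff j) ≤ B ^ (3 * (k * m) + 2 * m) := by
      intro j hj
      rw [Finset.mem_range] at hj
      rw [hQc, if_pos hj, hE]
      simp only
      refine (seminorm_sum_le _ _ _).trans ?_
      have e2 : ∀ n ∈ range (k * (s - j) + 1), pn zn (C (PowerSeries.coeff n (q.coeff j) *
          δ ^ (2 * (k * s - n))) * X ^ (k * (s - j) - n))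
          ≤ B ^ (3 * (k * m)) * (zn (PowerSeries.coeff n (q.coeff j)) * (1 / B) ^ n) := by
        intro n hn
        rw [Finset.mem_range] at hn
        have hn1 := hMj j
        refine (map_mul_le_mul _ _ _).trans ?_
        have e3 : pn zn ((X : ℤ[X]) ^ (k * (s - j) - n)) ≤ 1 := by
          refine (seminorm_pow_le _ pnz_one _ _).trans (pow_le_one₀ (apply_nonneg _ _) ?_)
          rw [pn_X]; exact zn_one
        refine (mul_le_of_le_one_right (apply_nonneg _ _) e3).trans ?_
        rw [pn_C, zn_apply, zn_apply]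
        push_cast
        rw [abs_mul, abs_pow]
        have e4 : |(δ : ℝ)| ^ (2 * (k * s - n)) ≤ B ^ (2 * (k * m)) := by
          calc |(δ : ℝ)| ^ (2 * (k * s - n)) ≤ B ^ (2 * (k * s - n)) :=
                pow_le_pow_left₀ (abs_nonneg _) hδB _
            _ ≤ _ := pow_le_pow_right₀ hB1 (by omega)
        have e5 : (1 : ℝ) ≤ B ^ (k * m) * (1 / B) ^ n := by
          rw [one_div, inv_pow, ← div_eq_mul_inv, one_le_div (by positivity)]
          exact pow_le_pow_right₀ hB1 (by omega)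
        calc |((PowerSeries.coeff n (q.coeff j) : ℤ) : ℝ)| * |(δ : ℝ)| ^ (2 * (k * s - n))
            ≤ |((PowerSeries.coeff n (q.coeff j) : ℤ) : ℝ)| * B ^ (2 * (k * m)) *
              (B ^ (k * m) * (1 / B) ^ n) := by
              refine le_trans ?_ (le_mul_of_one_le_right (by positivity) e5)
              exact mul_le_mul_of_nonneg_left e4 (abs_nonneg _)
          _ = B ^ (3 * (k * m)) * (|((PowerSeries.coeff n (q.coeff j) : ℤ) : ℝ)| * (1 / B) ^ n) := by
              have : B ^ (3 * (k * m)) = B ^ (2 * (k * m)) * B ^ (k * m) := by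
                rw [← pow_add]; congr 1; ring
              rw [this]; ring
      refine (Finset.sum_le_sum e2).trans ?_
      rw [← Finset.mul_sum, pow_add]
      exact mul_le_mul_of_nonneg_left ((hub0 j _).trans hCq) (by positivity)
    refine (Finset.sum_le_card_nsmul _ _ _ e1).trans ?_
    rw [Finset.card_range, nsmul_eq_mul]
    have e6 : ((s + 1 : ℕ) : ℝ) ≤ B := by
      have e7 : ((s + 1 : ℕ) : ℝ) ≤ m := by exact_mod_cast hsm
      have e8 : (m : ℝ) ≤ m.factorial := by exact_mod_cast Nat.self_le_factorial m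
      nlinarith
    calc ((s + 1 : ℕ) : ℝ) * B ^ (3 * (k * m) + 2 * m) ≤ B * B ^ (3 * (k * m) + 2 * m) :=
          mul_le_mul_of_nonneg_right e6 (by positivity)
      _ = _ := by rw [← pow_succ']
  have hfB : 1 + pn (pn zn) f ≤ B ^ 2 := by
    have : h ≤ B := by nlinarith
    linarith
  have hNB : (m.factorial : ℝ) ≤ B := by
    have : (0 : ℝ) ≤ m.factorial := Nat.cast_nonneg _
    nlinarith
  have hRh : pn zn (nrm f m Q) ≤ B ^ ((3 * (k * m) + 4 * m + 1) * m + 1) := by
    refine (nrm_le (pn zn) pnz_one f m Q m (by omega)).trans ?_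
    have hf0 : 0 ≤ pn (pn zn) f := apply_nonneg _ _
    calc (m.factorial : ℝ) * (pn (pn zn) Q * (1 + pn (pn zn) f) ^ m) ^ m
        ≤ B * (B ^ (3 * (k * m) + 2 * m + 1) * (B ^ 2) ^ m) ^ m := by
          apply mul_le_mul hNB _ _ hBp.le
          · apply pow_le_pow_left₀ (mul_nonneg (apply_nonneg _ _) (by positivity))
            apply mul_le_mul hQh _ (by positivity) (by positivity)
            exact pow_le_pow_left₀ (by positivity) hfB m
          · exact pow_nonneg (mul_nonneg (apply_nonneg _ _) (by positivity)) m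
      _ = B ^ ((3 * (k * m) + 4 * m + 1) * m + 1) := by
          rw [← pow_mul, ← pow_add, ← pow_mul, ← pow_succ']
          congr 1
          ring
  have hfin := abs_root_le hR0 (one_le_pow₀ hB1 (n := (3 * (k * m) + 4 * m + 1) * m + 1)) hRh hdv
  rw [← hA] at hfin
  have hlt : B ^ ((3 * (k * m) + 4 * m + 1) * m + 1) < B ^ eI k m := by
    apply pow_lt_pow_right₀ (by linarith)
    unfold eI
    omega
  linarith

end Pool.Agent.K1H89.TS
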