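import Pool.Agent.K1H89.TS.T2
import Pool.Agent.Y910.A.A18

/-!
Weighted equations attached to totally split polynomials.
-/

open Polynomial Finset NumberField IntermediateField

namespace Pool.Agent.K1H89.TS

open Pool.Agent.H322R2 Pool.Agent.Y910.S Pool.Agent.Y910.A Pool.Agent.W257

/-- the value of an integer polynomial at an integer of size at least one -/
lemma abs_evf_le {a : ℤ} (ha : 1 ≤ |(a : ℝ)|) {q : ℤ[X]} {k : ℕ} (hq : q.natDegree ≤ k) :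
    |((evf a q : ℤ) : ℝ)| ≤ pn zn q * |(a : ℝ)| ^ k := by
  rw [evf_sum a q (show q.natDegree < k + 1 by omega),
    pn_eq_range zn q (show q.natDegree < k + 1 by omega)]
  push_cast
  refine (Finset.abs_sum_le_sum_abs _ _).trans ?_
  rw [Finset.sum_mul]
  apply Finset.sum_le_sum
  intro i hi
  rw [Finset.mem_range] at hi
  rw [abs_mul, abs_pow, zn_apply]
  apply mul_le_mul_of_nonneg_left _ (abs_nonneg _)
  exact pow_le_pow_right₀ ha (by omega)

/-- the length of a fibre -/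
lemma pn_fibre_le {a : ℤ} (ha : 1 ≤ |(a : ℝ)|) {f : ℤ[X][X]} {k : ℕ}
    (hk : ∀ j, (f.coeff j).natDegree ≤ k) :
    pn zn (f.map (evf a)) ≤ pn (pn zn) f * |(a : ℝ)| ^ k := by
  have hd : (f.map (evf a)).natDegree < f.natDegree + 1 := Nat.lt_succ_of_le natDegree_map_le
  rw [pn_eq_range zn _ hd, pn_eq_range (pn zn) f (Nat.lt_succ_self _), Finset.sum_mul]
  apply Finset.sum_le_sum
  intro i _
  rw [coeff_map, zn_apply]
  exact abs_evf_le ha (hk i)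

/-- the fibre of an irreducible totally split polynomial is irreducible -/
theorem ts_irred (m k : ℕ) : ∃ C0 : ℕ, 1 ≤ C0 ∧ ∀ (L : Type) [Field L]
    [Algebra (PowerSeries ℚ) L] [IsFractionRing (PowerSeries ℚ) L] (f : ℤ[X][X]) (φ : Fin m → L)
    (h : ℝ) (a : ℤ), 1 ≤ m → f.Monic → f.natDegree = m →
    (∀ j, (f.coeff j).natDegree ≤ k) →
    f.map (evf ((algebraMap (PowerSeries ℚ) L PowerSeries.X)⁻¹)) = ∏ i, (X - C (φ i)) →
    Function.Injective φ → 2 ≤ h → pn (pn zn) f ≤ h → h ^ C0 ≤ |(a : ℝ)| → Irreducible f →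
    Irreducible (f.map (evalRingHom a)) := by
  obtain ⟨C0, hC0, hC⟩ := exists_BrW m (k + 1)
  refine ⟨C0 * eI (k + 1) m, Nat.mul_pos hC0 (by unfold eI; omega), ?_⟩
  intro L _ _ _ f φ h a hm hf hfd hk hφ hinj hh hfh ha hirr
  have hW : WD (k + 1) m f := WD_of_le hf hfd (fun j => (hk j).trans (by omega))
  obtain ⟨δ, ω, P, h1, h2, h3⟩ := hC L f φ h hm (by omega) hf hfd hW hφ hinj hh hfh
  rw [pow_mul] at ha
  exact P.irred ha h3 h1 h2 hfh hirr.prime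

/-- weighted equations, when the fibre is irreducible -/
theorem ts_eq_aux (m k p q : ℕ) (hm : 3 ≤ m) (hp : 1 ≤ p) (hq : 1 ≤ q) (hpq : Nat.Coprime p q) :
    ∃ κ : ℕ, 1 ≤ κ ∧ ∀ (L : Type) [Field L]
    [Algebra (PowerSeries ℚ) L] [IsFractionRing (PowerSeries ℚ) L] (f : ℤ[X][X]) (φ : Fin m → L)
    (h : ℕ) (a : ℤ), f.Monic → f.natDegree = m →
    (∀ j, (f.coeff j).natDegree ≤ k) →
    f.map (evf ((algebraMap (PowerSeries ℚ) L PowerSeries.X)⁻¹)) = ∏ i, (X - C (φ i)) →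
    Function.Injective φ → 1 ≤ h → pn (pn zn) f ≤ h → (2 * h) ^ κ ≤ a.natAbs →
    Irreducible (f.map (evalRingHom a)) →
    ∀ R : MvPolynomial (Fin 2) ℤ, (∀ n ∈ R.support, q * n 0 + p * n 1 < p * q * m) →
    ∀ x y : ℤ, ∑ l ∈ range (m + 1), (f.coeff l).eval a * x ^ (p * l) * y ^ (q * (m - l))
        = MvPolynomial.eval ![x, y] R →
      max x.natAbs y.natAbs ≤ (a.natAbs * (1 + H322R2.len R)) ^ κ := by
  obtain ⟨K, hK1, hK⟩ := ancW_eq m.factorial (eA (k + 1) m) (k + 1) m p q hm hp hq hpq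
  obtain ⟨C0, hC0, hC⟩ := ts_anchor m k
  refine ⟨C0 * (K + 2) + K * (k + 5), by nlinarith, ?_⟩
  intro L _ _ _ f φ h a hf hfd hk hφ hinj hh hfh ha hirr R hR x y hxy
  have hhR : (1 : ℝ) ≤ h := by exact_mod_cast hh
  have h2h : (2 : ℝ) ≤ 2 * h := by linarith
  have haR : (2 * (h : ℝ)) ^ (C0 * (K + 2) + K * (k + 5)) ≤ |(a : ℝ)| := by
    rw [← natAbs_cast]
    exact_mod_cast ha
  have haR1 : (2 * (h : ℝ)) ^ (C0 * (K + 2)) ≤ |(a : ℝ)| :=
    (pow_le_pow_right₀ (by linarith) (by omega)).trans haR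
  obtain ⟨B, hanc, hBa⟩ := hC L f φ (2 * h) a K (by omega) hf hfd hk hφ hinj h2h
    (hfh.trans (by linarith)) haR1
  obtain ⟨A, hA⟩ : ∃ A, A = a.natAbs := ⟨_, rfl⟩
  have hAR : (A : ℝ) = |(a : ℝ)| := by rw [hA]; exact natAbs_cast a
  have hhA : 2 * (h : ℝ) ≤ |(a : ℝ)| :=
    (le_self_pow₀ (by linarith) (by nlinarith)).trans haR1
  have hA2 : (2 : ℝ) ≤ |(a : ℝ)| := by linarith
  -- the fibre
  obtain ⟨g, hg⟩ : ∃ g : ℤ[X], g = f.map (evalRingHom a) := ⟨_, rfl⟩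
  have hgm : g.Monic := by rw [hg]; exact hf.map _
  have hgd : g.natDegree = m := by rw [hg, hf.natDegree_map, hfd]
  rw [← hg] at hirr
  have hgirr : Irreducible (g.map (Int.castRingHom ℚ)) :=
    (hgm.irreducible_iff_irreducible_map_fraction_map (K := ℚ)).1 hirr
  have hη : ∀ η : ℝ, evf η g = 0 → 3 ≤ Module.finrank ℚ ↥(ℚ⟮η⟯ ⊓ KR f a) := by
    intro η hη
    have h1 : ℚ⟮η⟯ ≤ KR f a := by
      rw [adjoin_simple_le_iff]
      apply IntermediateField.subset_adjoin ℚ _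
      show aeval η (f.map (evalRingHom a)) = 0
      rw [← hg, aeval_def]
      exact hη
    rw [inf_eq_left.2 h1, finrank_root hgm hgirr hη, hgd]
    exact hm
  have hsum : ∑ l ∈ range (m + 1), g.coeff l * x ^ (p * l) * y ^ (q * (m - l))
      = MvPolynomial.eval ![x, y] R := by
    rw [← hxy]
    apply Finset.sum_congr rfl
    intro l _
    rw [hg, coeff_map]
    rfl
  have hres := hK hanc hBa g hgm hgd hgirr hη R hR x y hsum
  -- the bound
  obtain ⟨Λ, hΛ⟩ : ∃ Λ, Λ = H322R2.len R := ⟨_, rfl⟩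
  rw [← hΛ] at hres ⊢
  rw [← hAR] at hA2 hhA hres
  rw [← hA]
  have hpg : pn zn g ≤ (A : ℝ) ^ (k + 1) := by
    rw [hg, ← evf_eq_evalRingHom]
    refine (pn_fibre_le (by rw [← hAR]; linarith) hk).trans ?_
    rw [← hAR, pow_succ, mul_comm]
    apply mul_le_mul_of_nonneg_left _ (by positivity)
    linarith
  have hAΛ : 2 ≤ (A : ℝ) * (1 + Λ) := by
    have : (0 : ℝ) ≤ Λ := Nat.cast_nonneg _
    nlinarith
  have hmain : (A : ℝ) * (2 + (pn zn g + Λ)) ≤ ((A : ℝ) * (1 + Λ)) ^ (k + 5) := by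
    have hΛ0 : (0 : ℝ) ≤ Λ := Nat.cast_nonneg _
    obtain ⟨Y, hY⟩ : ∃ Y : ℝ, Y = (A : ℝ) * (1 + Λ) := ⟨_, rfl⟩
    rw [← hY] at hAΛ ⊢
    have hAY : (A : ℝ) ≤ Y := by rw [hY]; nlinarith
    have hΛY : (Λ : ℝ) ≤ Y := by rw [hY]; nlinarith
    have hY1 : 1 ≤ Y := by linarith
    have e1 : (A : ℝ) ^ (k + 1) ≤ Y ^ (k + 1) := pow_le_pow_left₀ (by positivity) hAY _
    have e2 : Y ≤ Y ^ (k + 1) := le_self_pow₀ hY1 (by omega)
    calc (A : ℝ) * (2 + (pn zn g + Λ)) ≤ Y * (Y ^ (k + 1) + (Y ^ (k + 1) + Y ^ (k + 1))) := by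
          apply mul_le_mul hAY _ _ (by linarith)
          · linarith
          · have : 0 ≤ pn zn g := apply_nonneg _ _
            positivity
      _ = Y ^ (k + 2) * 3 := by ring
      _ ≤ Y ^ (k + 2) * (Y * Y) := by
          apply mul_le_mul_of_nonneg_left _ (by positivity)
          nlinarith
      _ = Y ^ (k + 4) := by ring
      _ ≤ Y ^ (k + 5) := pow_le_pow_right₀ hY1 (by omega)
  have h0 : (0 : ℝ) ≤ (A : ℝ) * (2 + (pn zn g + Λ)) := by
    have : 0 ≤ pn zn g := apply_nonneg _ _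
    positivity
  have hbd : ((A : ℝ) * (2 + (pn zn g + Λ))) ^ K
      ≤ (((A * (1 + Λ)) ^ (C0 * (K + 2) + K * (k + 5)) : ℕ) : ℝ) := by
    push_cast
    calc ((A : ℝ) * (2 + (pn zn g + Λ))) ^ K ≤ (((A : ℝ) * (1 + Λ)) ^ (k + 5)) ^ K :=
          pow_le_pow_left₀ h0 hmain K
      _ = ((A : ℝ) * (1 + Λ)) ^ (K * (k + 5)) := by rw [← pow_mul, mul_comm K]
      _ ≤ _ := pow_le_pow_right₀ (by linarith) (by omega)
  exact max_le (natAbs_le_of (hres.1.trans hbd)) (natAbs_le_of (hres.2.trans hbd))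

/-- weighted equations -/
theorem ts_eq (m k p q : ℕ) (hm : 3 ≤ m) (hp : 1 ≤ p) (hq : 1 ≤ q) (hpq : Nat.Coprime p q) :
    ∃ κ : ℕ, ∀ (L : Type) [Field L]
    [Algebra (PowerSeries ℚ) L] [IsFractionRing (PowerSeries ℚ) L] (f : ℤ[X][X]) (φ : Fin m → L)
    (h : ℕ) (a : ℤ), f.Monic → f.natDegree = m →
    (∀ j, (f.coeff j).natDegree ≤ k) →
    f.map (evf ((algebraMap (PowerSeries ℚ) L PowerSeries.X)⁻¹)) = ∏ i, (X - C (φ i)) →
    Function.Injective φ → 1 ≤ h → pn (pn zn) f ≤ h → (2 * h) ^ κ ≤ a.natAbs →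
    Irreducible f → Irreducible (f.map (evalRingHom a)) ∧
    ∀ R : MvPolynomial (Fin 2) ℤ, (∀ n ∈ R.support, q * n 0 + p * n 1 < p * q * m) →
    ∀ x y : ℤ, ∑ l ∈ range (m + 1), (f.coeff l).eval a * x ^ (p * l) * y ^ (q * (m - l))
        = MvPolynomial.eval ![x, y] R →
      max x.natAbs y.natAbs ≤ (a.natAbs * (1 + H322R2.len R)) ^ κ := by
  obtain ⟨C1, hC1, h1⟩ := ts_eq_aux m k p q hm hp hq hpq
  obtain ⟨C2, hC2, h2⟩ := ts_irred m k
  refine ⟨C1 + C2, ?_⟩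
  intro L _ _ _ f φ h a hf hfd hk hφ hinj hh hfh ha hirr
  have hhR : (1 : ℝ) ≤ h := by exact_mod_cast hh
  have haR : (2 * (h : ℝ)) ^ C2 ≤ |(a : ℝ)| := by
    rw [← natAbs_cast]
    exact_mod_cast (Nat.pow_le_pow_right (by omega) (by omega : C2 ≤ C1 + C2)).trans ha
  have hir := h2 L f φ (2 * h) a (by omega) hf hfd hk hφ hinj (by linarith)
    (hfh.trans (by linarith)) haR hirr
  refine ⟨hir, ?_⟩
  intro R hR x y hxy
  have ha0 : 0 < a.natAbs := lt_of_lt_of_le (by positivity) ha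
  exact (h1 L f φ h a hf hfd hk hφ hinj hh hfh
    ((Nat.pow_le_pow_right (by omega) (by omega)).trans ha) hir R hR x y hxy).trans
    (Nat.pow_le_pow_right (Nat.mul_pos ha0 (by omega)) (by omega))

end Pool.Agent.K1H89.TS
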