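import Pool.Agent.K1H89.TS.T3

/-!
The polynomials `∏ (Y - f_i(T)) + c(T)` are totally split at infinity.
-/

open Polynomial Finset NumberField IntermediateField

namespace Pool.Agent.K1H89.TS

open Pool.Agent.H322R2 Pool.Agent.Y910.S Pool.Agent.Y910.A Pool.Agent.W257

/-- the polynomial `∏ (Y - f_i(T)) + c(T)` -/
noncomputable def thm {r : ℕ} (f : Fin r → ℤ[X]) (c : ℤ[X]) : ℤ[X][X] :=
  ∏ i, (X - C (f i)) + C c

lemma thm_monic {r : ℕ} (hr : 1 ≤ r) (f : Fin r → ℤ[X]) (c : ℤ[X]) :
    (thm f c).Monic ∧ (thm f c).natDegree = r := by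
  have h1 : (∏ i, (X - C (f i)) : ℤ[X][X]).Monic := monic_prod_of_monic _ _ fun i _ => monic_X_sub_C _
  have h2 : (∏ i, (X - C (f i)) : ℤ[X][X]).natDegree = r := by
    rw [natDegree_prod_of_monic _ _ fun i _ => monic_X_sub_C _]
    simp
  have h3 : (C c : ℤ[X][X]).degree < (∏ i, (X - C (f i)) : ℤ[X][X]).degree := by
    rw [degree_eq_natDegree h1.ne_zero, h2]
    refine lt_of_le_of_lt degree_C_le ?_
    exact_mod_cast hr
  refine ⟨h1.add_of_left h3, ?_⟩
  rw [thm, natDegree_add_eq_left_of_degree_lt h3, h2]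

lemma cdeg_thm {r k : ℕ} {f : Fin r → ℤ[X]} {c : ℤ[X]} (hf : ∀ i, (f i).natDegree ≤ k)
    (hc : c.natDegree ≤ k) (hr : 1 ≤ r) (j : ℕ) : ((thm f c).coeff j).natDegree ≤ r * k := by
  classical
  have h1 : ∀ (I : Finset (Fin r)) (j : ℕ), ((∏ i ∈ I, (X - C (f i)) : ℤ[X][X]).coeff j).natDegree
      ≤ I.card * k := by
    intro I
    induction I using Finset.induction_on with
    | empty =>
      intro j
      rw [Finset.prod_empty, coeff_one]
      split_ifs <;> simp
    | insert i I hi ih =>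
      intro j
      rw [Finset.prod_insert hi, Finset.card_insert_of_notMem hi]
      refine (cdeg_mul (a := k) (b := I.card * k) ?_ ih j).trans ?_
      · intro l
        rw [coeff_sub, coeff_X, coeff_C]
        refine (natDegree_sub_le _ _).trans (max_le ?_ ?_)
        · split_ifs <;> simp
        · split_ifs
          · exact hf i
          · simp
      · ring_nf
        omega
  rw [thm, coeff_add]
  refine (natDegree_add_le _ _).trans (max_le ?_ ?_)
  · have := h1 univ j
    rwa [Finset.card_univ, Fintype.card_fin] at this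
  · rw [coeff_C]
    split_ifs
    · refine hc.trans ?_
      exact Nat.le_mul_of_pos_left _ hr
    · simp

lemma pn_thm_le {r : ℕ} (f : Fin r → ℤ[X]) (c : ℤ[X]) :
    pn (pn zn) (thm f c) ≤ ∏ i, (1 + pn zn (f i)) + pn zn c := by
  classical
  rw [thm]
  refine (map_add_le_add _ _ _).trans ?_
  rw [pn_C]
  apply add_le_add_left
  have h1 : ∀ t : Finset (Fin r), pn (pn zn) (∏ i ∈ t, (X - C (f i)) : ℤ[X][X])
      ≤ ∏ i ∈ t, (1 + pn zn (f i)) := by
    intro t
    induction t using Finset.induction_on with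
    | empty =>
      rw [Finset.prod_empty, Finset.prod_empty, pn_one]
      exact pnz_one
    | insert i t hi ih =>
      rw [Finset.prod_insert hi, Finset.prod_insert hi]
      refine (map_mul_le_mul _ _ _).trans ?_
      apply mul_le_mul _ ih (apply_nonneg _ _) (add_nonneg zero_le_one (apply_nonneg _ _))
      rw [sub_eq_add_neg]
      refine (map_add_le_add _ _ _).trans ?_
      rw [map_neg_eq_map, pn_C, pn_X]
      exact add_le_add_left pnz_one _
  exact h1 univ

/-- the polynomial `∏ (Y - f_i(T)) + c(T)` is totally split at infinity -/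
theorem thm_split {r : ℕ} (hr : 2 ≤ r) {f : Fin r → ℤ[X]} {c : ℤ[X]}
    (hd : ∀ i j, i ≠ j → c.natDegree < (f i - f j).natDegree)
    (L : Type) [Field L] [Algebra (PowerSeries ℚ) L] [IsFractionRing (PowerSeries ℚ) L] :
    ∃ φ : Fin r → L, Function.Injective φ ∧
      (thm f c).map (evf ((algebraMap (PowerSeries ℚ) L PowerSeries.X)⁻¹))
        = ∏ i, (X - C (φ i)) := by
  classical
  obtain ⟨ι, hι⟩ : ∃ ι, ι = algebraMap (PowerSeries ℚ) L := ⟨_, rfl⟩
  have hιinj : Function.Injective ι := by rw [hι]; exact IsFractionRing.injective (PowerSeries ℚ) L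
  rw [← hι]
  obtain ⟨z, hz⟩ : ∃ z, z = ι PowerSeries.X := ⟨_, rfl⟩
  have hz0 : z ≠ 0 := by
    rw [hz]
    intro h
    exact PowerSeries.X_ne_zero (hιinj (by rw [h, map_zero]))
  rw [← hz]
  obtain ⟨x, hx⟩ : ∃ x, x = z⁻¹ := ⟨_, rfl⟩
  rw [← hx]
  have hxz : x * z = 1 := by rw [hx]; exact inv_mul_cancel₀ hz0
  have hx0 : x ≠ 0 := by rw [hx]; exact inv_ne_zero hz0
  -- degrees
  obtain ⟨d, hdd⟩ : ∃ d : Fin r → Fin r → ℕ, d = fun i j => (f i - f j).natDegree := ⟨_, rfl⟩
  obtain ⟨γ, hγ⟩ : ∃ γ, γ = c.natDegree := ⟨_, rfl⟩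
  have hdγ : ∀ i j, i ≠ j → γ < d i j := by
    intro i j hij
    rw [hγ, hdd]
    exact hd i j hij
  obtain ⟨D, hD⟩ : ∃ D : Fin r → ℕ, D = fun i => ∑ j ∈ univ.erase i, d i j := ⟨_, rfl⟩
  have hDγ : ∀ i, γ < D i := by
    intro i
    obtain ⟨j, hj⟩ : ∃ j, j ≠ i := by
      have : Nontrivial (Fin r) := Fin.nontrivial_iff_two_le.2 hr
      exact exists_ne i
    refine (hdγ i j hj.symm).trans_le ?_
    rw [hD]
    exact Finset.single_le_sum (f := fun j => d i j) (fun _ _ => Nat.zero_le _)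
      (Finset.mem_erase.2 ⟨hj, Finset.mem_univ j⟩)
  -- the polynomials
  obtain ⟨u, hu⟩ : ∃ u : Fin r → Fin r → ℤ[X], u = fun i j => reflect (d i j) (f i - f j) := ⟨_, rfl⟩
  obtain ⟨v, hv⟩ : ∃ v : ℤ[X], v = reflect γ c := ⟨_, rfl⟩
  have hux : ∀ i j, x ^ d i j * evf z (u i j) = evf x (f i) - evf x (f j) := by
    intro i j
    rw [hu, ← map_sub]
    apply evf_reflect hxz
    rw [hdd]
  have hvx : x ^ γ * evf z v = evf x c := by
    rw [hv]
    exact evf_reflect hxz γ c hγ.ge
  have hu0 : ∀ i j, i ≠ j → (u i j).coeff 0 ≠ 0 := by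
    intro i j hij
    rw [hu]
    simp only
    rw [coeff_reflect, revAt_le (Nat.zero_le _), Nat.sub_zero, hdd]
    simp only
    have h1 : f i - f j ≠ 0 := by
      intro h0
      have h2 := hd i j hij
      rw [h0, natDegree_zero] at h2
      omega
    exact leadingCoeff_ne_zero.2 h1
  have hroot : ∀ i, ∃ V : PowerSeries ℚ, PowerSeries.X ∣ V ∧
      ι V * ∏ j ∈ univ.erase i, (ι V + (evf x (f i) - evf x (f j))) + evf x c = 0 := by
    intro i
    obtain ⟨G, hG⟩ : ∃ G : ℤ[X][X], G = X * ∏ j ∈ univ.erase i, (C (X ^ d i j) * X + C (u i j))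
      + C (X ^ (D i - γ) * v) := ⟨_, rfl⟩
    have hDi := hDγ i
    have hevG : ∀ {S : Type} [CommRing S] (s t : S), ev s t G
        = t * ∏ j ∈ univ.erase i, (s ^ d i j * t + evf s (u i j)) + s ^ (D i - γ) * evf s v := by
      intro S _ s t
      rw [hG, map_add, map_mul, ev_X, map_prod, ev_C, map_mul, map_pow, evf_X]
      congr 2
      apply Finset.prod_congr rfl
      intro j _
      rw [map_add, map_mul, ev_C, ev_C, ev_X, map_pow, evf_X]
    have hevD : ev (0 : ℤ) 0 (derivative G) = ∏ j ∈ univ.erase i, (u i j).coeff 0 := by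
      rw [hG, derivative_add, derivative_mul, derivative_X, one_mul, derivative_C, add_zero,
        map_add, map_mul, ev_X, zero_mul, add_zero, map_prod]
      apply Finset.prod_congr rfl
      intro j _
      rw [map_add, map_mul, ev_C, ev_C, ev_X, mul_zero, zero_add, evf, coe_eval₂RingHom,
        eval₂_at_zero]
      simp
    have h00 : ev (0 : ℤ) 0 G = 0 := by
      rw [hevG, zero_mul, zero_pow (by omega), zero_mul, add_zero]
    obtain ⟨M, hM⟩ : ∃ M, ∀ j, (G.coeff j).natDegree < M := by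
      refine ⟨G.support.sup (fun j => (G.coeff j).natDegree) + 1, fun j => ?_⟩
      by_cases hj : j ∈ G.support
      · exact Nat.lt_succ_of_le (Finset.le_sup (f := fun j => (G.coeff j).natDegree) hj)
      · rw [notMem_support_iff.1 hj, natDegree_zero]
        omega
    obtain ⟨Y, hYX, hY, -⟩ := hensel_ev (A := ℤ) G (G.natDegree + 1) M (Nat.lt_succ_self _) hM 0 0
      h00
    obtain ⟨Δ, hΔ⟩ : ∃ Δ, Δ = ev (0 : ℤ) 0 (derivative G) := ⟨_, rfl⟩
    rw [← hΔ] at hY
    have hΔ0 : Δ ≠ 0 := by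
      rw [hΔ, hevD, Finset.prod_ne_zero_iff]
      intro j hj
      exact hu0 i j (Finset.ne_of_mem_erase hj).symm
    have hΔq : ((Δ : ℚ) ^ 2) ≠ 0 := by
      have : (Δ : ℚ) ≠ 0 := by exact_mod_cast hΔ0
      positivity
    rw [map_zero, zero_add, zero_add] at hY
    obtain ⟨V, hV⟩ : ∃ V : PowerSeries ℚ, V = PowerSeries.rescale (((Δ : ℚ) ^ 2)⁻¹)
      (PowerSeries.C (Δ : ℚ) * PowerSeries.map (Int.castRingHom ℚ) Y) := ⟨_, rfl⟩
    have hVX : PowerSeries.X ∣ V := by
      rw [PowerSeries.X_dvd_iff, hV, ← PowerSeries.coeff_zero_eq_constantCoeff_apply,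
        PowerSeries.coeff_rescale, PowerSeries.coeff_C_mul, PowerSeries.coeff_map,
        PowerSeries.coeff_zero_eq_constantCoeff_apply, PowerSeries.X_dvd_iff.1 hYX]
      simp
    have hVG : ev PowerSeries.X V G = 0 := by
      have h1 := congrArg (PowerSeries.map (Int.castRingHom ℚ)) hY
      rw [map_ev, map_zero, map_mul, map_mul, PowerSeries.map_C, PowerSeries.map_X,
        PowerSeries.map_C] at h1
      have h2 := congrArg (PowerSeries.rescale (((Δ : ℚ) ^ 2)⁻¹)) h1
      rw [map_ev, map_zero, map_mul (PowerSeries.rescale _), PowerSeries.rescale_X] at h2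
      have h3 : PowerSeries.rescale (((Δ : ℚ) ^ 2)⁻¹) (PowerSeries.C ((Int.castRingHom ℚ) (Δ ^ 2)))
          * (PowerSeries.C (((Δ : ℚ) ^ 2)⁻¹) * PowerSeries.X) = PowerSeries.X := by
        have h4 : PowerSeries.rescale (((Δ : ℚ) ^ 2)⁻¹)
            (PowerSeries.C ((Int.castRingHom ℚ) (Δ ^ 2))) = PowerSeries.C ((Δ : ℚ) ^ 2) := by
          ext n
          rw [PowerSeries.coeff_rescale, PowerSeries.coeff_C, PowerSeries.coeff_C]
          split_ifs with hn
          · rw [hn]; simp
          · simp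
        rw [h4, ← mul_assoc, ← map_mul, mul_inv_cancel₀ hΔq, map_one, one_mul]
      rw [h3] at h2
      rw [hV]
      exact h2
    refine ⟨V, hVX, ?_⟩
    have h1 := congrArg ι hVG
    rw [map_ev, map_zero, ← hz, hevG] at h1
    have h2 : x ^ D i * (ι V * ∏ j ∈ univ.erase i, (z ^ d i j * ι V + evf z (u i j))
        + z ^ (D i - γ) * evf z v) = 0 := by rw [h1, mul_zero]
    rw [← h2, mul_add, mul_left_comm]
    congr 1
    · congr 1
      have h3 : x ^ D i = ∏ j ∈ univ.erase i, x ^ d i j := by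
        rw [hD]
        exact (Finset.prod_pow_eq_pow_sum _ _ _).symm
      rw [h3, ← Finset.prod_mul_distrib]
      apply Finset.prod_congr rfl
      intro j _
      rw [mul_add, ← mul_assoc, ← mul_pow, hxz, one_pow, one_mul, hux]
    · have h3 : x ^ D i = x ^ γ * x ^ (D i - γ) := by
        rw [← pow_add]; congr 1; omega
      rw [h3, ← hvx]
      have h4 : x ^ (D i - γ) * z ^ (D i - γ) = 1 := by rw [← mul_pow, hxz, one_pow]
      linear_combination (-(x ^ γ * evf z v)) * h4
  choose V hVX hV using hroot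
  have hinj : Function.Injective (fun i => evf x (f i) + ι (V i)) := by
    intro i j hij
    by_contra hne
    simp only at hij
    have h1 : x ^ d i j * evf z (u i j) = ι (V j - V i) := by
      rw [hux, map_sub]
      linear_combination hij
    have h2 : evf z (u i j) = z ^ d i j * ι (V j - V i) := by
      rw [← h1, ← mul_assoc, ← mul_pow, mul_comm z x, hxz, one_pow, one_mul]
    have h3 : evf (PowerSeries.X : PowerSeries ℚ) (u i j) = PowerSeries.X ^ d i j * (V j - V i) := by
      apply hιinj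
      rw [map_evf, map_mul, map_pow, ← hz]
      exact h2
    have h4 := congrArg (PowerSeries.coeff 0) h3
    rw [coeff_evf_X, PowerSeries.coeff_zero_eq_constantCoeff_apply, map_mul, map_pow,
      PowerSeries.constantCoeff_X, zero_pow (by have := hdγ i j hne; omega), zero_mul] at h4
    exact hu0 i j hne (by exact_mod_cast h4)
  refine ⟨fun i => evf x (f i) + ι (V i), hinj, ?_⟩
  obtain ⟨h1, h2⟩ := thm_monic (show 1 ≤ r by omega) f c
  apply eq_prod_of_roots _ (h1.map _) (by rw [h1.natDegree_map, h2]) _ hinj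
  intro i
  rw [thm, Polynomial.map_add, Polynomial.map_prod, eval_add, eval_prod, Polynomial.map_C, eval_C,
    ← Finset.mul_prod_erase univ _ (Finset.mem_univ i), ← hV i]
  congr 1
  congr 1
  · rw [Polynomial.map_sub, map_X, Polynomial.map_C, eval_sub, eval_X, eval_C]
    ring
  · apply Finset.prod_congr rfl
    intro j _
    rw [Polynomial.map_sub, map_X, Polynomial.map_C, eval_sub, eval_X, eval_C]
    ring

end Pool.Agent.K1H89.TS
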