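import Pool.Agent.K1H89.TS.T3

/-!
Removing the leading coefficient.
-/

open Polynomial Finset IntermediateField

namespace Pool.Agent.K1H89.TS

open Pool.Agent.H322R2 Pool.Agent.Y910.S Pool.Agent.W257

/-- the monic polynomial `c^(m-1) f(Y/c)`, where `c` is the coefficient of degree `m` -/
noncomputable def mon (m : ℕ) (f : ℤ[X][X]) : ℤ[X][X] :=
  X ^ m + ∑ j ∈ range m, C (f.coeff j * (f.coeff m) ^ (m - 1 - j)) * X ^ j

lemma mon_low (m : ℕ) (f : ℤ[X][X]) :
    (∑ j ∈ range m, C (f.coeff j * (f.coeff m) ^ (m - 1 - j)) * X ^ j : ℤ[X][X]).degree < m := by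
  rw [← mem_degreeLT]
  apply Submodule.sum_mem
  intro j hj
  rw [mem_degreeLT]
  exact (degree_C_mul_X_pow_le _ _).trans_lt (by exact_mod_cast Finset.mem_range.1 hj)

lemma mon_monic (m : ℕ) (f : ℤ[X][X]) : (mon m f).Monic := monic_X_pow_add (mon_low m f)

lemma mon_natDegree (m : ℕ) (f : ℤ[X][X]) : (mon m f).natDegree = m := by
  unfold mon
  rw [natDegree_add_eq_left_of_degree_lt]
  · exact natDegree_X_pow m
  · rw [degree_X_pow]
    exact mon_low m f

lemma mon_coeff_lt {m : ℕ} (f : ℤ[X][X]) {j : ℕ} (hj : j < m) :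
    (mon m f).coeff j = f.coeff j * (f.coeff m) ^ (m - 1 - j) := by
  unfold mon
  rw [coeff_add, coeff_X_pow, if_neg (by omega), zero_add, finsetSum_coeff,
    Finset.sum_eq_single_of_mem j (Finset.mem_range.2 hj)]
  · rw [coeff_C_mul_X_pow, if_pos rfl]
  · intro i _ hi
    rw [coeff_C_mul_X_pow, if_neg (fun h => hi h.symm)]

lemma mon_coeff_self (m : ℕ) (f : ℤ[X][X]) : (mon m f).coeff m = 1 := by
  have h := mon_monic m f
  rw [Monic, leadingCoeff, mon_natDegree] at h
  exact h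

/-- the values of the monic polynomial -/
lemma mon_eval {S : Type*} [CommRing S] {m : ℕ} (hm : 1 ≤ m) {f : ℤ[X][X]} (hf : f.natDegree ≤ m)
    (g : ℤ[X] →+* S) (z : S) :
    ((mon m f).map g).eval (g (f.coeff m) * z) = g (f.coeff m) ^ (m - 1) * (f.map g).eval z := by
  have h1 : (f.map g).eval z = ∑ j ∈ range (m + 1), g (f.coeff j) * z ^ j := by
    rw [eval_map, eval₂_eq_sum_range' g (Nat.lt_succ_of_le hf)]
  rw [h1, mon, Polynomial.map_add, Polynomial.map_pow, Polynomial.map_X, Polynomial.map_sum,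
    eval_add, eval_pow, eval_X, eval_finsetSum, Finset.sum_range_succ, mul_add, Finset.mul_sum,
    add_comm]
  congr 1
  · apply Finset.sum_congr rfl
    intro j hj
    rw [Finset.mem_range] at hj
    rw [Polynomial.map_mul, Polynomial.map_pow, Polynomial.map_X, Polynomial.map_C, eval_mul,
      eval_C, eval_pow, eval_X, map_mul, map_pow, mul_pow]
    have h2 : g (f.coeff m) ^ (m - 1) = g (f.coeff m) ^ (m - 1 - j) * g (f.coeff m) ^ j := by
      rw [← pow_add]
      congr 1
      omega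
    rw [h2]
    ring
  · rw [mul_pow]
    have h2 : g (f.coeff m) ^ m = g (f.coeff m) ^ (m - 1) * g (f.coeff m) := by
      rw [← pow_succ]
      congr 1
      omega
    rw [h2]
    ring

/-- `m` distinct zeros give the factorisation -/
lemma mon_split {K : Type*} [Field K] {m : ℕ} (hm : 1 ≤ m) {f : ℤ[X][X]} (hf : f.natDegree ≤ m)
    (g : ℤ[X] →+* K) (hg : g (f.coeff m) ≠ 0) {φ : Fin m → K} (hinj : Function.Injective φ)
    (h0 : ∀ i, (f.map g).eval (φ i) = 0) :
    (mon m f).map g = ∏ i, (X - C (g (f.coeff m) * φ i)) ∧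
      Function.Injective fun i => g (f.coeff m) * φ i := by
  have hinj' : Function.Injective fun i => g (f.coeff m) * φ i := fun i j h =>
    hinj (mul_left_cancel₀ hg h)
  refine ⟨?_, hinj'⟩
  have hmap : ((mon m f).map g).Monic := (mon_monic m f).map g
  have hprod : (∏ i : Fin m, (X - C (g (f.coeff m) * φ i)) : K[X]).Monic :=
    monic_prod_of_monic _ _ fun i _ => monic_X_sub_C _
  refine eq_of_monic_of_dvd_of_natDegree_le hprod hmap ?_ ?_
  · apply Finset.prod_dvd_of_coprime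
    · intro i _ j _ hij
      exact pairwise_coprime_X_sub_C hinj' hij
    · intro i _
      rw [dvd_iff_isRoot, IsRoot.def, mon_eval hm hf, h0, mul_zero]
  · rw [(mon_monic m f).natDegree_map, mon_natDegree, natDegree_prod_of_monic _ _
      (fun i _ => monic_X_sub_C _)]
    simp only [natDegree_X_sub_C, Finset.sum_const, Finset.card_univ, Fintype.card_fin, smul_eq_mul,
      mul_one, le_refl]

/-- degrees of the coefficients -/
lemma mon_coeff_natDegree {m k : ℕ} {f : ℤ[X][X]} (hk : ∀ j, (f.coeff j).natDegree ≤ k) (j : ℕ) :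
    ((mon m f).coeff j).natDegree ≤ m * k := by
  rcases lt_trichotomy j m with hj | rfl | hj
  · rw [mon_coeff_lt f hj]
    refine natDegree_mul_le.trans ?_
    have h1 : ((f.coeff m) ^ (m - 1 - j)).natDegree ≤ (m - 1 - j) * k :=
      natDegree_pow_le.trans (Nat.mul_le_mul_left _ (hk m))
    have h2 : (m - 1 - j) * k + k ≤ m * k := by
      have h3 : (m - 1 - j) * k + k = (m - 1 - j + 1) * k := by ring
      rw [h3]
      exact Nat.mul_le_mul_right _ (by omega)
    have := hk j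
    omega
  · rw [mon_coeff_self, natDegree_one]
    exact Nat.zero_le _
  · rw [coeff_eq_zero_of_natDegree_lt (by rw [mon_natDegree]; exact hj), natDegree_zero]
    exact Nat.zero_le _

/-- the length of the monic polynomial -/
lemma mon_pn_le {m : ℕ} (hm : 1 ≤ m) {f : ℤ[X][X]} (hf : f.natDegree ≤ m) {h : ℝ} (hh : 2 ≤ h)
    (hfh : pn (pn zn) f ≤ h) : pn (pn zn) (mon m f) ≤ h ^ (m + 1) := by
  have hh1 : 1 ≤ h := by linarith
  rw [pn_eq_range (pn zn) (mon m f) (show (mon m f).natDegree < m + 1 by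
    rw [mon_natDegree]; omega), Finset.sum_range_succ, mon_coeff_self]
  have hc : pn zn (f.coeff m) ≤ h := by
    refine le_trans ?_ hfh
    rw [pn_eq_range (pn zn) f (Nat.lt_succ_of_le hf)]
    exact Finset.single_le_sum (f := fun l => pn zn (f.coeff l)) (fun _ _ => apply_nonneg _ _)
      (Finset.mem_range.2 (by omega))
  have h1 : ∑ j ∈ range m, pn zn ((mon m f).coeff j) ≤ pn (pn zn) f * h ^ (m - 1) := by
    rw [pn_eq_range (pn zn) f (Nat.lt_succ_of_le hf), Finset.sum_range_succ, add_mul]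
    refine le_trans ?_ (le_add_of_nonneg_right (mul_nonneg (apply_nonneg _ _) (by positivity)))
    rw [Finset.sum_mul]
    apply Finset.sum_le_sum
    intro j hj
    rw [Finset.mem_range] at hj
    rw [mon_coeff_lt f hj]
    refine (map_mul_le_mul (pn zn) _ _).trans ?_
    apply mul_le_mul_of_nonneg_left _ (apply_nonneg _ _)
    rcases Nat.eq_zero_or_pos (m - 1 - j) with h0 | h0
    · rw [h0, pow_zero]
      exact pnz_one.trans (one_le_pow₀ hh1)
    · refine (seminorm_pow_le (pn zn) pnz_one _ _).trans ?_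
      refine (pow_le_pow_left₀ (apply_nonneg _ _) hc _).trans ?_
      exact pow_le_pow_right₀ hh1 (by omega)
  have h2 : pn zn (1 : ℤ[X]) ≤ 1 := pnz_one
  have h3 : pn (pn zn) f * h ^ (m - 1) ≤ h ^ m := by
    calc pn (pn zn) f * h ^ (m - 1) ≤ h * h ^ (m - 1) :=
          mul_le_mul_of_nonneg_right hfh (by positivity)
      _ = h ^ m := by rw [← pow_succ']; congr 1; omega
  have h4 : h ^ m + 1 ≤ h ^ (m + 1) := by
    have : 1 ≤ h ^ m := one_le_pow₀ hh1
    rw [pow_succ]
    nlinarith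
  linarith

/-- `T = 1/X` is transcendental -/
lemma evf_T_ne_zero {L : Type*} [Field L] [Algebra (PowerSeries ℚ) L]
    [IsFractionRing (PowerSeries ℚ) L] {q : ℤ[X]} (hq : q ≠ 0) :
    evf ((algebraMap (PowerSeries ℚ) L PowerSeries.X)⁻¹) q ≠ 0 := by
  intro h0
  obtain ⟨x, hx⟩ : ∃ x, x = algebraMap (PowerSeries ℚ) L PowerSeries.X := ⟨_, rfl⟩
  rw [← hx] at h0
  have hx0 : x ≠ 0 := by
    rw [hx]
    intro h
    rw [IsFractionRing.to_map_eq_zero_iff] at h
    exact PowerSeries.X_ne_zero h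
  letI : Invertible x⁻¹ := ⟨x, mul_inv_cancel₀ hx0, inv_mul_cancel₀ hx0⟩
  have h1 : eval₂ (Int.castRingHom L) x⁻¹ q = 0 := h0
  rw [← eval₂_reverse_eq_zero_iff] at h1
  have hinv : ⅟(x⁻¹) = x := rfl
  rw [hinv, hx] at h1
  have h2 : algebraMap (PowerSeries ℚ) L (evf PowerSeries.X q.reverse) = 0 := by
    rw [← h1, evf, coe_eval₂RingHom, hom_eval₂]
    congr 1
    exact RingHom.ext_int _ _
  rw [IsFractionRing.to_map_eq_zero_iff] at h2
  have h3 : q.reverse = 0 := by
    ext i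
    have h4 := coeff_evf_X q.reverse i
    rw [h2, map_zero] at h4
    rw [coeff_zero]
    exact_mod_cast h4.symm
  exact hq (reverse_eq_zero.1 h3)

/-- the field generated by the real zeros does not change -/
lemma KR_mon {m : ℕ} (hm : 1 ≤ m) {f : ℤ[X][X]} (hf : f.natDegree ≤ m) {a : ℤ}
    (ha : evf a (f.coeff m) ≠ 0) : KR (mon m f) a = KR f a := by
  obtain ⟨g, hg⟩ : ∃ g : ℤ[X] →+* ℝ, g = (Int.castRingHom ℝ).comp (evalRingHom a) := ⟨_, rfl⟩
  have hga : g (f.coeff m) ≠ 0 := by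
    rw [hg, RingHom.comp_apply, ← evf_eq_evalRingHom, eq_intCast]
    exact_mod_cast ha
  have hae : ∀ (F : ℤ[X][X]) (β : ℝ), aeval β (F.map (evalRingHom a)) = (F.map g).eval β := by
    intro F β
    rw [aeval_def, eval₂_eq_eval_map, Polynomial.map_map, hg]
    rfl
  have hgint : ∃ c : ℤ, g (f.coeff m) = c := ⟨evalRingHom a (f.coeff m), by
    rw [hg, RingHom.comp_apply]; rfl⟩
  obtain ⟨c, hc⟩ := hgint
  have hc0 : (c : ℝ) ≠ 0 := by rw [← hc]; exact hga
  have hmem : ∀ K : IntermediateField ℚ ℝ, (c : ℝ) ∈ K := fun K => by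
    have := K.algebraMap_mem (c : ℚ)
    rwa [eq_ratCast, Rat.cast_intCast] at this
  unfold KR
  apply le_antisymm
  · rw [IntermediateField.adjoin_le_iff]
    intro β hβ
    rw [Set.mem_ofPred_eq, hae] at hβ
    have h1 : β = c * ((c : ℝ)⁻¹ * β) := by rw [mul_inv_cancel_left₀ hc0]
    have h2 : ((f.map g).eval ((c : ℝ)⁻¹ * β)) = 0 := by
      have h3 := mon_eval hm hf g ((c : ℝ)⁻¹ * β)
      rw [hc, ← h1, hβ] at h3
      rcases mul_eq_zero.1 h3.symm with h | h
      · exact absurd h (pow_ne_zero _ hc0)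
      · exact h
    rw [SetLike.mem_coe, h1]
    apply mul_mem (hmem _)
    apply IntermediateField.subset_adjoin
    rw [Set.mem_ofPred_eq, hae]
    exact h2
  · rw [IntermediateField.adjoin_le_iff]
    intro β hβ
    rw [Set.mem_ofPred_eq, hae] at hβ
    have h3 := mon_eval hm hf g β
    rw [hβ, mul_zero, hc] at h3
    have h4 : β = (c : ℝ)⁻¹ * (c * β) := by rw [inv_mul_cancel_left₀ hc0]
    rw [SetLike.mem_coe, h4]
    apply mul_mem (inv_mem (hmem _))
    apply IntermediateField.subset_adjoin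
    rw [Set.mem_ofPred_eq, hae]
    exact h3

/-- the anchor of a totally split polynomial with arbitrary leading coefficient -/
theorem ts_anchor_gen (m k : ℕ) (hm : 1 ≤ m) : ∃ C0 : ℕ, 1 ≤ C0 ∧ ∀ (L : Type) [Field L]
    [Algebra (PowerSeries ℚ) L] [IsFractionRing (PowerSeries ℚ) L] (f : ℤ[X][X]) (φ : Fin m → L)
    (h : ℝ) (a : ℤ) (K : ℕ), f.natDegree = m → (∀ j, (f.coeff j).natDegree ≤ k) →
    (∀ i, (f.map (evf ((algebraMap (PowerSeries ℚ) L PowerSeries.X)⁻¹))).eval (φ i) = 0) →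
    Function.Injective φ → 2 ≤ h → pn (pn zn) f ≤ h → h ^ (C0 * (K + 2)) ≤ |(a : ℝ)| →
    ∃ B : ℝ, AncW m.factorial (eA (m * k + 1) m) (m * k + 1) B |(a : ℝ)| (KR f a) ∧
      B ^ K ≤ |(a : ℝ)| := by
  obtain ⟨C1, hC1, hC⟩ := ts_anchor m (m * k)
  refine ⟨(m + 1) * C1, Nat.mul_pos (by omega) hC1, ?_⟩
  intro L _ _ _ f φ h a K hfd hk h0 hinj hh hfh ha
  have hh1 : 1 ≤ h := by linarith
  have hc0 : f.coeff m ≠ 0 := by
    have h1 : f ≠ 0 := by
      rintro rfl
      rw [natDegree_zero] at hfd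
      omega
    rw [← hfd]
    exact leadingCoeff_ne_zero.2 h1
  have hpc : pn zn (f.coeff m) ≤ h := by
    refine le_trans ?_ hfh
    rw [pn_eq_range (pn zn) f (show f.natDegree < m + 1 by omega)]
    exact Finset.single_le_sum (f := fun l => pn zn (f.coeff l)) (fun _ _ => apply_nonneg _ _)
      (Finset.mem_range.2 (by omega))
  have hah : h ^ 2 ≤ |(a : ℝ)| := by
    refine (pow_le_pow_right₀ hh1 ?_).trans ha
    have h1 : 1 ≤ (m + 1) * C1 := Nat.mul_pos (by omega) hC1
    nlinarith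
  have hca : evf a (f.coeff m) ≠ 0 := by
    intro h1
    have h2 : evf (a : ℝ) (f.coeff m) = 0 := by
      have h3 : evf (a : ℝ) (f.coeff m) = ((evf a (f.coeff m) : ℤ) : ℝ) := by
        have := map_evf (Int.castRingHom ℝ) a (f.coeff m)
        rw [eq_intCast, eq_intCast] at this
        exact this.symm
      rw [h3, h1, Int.cast_zero]
    have h3 := abs_root_le hc0 hh1 hpc h2
    nlinarith
  obtain ⟨hsp, hinj'⟩ := mon_split hm hfd.le (evf ((algebraMap (PowerSeries ℚ) L PowerSeries.X)⁻¹))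
    (evf_T_ne_zero hc0) hinj h0
  have hh' : 2 ≤ h ^ (m + 1) := hh.trans (le_self_pow₀ hh1 (by omega))
  obtain ⟨B, h1, h2⟩ := hC L (mon m f) _ (h ^ (m + 1)) a K hm (mon_monic m f) (mon_natDegree m f)
    (mon_coeff_natDegree hk) hsp hinj' hh' (mon_pn_le hm hfd.le hh hfh)
    (by rw [← pow_mul, ← mul_assoc]; exact ha)
  rw [KR_mon hm hfd.le hca] at h1
  exact ⟨B, h1, h2⟩

end Pool.Agent.K1H89.TS
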